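import Pool.Agent.H24R2.Local

set_option autoImplicit false

/-!
# Certificates: from paths of bases to runs of the simplex method
-/

namespace Pool.Agent.H24R2

open Matrix Function

variable {m n : ℕ}

lemma lexs_head {s a : SignType} {l : List SignType} (h : s * lexs (a :: l) ≠ -1) :
    s * a ≠ -1 := by
  by_cases ha : a = 0
  · rw [ha, mul_zero]
    decide
  · have : lexs (a :: l) = a := by
      unfold lexs
      rw [if_neg ha]
    rwa [this] at h

section

variable {σ : Qr m n → SignType} {β₀ : Fin n → Row m n} {x : Idx m n → ℝ}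
  {𝔅 : Finset (Fin n → Row m n)} {β γ : Fin n → Row m n}

lemma sk_nonneg (H : ∀ q ∈ Qall 𝔅, pat x q = σ q) (hβ : β ∈ 𝔅)
    (hnd : (sysOf σ β₀).nd β) (j : Row m n) (h : (sysOf σ β₀).sl β j ≠ -1) :
    0 ≤ sk (row x) (rhs x none) β j := by
  have hd := (read_nd (β₀ := β₀) H hβ).1 hnd
  have h1 : σ (.det fun i => some (β i)) * σ (.slack none β j) ≠ -1 := lexs_head h
  rw [← H _ (mem_Qall_det hβ), ← H _ (mem_Qall_slack hβ none j), pat_det] at h1
  have h2 : pat x (.slack none β j) = SignType.sign (slackL (row x) β j (rhs x none)) := rfl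
  rw [h2, slackL_eq hd, ← sign_mul] at h1
  have e : dt (row x) β * (sk (row x) (rhs x none) β j * dt (row x) β) =
      (dt (row x) β * dt (row x) β) * sk (row x) (rhs x none) β j := by ring
  rw [e, sign_mul, sign_pos (mul_self_pos.2 hd), one_mul, sign_ne_neg_one] at h1
  exact h1

lemma mem_poly_of_feas (H : ∀ q ∈ Qall 𝔅, pat x q = σ q) (hβ : β ∈ 𝔅)
    (hf : Feas (sysOf σ β₀) (∅ ∪ Finset.univ) β) :
    bpt (row x) (rhs x none) β ∈ poly (row x) (rhs x none) :=
  mem_poly_iff fun j => sk_nonneg H hβ hf.1 j (hf.2 j (by simp))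

lemma terminal_of_term (H : ∀ q ∈ Qall 𝔅, pat x q = σ q) (hβ : β ∈ 𝔅)
    (hf : Feas (sysOf σ β₀) (∅ ∪ Finset.univ) β) (hT : Term (sysOf σ β₀) ∅ Finset.univ β) :
    Terminal (poly (row x) (rhs x none)) (cst x) (bpt (row x) (rhs x none) β) := by
  have hd := (read_nd (β₀ := β₀) H hβ).1 hf.1
  rcases hT with hT | ⟨i, -, hmu, hlam⟩
  · apply terminal_of_opt hd
    intro i
    have := hT i (by simp)
    rwa [read_mu H hβ, sign_ne_neg_one] at this
  · apply terminal_of_ray hd _ i (mem_poly_of_feas H hβ hf)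
    · rwa [read_mu H hβ, sign_eq_neg_one_iff] at hmu
    · intro j
      have := hlam j (by simp)
      rwa [read_lam H hβ, sign_ne_neg_one] at this

/-- A path of bases yields a certified run of the simplex method. -/
theorem exists_run {t : ℕ} {β γ : Fin n → Row m n}
    (h : Path (sysOf σ β₀) ∅ Finset.univ t β γ)
    (hf : Feas (sysOf σ β₀) (∅ ∪ Finset.univ) β)
    (hT : Term (sysOf σ β₀) ∅ Finset.univ γ) :
    ∃ (𝔅 : Finset (Fin n → Row m n)) (y : List (Fin n → Row m n)), 𝔅.card ≤ t + 1 ∧ β ∈ 𝔅 ∧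
      y.length ≤ t ∧ ∀ x : Idx m n → ℝ, (∀ q ∈ Qall 𝔅, pat x q = σ q) →
        SimplexRun (poly (row x) (rhs x none)) (cst x) (bpt (row x) (rhs x none) β)
          (y.map (bpt (row x) (rhs x none))) ∧ ∀ δ ∈ y, dt (row x) δ ≠ 0 := by
  classical
  induction h with
  | refl β =>
    refine ⟨{β}, [], by simp, by simp, by simp, ?_⟩
    intro x H
    exact ⟨terminal_of_term H (by simp) hf hT, by simp⟩
  | cons i j hi hj hmu hlam hf' h ih =>
    rename_i t β γ
    obtain ⟨𝔅, y, h1, h2, h3, h4⟩ := ih hf' hT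
    refine ⟨insert β 𝔅, if σ (.val none β (update β i j)) = 0 then y else update β i j :: y,
      (Finset.card_insert_le _ _).trans (by omega), Finset.mem_insert_self _ _, ?_, ?_⟩
    · split_ifs
      · omega
      · simp only [List.length_cons]
        omega
    · intro x H
      have H' : ∀ q ∈ Qall 𝔅, pat x q = σ q := fun q hq =>
        H q (Qall_mono (Finset.subset_insert _ _) hq)
      obtain ⟨hrun, hy⟩ := h4 x H'
      have hβ : β ∈ insert β 𝔅 := Finset.mem_insert_self _ _
      have hβ' : update β i j ∈ insert β 𝔅 := Finset.mem_insert_of_mem h2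
      have hd := (read_nd (β₀ := β₀) H hβ).1 hf.1
      have hd' := (read_nd (β₀ := β₀) H hβ').1 hf'.1
      have hp := mem_poly_of_feas H hβ hf
      have hp' := mem_poly_of_feas H hβ' hf'
      rw [read_mu H hβ, sign_eq_neg_one_iff] at hmu
      rw [read_lam H hβ, sign_eq_neg_one_iff] at hlam
      have hval : σ (.val none β (update β i j)) = 0 ↔
          cst x ⬝ᵥ bpt (row x) (rhs x none) β =
            cst x ⬝ᵥ bpt (row x) (rhs x none) (update β i j) := by
        rw [← H _ (mem_Qall_val hβ hβ' none)]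
        have e : pat x (.val none β (update β i j)) =
          SignType.sign (valL (row x) (cst x) β (update β i j) (rhs x none)) := rfl
        rw [e, valL_eq hd hd', sign_eq_zero_iff]
        rw [mul_eq_zero_iff_right (mul_ne_zero hd hd'), sub_eq_zero]
      by_cases hv : σ (.val none β (update β i j)) = 0
      · rw [if_pos hv]
        have h5 := hval.1 hv
        rw [obj_update hd _ i j hlam.ne] at h5
        have h6 : sk (row x) (rhs x none) β j = 0 := by
          have h7 : 0 < lm (row x) β i (cst x) / lm (row x) β i (row x j) :=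
            div_pos_of_neg_of_neg hmu hlam
          have h8 : sk (row x) (rhs x none) β j *
            (lm (row x) β i (cst x) / lm (row x) β i (row x j)) = 0 := by linarith
          exact (mul_eq_zero.1 h8).resolve_right h7.ne'
        have h7 : bpt (row x) (rhs x none) (update β i j) = bpt (row x) (rhs x none) β := by
          rw [bpt_update hd i j hlam.ne, h6]
          simp
        rw [h7] at hrun
        exact ⟨hrun, hy⟩
      · rw [if_neg hv]
        have hne : bpt (row x) (rhs x none) β ≠ bpt (row x) (rhs x none) (update β i j) := by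
          intro h5
          apply hv
          rw [hval, h5]
        refine ⟨⟨step_of_pivot hd (cst x) i j hp hp' hmu hlam hne, hrun⟩, ?_⟩
        intro δ hδ
        rcases List.mem_cons.1 hδ with rfl | hδ
        · exact hd'
        · exact hy δ hδ

end

section Start

variable {σ : Qr m n → SignType} {s : ℕ}
  (hs : 6 ^ 2 * (2 * qc m n) + (m + n) ≤ s) (hloc : LocReal (patA (m := m) (n := n)) s σ)

include hs hloc

/-- A tight basis at the initial vertex. -/
lemma exists_start : ∃ β₀ : Fin n → Row m n, σ (.det fun i => some (β₀ i)) ≠ 0 ∧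
    ∀ i, σ (.tight (β₀ i)) = 0 := by
  classical
  -- some basis
  have hne : (Finset.univ.filter fun β : Fin n → Row m n =>
      σ (.det fun i => some (β i)) ≠ 0).Nonempty := by
    refine ⟨fun i => Sum.inr i, ?_⟩
    rw [Finset.mem_filter]
    refine ⟨Finset.mem_univ _, ?_⟩
    obtain ⟨x, hx, -⟩ := exists_real hs hloc {fun i => Sum.inr i} (by simp)
    have h1 := hx _ (mem_Qall_det (𝔅 := {fun i => Sum.inr i}) (β := fun i => Sum.inr i)
      (by simp))
    rw [← h1, pat_det, Ne, sign_eq_zero_iff]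
    have h2 : bm (row x.1) (fun i : Fin n => (Sum.inr i : Row m n)) =
        -(1 : Matrix (Fin n) (Fin n) ℝ) := by
      ext i l
      rw [neg_apply, one_apply]
      change (if i = l then (-1 : ℝ) else 0) = _
      split_ifs <;> simp
    unfold dt
    rw [h2, det_neg, det_one, mul_one]
    exact pow_ne_zero _ (by norm_num)
  obtain ⟨β, hβ, hmax⟩ := Finset.exists_max_image _
    (fun β : Fin n → Row m n => (Finset.univ.filter fun i => σ (.tight (β i)) = 0).card) hne
  rw [Finset.mem_filter] at hβ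
  refine ⟨β, hβ.2, ?_⟩
  by_contra hcon
  push Not at hcon
  obtain ⟨i, hi⟩ := hcon
  obtain ⟨x, hx, hxt⟩ := exists_real hs hloc {β} (by simp)
  have hd : dt (row x.1) β ≠ 0 := by
    have h1 := hx _ (mem_Qall_det (𝔅 := {β}) (β := β) (by simp))
    have h2 := hβ.2
    rwa [← h1, pat_det, Ne, sign_eq_zero_iff] at h2
  obtain ⟨j, hj, hju⟩ := exists_tight_of_extreme x.2 (dir_ne_zero hd i)
  have hjt : σ (.tight j) = 0 := by
    rw [← hxt j]
    have e : pat x.1 (.tight j) =
      SignType.sign (rhs x.1 none j - row x.1 j ⬝ᵥ vtx x.1) := rfl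
    rw [e, hj, sub_self, sign_zero]
  rw [dot_dir hd, neg_ne_zero] at hju
  have hnd : σ (.det fun k => some (update β i j k)) ≠ 0 := by
    have e : (fun k => some (update β i j k)) = update (fun k => some (β k)) i (some j) := by
      ext1 k
      by_cases hk : k = i
      · subst hk; simp
      · simp [update_of_ne hk]
    rw [e]
    have h1 := read_lam (β₀ := β) hx (β := β) (by simp) i j
    intro h2
    have h3 : (sysOf σ β).lam β i j = 0 := by
      change σ _ * σ _ = 0
      rw [h2, mul_zero]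
    rw [h3, eq_comm, sign_eq_zero_iff] at h1
    exact hju h1
  have h1 := hmax (update β i j) (by
    rw [Finset.mem_filter]
    exact ⟨Finset.mem_univ _, hnd⟩)
  have h2 : (Finset.univ.filter fun k => σ (.tight (β k)) = 0).card <
      (Finset.univ.filter fun k => σ (.tight (update β i j k)) = 0).card := by
    apply Finset.card_lt_card
    rw [Finset.ssubset_iff_of_subset]
    · refine ⟨i, ?_, ?_⟩
      · rw [Finset.mem_filter, update_self]
        exact ⟨Finset.mem_univ _, hjt⟩
      · rw [Finset.mem_filter]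
        exact fun h => hi h.2
    · intro k hk
      rw [Finset.mem_filter] at hk ⊢
      refine ⟨Finset.mem_univ _, ?_⟩
      have hki : k ≠ i := by
        rintro rfl
        exact hi hk.2
      rw [update_of_ne hki]
      exact hk.2
  omega

/-- The initial basis is feasible for the perturbed linear program. -/
lemma good_start {β₀ : Fin n → Row m n} (h₀ : σ (.det fun i => some (β₀ i)) ≠ 0)
    (ht : ∀ i, σ (.tight (β₀ i)) = 0) : Good (sysOf σ β₀) ∅ Finset.univ β₀ := by
  classical
  refine ⟨⟨h₀, ?_⟩, by simp, by simp⟩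
  intro j _
  obtain ⟨x, hx, hxt⟩ := exists_real hs hloc {β₀} (by simp)
  obtain ⟨B, hB1, -, hB3, hB4⟩ := exists_pert x.1 β₀
  have hd : dt (row x.1) β₀ ≠ 0 :=
    (read_nd (β₀ := β₀) hx (β := β₀) (by simp)).1 h₀
  rw [read_sl hx hB1 (by simp) hd, sign_ne_neg_one]
  have hv : vtx x.1 = bpt (row x.1) B β₀ := by
    apply eq_bpt_of_tight hd
    intro i
    have h1 := hxt (β₀ i)
    rw [ht i] at h1
    have e : pat x.1 (.tight (β₀ i)) =
      SignType.sign (rhs x.1 none (β₀ i) - row x.1 (β₀ i) ⬝ᵥ vtx x.1) := rfl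
    rw [e, sign_eq_zero_iff, sub_eq_zero] at h1
    rw [hB4, h1]
  unfold sk
  rw [← hv]
  have h2 : row x.1 j ⬝ᵥ vtx x.1 ≤ rhs x.1 none j := x.2.1 j
  have h3 := hB3 j
  linarith

end Start

/-- The bound for the number of bases. -/
def kk (m n : ℕ) : ℕ := (2 * n + 1) ^ (Nat.log 2 (m + n) + 1)

/-- The size of the certificates. -/
def ss (m n : ℕ) : ℕ := kk m n ^ 2 * (2 * qc m n) + (m + n)

lemma six_le_kk (hm : 1 ≤ m) (hn : 1 ≤ n) : 6 ≤ kk m n := by
  unfold kk
  have h1 : 1 ≤ Nat.log 2 (m + n) := Nat.log_pos (by norm_num) (by omega)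
  calc 6 ≤ 3 ^ 2 := by norm_num
    _ ≤ (2 * n + 1) ^ 2 := Nat.pow_le_pow_left (by omega) 2
    _ ≤ (2 * n + 1) ^ (Nat.log 2 (m + n) + 1) := Nat.pow_le_pow_right (by omega) (by omega)

/-- **Certificates.** Every locally realizable sign assignment has a small certificate for a run of
the simplex method. -/
theorem exists_certificate (hm : 1 ≤ m) (hn : 1 ≤ n) (σ : Qr m n → SignType)
    (hloc : LocReal (patA (m := m) (n := n)) (ss m n) σ) :
    ∃ D : Finset (Qr m n), D.card ≤ ss m n ∧ ∃ y : List (Fin n → Row m n),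
      ∀ x : Adm m n, (∀ q ∈ D, patA x q = σ q) →
        SimplexRun (poly (row x.1) (rhs x.1 none)) (cst x.1) (vtx x.1)
          (y.map (bpt (row x.1) (rhs x.1 none))) ∧ (∀ δ ∈ y, dt (row x.1) δ ≠ 0) ∧
          y.length + 1 ≤ kk m n := by
  classical
  have h6 := six_le_kk hm hn
  have hs : 6 ^ 2 * (2 * qc m n) + (m + n) ≤ ss m n := by
    unfold ss
    apply Nat.add_le_add_right
    apply Nat.mul_le_mul_right
    exact Nat.pow_le_pow_left h6 2
  obtain ⟨β₀, h₀, ht⟩ := exists_start hs hloc
  have hax := sysOf_ax hs hloc h₀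
  have hgood := good_start hs hloc h₀ ht
  obtain ⟨t, γ, htk, hpath, hT⟩ := exists_path hax (Nat.log 2 (m + n) + 1) n ∅ Finset.univ β₀
    (by simp) (by
      rw [Finset.sdiff_empty, Finset.card_univ]
      simp only [Fintype.card_sum, Fintype.card_fin]
      exact Nat.lt_pow_succ_log_self (by norm_num) _) hgood
  obtain ⟨𝔅, y, h1, h2, h3, h4⟩ := exists_run hpath hgood.feas hT
  have htk' : t + 1 ≤ kk m n := htk
  refine ⟨Qall 𝔅 ∪ Qtight m n, ?_, y, ?_⟩
  · refine (Finset.card_union_le _ _).trans ?_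
    unfold ss
    exact Nat.add_le_add (card_Qall 𝔅 (kk m n) (by omega) (by omega)) card_Qtight
  · intro x hx
    have H : ∀ q ∈ Qall 𝔅, pat x.1 q = σ q := fun q hq => hx q (Finset.mem_union_left _ hq)
    have hd : dt (row x.1) β₀ ≠ 0 := (read_nd (β₀ := β₀) H h2).1 h₀
    have hv : vtx x.1 = bpt (row x.1) (rhs x.1 none) β₀ := by
      apply eq_bpt_of_tight hd
      intro i
      have h5 : pat x.1 (.tight (β₀ i)) = σ (.tight (β₀ i)) :=
        hx _ (Finset.mem_union_right _ (Finset.mem_image_of_mem _ (Finset.mem_univ _)))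
      rw [ht i] at h5
      have e : pat x.1 (.tight (β₀ i)) =
        SignType.sign (rhs x.1 none (β₀ i) - row x.1 (β₀ i) ⬝ᵥ vtx x.1) := rfl
      rw [e, sign_eq_zero_iff, sub_eq_zero] at h5
      exact h5.symm
    obtain ⟨h5, h6'⟩ := h4 x.1 H
    rw [hv]
    exact ⟨h5, h6', by omega⟩

end Pool.Agent.H24R2
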