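import Pool.Agent.H24R2.Tree
import Pool.Agent.Helper448.Warren

set_option autoImplicit false

/-!
# The number of realizable sign patterns
-/

namespace Pool.Agent.H24R2

open Matrix MvPolynomial

/-- A crude exponent bounding the number of sign patterns. -/
def pexp (m n : ℕ) : ℕ := ((m + n) * (2 * n + 1) + n + 6) * (m * n + m + 2 * n)

section Deg

variable {m n : ℕ}

/-- The generic input. -/
noncomputable def gin (m n : ℕ) : Idx m n → MvPolynomial (Idx m n) ℝ := fun k => X k

lemma deg_row (r : Row m n) (j : Fin n) : (row (gin m n) r j).totalDegree ≤ 1 := by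
  rcases r with i | l
  · simp only [row, gin, totalDegree_X, le_refl]
  · simp only [row]
    split_ifs <;> simp

lemma deg_rhs (k : Option (Row m n)) (r : Row m n) : (rhs (gin m n) k r).totalDegree ≤ 1 := by
  rcases k with _ | k
  · rcases r with i | l
    · simp only [rhs, gin, totalDegree_X, le_refl]
    · simp [rhs]
  · simp only [rhs]
    split_ifs <;> simp

lemma deg_cst (j : Fin n) : (cst (gin m n) j).totalDegree ≤ 1 := by
  simp only [cst, gin, totalDegree_X, le_refl]

lemma deg_vtx (j : Fin n) : (vtx (gin m n) j).totalDegree ≤ 1 := by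
  simp only [vtx, gin, totalDegree_X, le_refl]

lemma deg_orow (r : Option (Row m n)) (j : Fin n) : (orow (gin m n) r j).totalDegree ≤ 1 := by
  rcases r with _ | r
  · exact deg_cst j
  · exact deg_row r j

lemma deg_det (M : Matrix (Fin n) (Fin n) (MvPolynomial (Idx m n) ℝ))
    (h : ∀ i j, (M i j).totalDegree ≤ 1) : M.det.totalDegree ≤ n := by
  rw [det_apply]
  apply (totalDegree_finset_sum _ _).trans
  apply Finset.sup_le
  intro σ _
  refine (totalDegree_smul_le _ _).trans ?_
  refine (totalDegree_finset_prod _ _).trans ?_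
  refine (Finset.sum_le_sum fun i _ => h _ _).trans ?_
  simp

lemma deg_dd (β : Fin n → Option (Row m n)) : (dd (gin m n) β).totalDegree ≤ n := by
  unfold dd
  exact deg_det _ fun i j => deg_orow _ _

lemma deg_xx (k : Option (Row m n)) (β : Fin n → Row m n) (l : Fin n) :
    (xx (gin m n) k β l).totalDegree ≤ n := by
  unfold xx
  refine deg_det _ fun i j => ?_
  rw [updateCol_apply]
  split_ifs
  · exact deg_rhs _ _
  · exact deg_row _ _

lemma deg_sub_le {a b : MvPolynomial (Idx m n) ℝ} {d : ℕ} (ha : a.totalDegree ≤ d)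
    (hb : b.totalDegree ≤ d) : (a - b).totalDegree ≤ d :=
  (totalDegree_sub _ _).trans (max_le ha hb)

lemma deg_mul_le {a b : MvPolynomial (Idx m n) ℝ} {d e : ℕ} (ha : a.totalDegree ≤ d)
    (hb : b.totalDegree ≤ e) : (a * b).totalDegree ≤ d + e :=
  (totalDegree_mul _ _).trans (Nat.add_le_add ha hb)

lemma deg_sum_le {ι : Type} (s : Finset ι) (f : ι → MvPolynomial (Idx m n) ℝ) {d : ℕ}
    (h : ∀ i, (f i).totalDegree ≤ d) : (∑ i ∈ s, f i).totalDegree ≤ d :=
  (totalDegree_finset_sum _ _).trans (Finset.sup_le fun i _ => h i)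

lemma deg_qval (q : Qr m n) (hn : 1 ≤ n) : (qval (gin m n) q).totalDegree ≤ 2 * n + 1 := by
  cases q with
  | det β => exact (deg_dd β).trans (by omega)
  | slack k β j =>
    refine deg_sub_le ?_ ?_
    · exact (deg_mul_le (deg_rhs k j) (deg_dd _)).trans (by omega)
    · exact deg_sum_le _ _ fun l =>
        (deg_mul_le (deg_row j l) (deg_xx k β l)).trans (by omega)
  | val k β γ =>
    have h1 : ∀ δ : Fin n → Row m n,
        (∑ l, cst (gin m n) l * xx (gin m n) k δ l).totalDegree ≤ 1 + n := fun δ =>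
      deg_sum_le _ _ fun l => deg_mul_le (deg_cst l) (deg_xx k δ l)
    refine deg_sub_le ?_ ?_
    · exact (deg_mul_le (h1 β) (deg_dd _)).trans (by omega)
    · exact (deg_mul_le (h1 γ) (deg_dd _)).trans (by omega)
  | tight j =>
    refine deg_sub_le ?_ ?_
    · exact (deg_rhs _ _).trans (by omega)
    · exact deg_sum_le _ _ fun l =>
        (deg_mul_le (deg_row j l) (deg_vtx l)).trans (by omega)

lemma eval_row (x : Idx m n → ℝ) (r : Row m n) (j : Fin n) :
    eval x (row (gin m n) r j) = row x r j := by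
  rcases r with i | l
  · simp [row, gin]
  · simp only [row]
    split_ifs <;> simp

lemma eval_rhs (x : Idx m n → ℝ) (k : Option (Row m n)) (r : Row m n) :
    eval x (rhs (gin m n) k r) = rhs x k r := by
  rcases k with _ | k
  · rcases r with i | l <;> simp [rhs, gin]
  · simp only [rhs]
    split_ifs <;> simp

lemma eval_cst (x : Idx m n → ℝ) (j : Fin n) : eval x (cst (gin m n) j) = cst x j := by
  simp [cst, gin]

lemma eval_vtx (x : Idx m n → ℝ) (j : Fin n) : eval x (vtx (gin m n) j) = vtx x j := by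
  simp [vtx, gin]

lemma eval_dd (x : Idx m n → ℝ) (β : Fin n → Option (Row m n)) :
    eval x (dd (gin m n) β) = dd x β := by
  unfold dd
  rw [RingHom.map_det]
  congr 1
  ext i j
  simp only [RingHom.mapMatrix_apply, map_apply, of_apply]
  rcases β i with _ | r
  · exact eval_cst x j
  · exact eval_row x r j

lemma eval_xx (x : Idx m n → ℝ) (k : Option (Row m n)) (β : Fin n → Row m n) (l : Fin n) :
    eval x (xx (gin m n) k β l) = xx x k β l := by
  unfold xx
  rw [RingHom.map_det]
  congr 1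
  ext i j
  simp only [RingHom.mapMatrix_apply, map_apply, updateCol_apply, of_apply]
  split_ifs
  · exact eval_rhs x _ _
  · exact eval_row x _ _

lemma eval_qval (x : Idx m n → ℝ) (q : Qr m n) :
    eval x (qval (gin m n) q) = qval x q := by
  cases q <;> simp only [qval, map_sub, map_mul, map_sum, eval_dd, eval_xx, eval_row, eval_rhs,
    eval_cst, eval_vtx]

end Deg

lemma card_qr_le (m n : ℕ) (hn : 1 ≤ n) :
    Fintype.card (Qr m n) ≤ 4 * (m + n + 1) ^ (2 * n + 1) := by
  rw [Fintype.card_congr (qrEquiv m n)]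
  simp only [Fintype.card_sum, Fintype.card_prod, Fintype.card_fun, Fintype.card_option,
    Fintype.card_fin]
  set s := m + n with hs
  have h0 : ∀ k, s ^ k ≤ (s + 1) ^ k := fun k => Nat.pow_le_pow_left (by omega) _
  have h1 : (s + 1) ^ n ≤ (s + 1) ^ (2 * n + 1) := Nat.pow_le_pow_right (by omega) (by omega)
  have h2 : (s + 1) * (s ^ n * s) ≤ (s + 1) ^ (2 * n + 1) := by
    calc (s + 1) * (s ^ n * s) ≤ (s + 1) * ((s + 1) ^ n * (s + 1)) := by
          gcongr <;> omega
      _ = (s + 1) ^ (n + 2) := by ring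
      _ ≤ (s + 1) ^ (2 * n + 1) := Nat.pow_le_pow_right (by omega) (by omega)
  have h3 : (s + 1) * (s ^ n * s ^ n) ≤ (s + 1) ^ (2 * n + 1) := by
    calc (s + 1) * (s ^ n * s ^ n) ≤ (s + 1) * ((s + 1) ^ n * (s + 1) ^ n) := by
          gcongr <;> omega
      _ = (s + 1) ^ (2 * n + 1) := by ring
  have h4 : s ≤ (s + 1) ^ (2 * n + 1) := by
    calc s ≤ (s + 1) ^ 1 := by simp
      _ ≤ (s + 1) ^ (2 * n + 1) := Nat.pow_le_pow_right (by omega) (by omega)
  omega

theorem ncard_pat_le (m n : ℕ) (hn : 1 ≤ n) (S : Set (Idx m n → ℝ)) :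
    (Set.range (fun x : S => pat (m := m) (n := n) x.1)).ncard ≤ 2 ^ pexp m n := by
  classical
  have h := Pool.Agent.Helper448.Warren.ncard_sign_patterns_le
    (fun q : Qr m n => qval (gin m n) q) (2 * n + 1) fun q => deg_qval q hn
  have h1 : Set.range (fun x : S => pat (m := m) (n := n) x.1) ⊆
      Set.range (fun x : Idx m n → ℝ => fun q : Qr m n =>
        SignType.sign (eval x (qval (gin m n) q))) := by
    rintro _ ⟨x, rfl⟩
    refine ⟨x.1, ?_⟩
    ext1 q
    simp only [eval_qval]
    rfl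
  refine (Set.ncard_le_ncard h1 (Set.toFinite _)).trans (h.trans ?_)
  have hI : Fintype.card (Idx m n) = m * n + m + 2 * n := by
    simp only [Fintype.card_sum, Fintype.card_prod, Fintype.card_fin]
    omega
  rw [hI]
  unfold pexp
  rw [pow_mul]
  apply Nat.pow_le_pow_left
  have hc := card_qr_le m n hn
  have e1 : (m + n + 1) ^ (2 * n + 1) ≤ 2 ^ ((m + n) * (2 * n + 1)) := by
    rw [pow_mul]
    exact Nat.pow_le_pow_left Nat.lt_two_pow_self _
  have e2 : n + 1 ≤ 2 ^ n := Nat.lt_two_pow_self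
  set P := (m + n + 1) ^ (2 * n + 1) with hP
  set Q := 2 ^ ((m + n) * (2 * n + 1)) with hQ
  have hQ1 : 1 ≤ Q := Nat.one_le_two_pow
  have hN1 : 1 ≤ 2 ^ n := Nat.one_le_two_pow
  calc 4 * Fintype.card (Qr m n) * (2 * n + 1) + 2
      ≤ 4 * (4 * P) * (2 * n + 1) + 2 := by gcongr
    _ ≤ 4 * (4 * Q) * (2 * 2 ^ n) + 2 := by
        have : 2 * n + 1 ≤ 2 * 2 ^ n := by omega
        gcongr
    _ ≤ 64 * (Q * 2 ^ n) := by
        have : 1 ≤ Q * 2 ^ n := Nat.mul_pos hQ1 hN1
        nlinarith
    _ = 2 ^ ((m + n) * (2 * n + 1) + n + 6) := by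
        rw [pow_add, pow_add]
        ring

end Pool.Agent.H24R2
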