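import Mathlib

set_option autoImplicit false

/-!
# Linear programs, runs of the simplex method, algebraic computation trees

Definitions used by the theorem on the simplex method.
-/

namespace Pool.Agent.H24R2

/-! ### Runs of the simplex method -/

/-- The polyhedron `{x : A x ≤ b, x ≥ 0}`. -/
def Poly {m n : ℕ} (A : Fin m → Fin n → ℝ) (b : Fin m → ℝ) : Set (Fin n → ℝ) :=
  {x | (∀ i, ∑ j, A i j * x j ≤ b i) ∧ ∀ j, 0 ≤ x j}

/-- The objective function `x ↦ c · x`. -/
def obj {n : ℕ} (c x : Fin n → ℝ) : ℝ := ∑ j, c j * x j

/-- The ray from `v` in direction `u`. -/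
def ray {n : ℕ} (v u : Fin n → ℝ) : Set (Fin n → ℝ) := {x | ∃ t : ℝ, 0 ≤ t ∧ x = v + t • u}

/-- `w` is a vertex of `P`, joined to `v` by an edge of `P` (the segment from `v` to `w` is a face
of `P`), and the objective function is larger at `w` than at `v`. -/
def Step {n : ℕ} (P : Set (Fin n → ℝ)) (c v w : Fin n → ℝ) : Prop :=
  w ∈ P.extremePoints ℝ ∧ IsExtreme ℝ P (segment ℝ v w) ∧ obj c v < obj c w

/-- The simplex method may stop at `v`: the objective function is maximal at `v`, or `P` has an
unbounded edge at `v` (a ray which is a face of `P`) along which it increases. -/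
def Terminal {n : ℕ} (P : Set (Fin n → ℝ)) (c v : Fin n → ℝ) : Prop :=
  (∀ x ∈ P, obj c x ≤ obj c v) ∨ ∃ u : Fin n → ℝ, IsExtreme ℝ P (ray v u) ∧ 0 < obj c u

/-- `SimplexRun P c v [v₁, …, v_k]`: the sequence `v, v₁, …, v_k` is a complete run of the simplex
method: every member is joined to the next one, which is a vertex, by an edge along which the
objective function increases, and the method may stop at the last member. -/
def SimplexRun {n : ℕ} (P : Set (Fin n → ℝ)) (c : Fin n → ℝ) :
    (Fin n → ℝ) → List (Fin n → ℝ) → Prop
  | v, [] => Terminal P c v
  | v, w :: l => Step P c v w ∧ SimplexRun P c w l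

/-! ### Algebraic computation trees -/

/-- The four arithmetic operations. -/
inductive Op : Type
  | add
  | sub
  | mul
  | div
  deriving DecidableEq

/-- The value of an arithmetic operation. -/
noncomputable def Op.eval : Op → ℝ → ℝ → ℝ
  | .add, a, b => a + b
  | .sub, a, b => a - b
  | .mul, a, b => a * b
  | .div, a, b => a / b

/-- An operand: an input number, one of the constants `0` and `1`, or the result of the `j`-th
arithmetic operation performed so far. -/
inductive Operand (κ : Type) : Type
  | input (k : κ)
  | zero
  | one
  | result (j : ℕ)

/-- The value of an operand on input `x`, if `res` lists the results computed so far (a result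
which does not exist counts as `0`). -/
def Operand.value {κ : Type} (x : κ → ℝ) (res : List ℝ) : Operand κ → ℝ
  | .input k => x k
  | .zero => 0
  | .one => 1
  | .result j => res.getD j 0

/-- Algebraic computation trees for the simplex method on inputs indexed by `κ`. A node stops the
computation, or performs one arithmetic operation, or compares two numbers and branches, or moves
to a new vertex by naming its `n` coordinates. -/
inductive PivotTree (κ : Type) (n : ℕ) : Type
  | stop
  | arith (o : Op) (u v : Operand κ) (next : PivotTree κ n)
  | compare (u v : Operand κ) (lt eq gt : PivotTree κ n)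
  | move (p : Fin n → Operand κ) (next : PivotTree κ n)

/-- The outcome of a computation: the points visited (in order), the numbers computed, and the
number of elementary steps (arithmetic operations, comparisons and moves). -/
structure Outcome (n : ℕ) : Type where
  visited : List (Fin n → ℝ)
  numbers : List ℝ
  steps : ℕ

/-- `T.run x res` executes the tree `T` on input `x`, if `res` lists the results computed so far.
It fails (value `none`) at a division by zero. -/
noncomputable def PivotTree.run {κ : Type} {n : ℕ} (x : κ → ℝ) :
    PivotTree κ n → List ℝ → Option (Outcome n)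
  | .stop, res => some ⟨[], res, 0⟩
  | .arith o u v t, res =>
    if o = Op.div ∧ v.value x res = 0 then none
    else (t.run x (res ++ [o.eval (u.value x res) (v.value x res)])).map fun r =>
      ⟨r.visited, r.numbers, r.steps + 1⟩
  | .compare u v tl te tg, res =>
    (if u.value x res < v.value x res then tl.run x res
      else if u.value x res = v.value x res then te.run x res else tg.run x res).map fun r =>
      ⟨r.visited, r.numbers, r.steps + 1⟩
  | .move p t, res =>
    (t.run x res).map fun r =>
      ⟨(fun i => (p i).value x res) :: r.visited, r.numbers, r.steps + 1⟩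

/-! ### Inputs -/

/-- The indices of the input numbers: entries of `A`, of `b`, of `c` and of the initial vertex. -/
abbrev Idx (m n : ℕ) : Type := (Fin m × Fin n) ⊕ (Fin m ⊕ (Fin n ⊕ Fin n))

/-- The input consisting of the linear program `(A, b, c)` and the initial vertex `v`. -/
def inp {R : Type} {m n : ℕ} (A : Fin m → Fin n → R) (b : Fin m → R) (c v : Fin n → R) :
    Idx m n → R
  | .inl p => A p.1 p.2
  | .inr (.inl i) => b i
  | .inr (.inr (.inl j)) => c j
  | .inr (.inr (.inr j)) => v j

/-- The binary encoding length of a rational number. -/
def bitLength (q : ℚ) : ℕ := 1 + Nat.size q.num.natAbs + Nat.size q.den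

/-- The total binary encoding length of a rational input. -/
def inputLength {m n : ℕ} (x : Idx m n → ℚ) : ℕ := ∑ k, bitLength (x k)

/-! ### Sign queries (internal) -/

/-- The `m + n` constraints. -/
abbrev Row (m n : ℕ) : Type := Fin m ⊕ Fin n

section Generic

variable {R : Type} [CommRing R] {m n : ℕ}

/-- coefficients of a constraint -/
def row (x : Idx m n → R) : Row m n → Fin n → R
  | .inl i => fun j => x (.inl (i, j))
  | .inr l => fun j => if l = j then -1 else 0

/-- right-hand side (`none`), or a unit right-hand side (`some r`) -/
def rhs (x : Idx m n → R) : Option (Row m n) → Row m n → R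
  | none, .inl i => x (.inr (.inl i))
  | none, .inr _ => 0
  | some r, r' => if r = r' then 1 else 0

/-- the objective function -/
def cst (x : Idx m n → R) (j : Fin n) : R := x (.inr (.inr (.inl j)))

/-- the initial vertex -/
def vtx (x : Idx m n → R) (j : Fin n) : R := x (.inr (.inr (.inr j)))

/-- rows and the objective function -/
def orow (x : Idx m n → R) : Option (Row m n) → Fin n → R
  | none => cst x
  | some r => row x r

/-- minors of the rows and the objective function -/
def dd (x : Idx m n → R) (β : Fin n → Option (Row m n)) : R :=
  (Matrix.of fun i => orow x (β i)).det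

/-- Cramer numerators of the basic solution -/
def xx (x : Idx m n → R) (k : Option (Row m n)) (β : Fin n → Row m n) (l : Fin n) : R :=
  ((Matrix.of fun i => row x (β i)).updateCol l (fun i => rhs x k (β i))).det

/-- The sign queries. -/
inductive Qr (m n : ℕ) : Type
  | det (β : Fin n → Option (Row m n))
  | slack (k : Option (Row m n)) (β : Fin n → Row m n) (j : Row m n)
  | val (k : Option (Row m n)) (β γ : Fin n → Row m n)
  | tight (j : Row m n)
  deriving DecidableEq

/-- The value of a query. -/
def qval (x : Idx m n → R) : Qr m n → R
  | .det β => dd x β
  | .slack k β j => rhs x k j * dd x (fun i => some (β i)) - ∑ l, row x j l * xx x k β l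
  | .val k β γ => (∑ l, cst x l * xx x k β l) * dd x (fun i => some (γ i)) -
      (∑ l, cst x l * xx x k γ l) * dd x (fun i => some (β i))
  | .tight j => rhs x none j - ∑ l, row x j l * vtx x l

end Generic

/-- The queries as a sum type. -/
def qrEquiv (m n : ℕ) : Qr m n ≃ (Fin n → Option (Row m n)) ⊕
    ((Option (Row m n) × (Fin n → Row m n) × Row m n) ⊕
    ((Option (Row m n) × (Fin n → Row m n) × (Fin n → Row m n)) ⊕ Row m n)) where
  toFun
    | .det β => .inl β
    | .slack k β j => .inr (.inl (k, β, j))
    | .val k β γ => .inr (.inr (.inl (k, β, γ)))
    | .tight j => .inr (.inr (.inr j))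
  invFun
    | .inl β => .det β
    | .inr (.inl p) => .slack p.1 p.2.1 p.2.2
    | .inr (.inr (.inl p)) => .val p.1 p.2.1 p.2.2
    | .inr (.inr (.inr j)) => .tight j
  left_inv q := by cases q <;> rfl
  right_inv q := by
    rcases q with β | p | p | j <;> rfl

instance (m n : ℕ) : Fintype (Qr m n) := Fintype.ofEquiv _ (qrEquiv m n).symm

end Pool.Agent.H24R2
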