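import Mathlib

set_option autoImplicit false

/-!
# The halving argument for sign queries

`QT Q Y` is the type of ternary decision trees whose nodes ask for the sign of a query `q : Q`.
`exists_tree`: if every locally realizable assignment of signs has a small certificate for some
answer, and only few sign patterns are realizable, then there is a shallow decision tree.
(Version for relations of the library of helper558.)
-/

namespace Pool.Agent.H24R2

/-- Decision trees whose inner nodes ask for the sign of one query. -/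
inductive QT (Q Y : Type) : Type
  | leaf (b : Y) : QT Q Y
  | node (q : Q) (neg zero pos : QT Q Y) : QT Q Y

namespace QT

variable {Q Y : Type}

/-- The answer of a query tree on a sign pattern. -/
def eval : QT Q Y → (Q → SignType) → Y
  | leaf b, _ => b
  | node q tn tz tp, σ =>
    match σ q with
    | SignType.neg => tn.eval σ
    | SignType.zero => tz.eval σ
    | SignType.pos => tp.eval σ

/-- The depth of a query tree. -/
def depth : QT Q Y → ℕ
  | leaf _ => 0
  | node _ tn tz tp => 1 + max (max tn.depth tz.depth) tp.depth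

/-- build a node from a function on signs -/
def mk (q : Q) (f : SignType → QT Q Y) : QT Q Y :=
  node q (f SignType.neg) (f SignType.zero) (f SignType.pos)

lemma eval_mk (q : Q) (f : SignType → QT Q Y) (σ : Q → SignType) :
    (mk q f).eval σ = (f (σ q)).eval σ := by
  unfold mk
  rw [eval]
  cases h : σ q <;> rfl

lemma depth_mk_le (q : Q) (f : SignType → QT Q Y) (d : ℕ) (h : ∀ t, (f t).depth ≤ d) :
    (mk q f).depth ≤ d + 1 := by
  unfold mk
  rw [depth]
  have h1 := h SignType.neg
  have h2 := h SignType.zero
  have h3 := h SignType.pos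
  have := max_le (max_le h1 h2) h3
  omega

end QT

section Halving

variable {Q Y : Type} [DecidableEq Q] [Fintype Q] [Nonempty Y] {α : Type*}

/-- `σ` agrees, on every set of at most `s` queries, with the sign pattern of a genuine input. -/
def LocReal (χ : α → Q → SignType) (s : ℕ) (σ : Q → SignType) : Prop :=
  ∀ D : Finset Q, D.card ≤ s → ∃ a : α, ∀ q ∈ D, χ a q = σ q

/-- Query a list of queries and leave at the first surprise. -/
lemma exists_list_tree (χ : α → Q → SignType) (F : α → Y → Prop) (Z : Finset (Q → SignType))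
    (σ : Q → SignType) (ans : Y) (d : ℕ) (l : List Q)
    (hl : ∀ q ∈ l, ∃ T : QT Q Y, T.depth ≤ d ∧ ∀ a, χ a ∈ Z → χ a q ≠ σ q → F a (T.eval (χ a))) :
    ∃ T : QT Q Y, T.depth ≤ l.length + d ∧
      ∀ a, χ a ∈ Z → ((∀ q ∈ l, χ a q = σ q) → F a ans) → F a (T.eval (χ a)) := by
  induction l with
  | nil =>
    refine ⟨QT.leaf ans, by simp [QT.depth], ?_⟩
    intro a _ h
    exact h (by simp)
  | cons q l ih =>
    obtain ⟨T1, hT1, hT1'⟩ := ih (fun q' hq' => hl q' (by simp [hq']))
    obtain ⟨T2, hT2, hT2'⟩ := hl q (by simp)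
    refine ⟨QT.mk q (fun t => if t = σ q then T1 else T2), ?_, ?_⟩
    · have := QT.depth_mk_le q (fun t => if t = σ q then T1 else T2) (l.length + d) (by
        intro t
        split_ifs
        · exact hT1
        · omega)
      simp only [List.length_cons]
      omega
    · intro a ha h
      rw [QT.eval_mk]
      by_cases hq : χ a q = σ q
      · rw [if_pos hq]
        apply hT1' a ha
        intro h'
        apply h
        intro q' hq'
        rcases List.mem_cons.1 hq' with rfl | hq'
        · exact hq
        · exact h' q' hq'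
      · rw [if_neg hq]
        exact hT2' a ha hq

/-- **The halving argument.** -/
theorem exists_tree_aux (χ : α → Q → SignType) (F : α → Y → Prop) (s : ℕ) (hs : 2 ≤ s)
    (H : ∀ σ : Q → SignType, LocReal χ s σ → ∃ D : Finset Q, D.card ≤ s ∧
      ∃ ans : Y, ∀ a, (∀ q ∈ D, χ a q = σ q) → F a ans) (k : ℕ) :
    ∀ Z : Finset (Q → SignType), (∀ ρ ∈ Z, ∃ a, χ a = ρ) → Z.card * (s - 1) ^ k < s ^ k →
      ∃ T : QT Q Y, T.depth ≤ s * k ∧ ∀ a, χ a ∈ Z → F a (T.eval (χ a)) := by
  induction k with
  | zero =>
    intro Z _ hZ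
    have : Z = ∅ := by
      rw [← Finset.card_eq_zero]
      simpa using hZ
    subst this
    exact ⟨QT.leaf (Classical.arbitrary Y), by simp [QT.depth], by simp⟩
  | succ k ih =>
    intro Z hZr hZ
    by_cases hZe : Z = ∅
    · subst hZe
      exact ⟨QT.leaf (Classical.arbitrary Y), by simp [QT.depth], by simp⟩
    have hZpos : 0 < Z.card := Finset.card_pos.2 (Finset.nonempty_iff_ne_empty.2 hZe)
    by_cases hq : ∃ q, ∀ t : SignType, s * (Z.filter (fun ρ => ρ q = t)).card ≤ (s - 1) * Z.card
    · obtain ⟨q, hq⟩ := hq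
      have key : ∀ t : SignType, ∃ T : QT Q Y, T.depth ≤ s * k ∧
          ∀ a, χ a ∈ Z.filter (fun ρ => ρ q = t) → F a (T.eval (χ a)) := by
        intro t
        apply ih
        · intro ρ hρ
          exact hZr ρ (Finset.mem_filter.1 hρ).1
        · have h1 := hq t
          have h2 : s * ((Z.filter (fun ρ => ρ q = t)).card * (s - 1) ^ k) < s * s ^ k := by
            calc s * ((Z.filter (fun ρ => ρ q = t)).card * (s - 1) ^ k)
                = (s * (Z.filter (fun ρ => ρ q = t)).card) * (s - 1) ^ k := by ring
              _ ≤ ((s - 1) * Z.card) * (s - 1) ^ k := Nat.mul_le_mul_right _ h1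
              _ = Z.card * (s - 1) ^ (k + 1) := by ring
              _ < s ^ (k + 1) := hZ
              _ = s * s ^ k := by ring
          exact Nat.lt_of_mul_lt_mul_left h2
      choose f hf hf' using key
      refine ⟨QT.mk q f, ?_, ?_⟩
      · have := QT.depth_mk_le q f (s * k) hf
        have h3 : s * (k + 1) = s * k + s := by ring
        omega
      · intro a ha
        rw [QT.eval_mk]
        exact hf' _ a (Finset.mem_filter.2 ⟨ha, rfl⟩)
    · push Not at hq
      choose σ hσ using hq
      have hσ' : ∀ q, s * (Z.filter (fun ρ => ρ q ≠ σ q)).card < Z.card := by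
        intro q
        have h1 := Finset.card_filter_add_card_filter_not (s := Z) (fun ρ => ρ q = σ q)
        have h2 := hσ q
        have h3 : s * Z.card = s * (Z.filter (fun ρ => ρ q = σ q)).card +
            s * (Z.filter (fun ρ => ¬ ρ q = σ q)).card := by
          rw [← mul_add, h1]
        have h4 : s * Z.card = (s - 1) * Z.card + Z.card := by
          obtain ⟨s', rfl⟩ : ∃ s', s = s' + 1 := ⟨s - 1, by omega⟩
          simp only [Nat.add_sub_cancel]
          ring
        have h5 : (Z.filter (fun ρ => ρ q ≠ σ q)).card = (Z.filter (fun ρ => ¬ ρ q = σ q)).card :=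
          rfl
        rw [h5]
        omega
      have hloc : LocReal χ s σ := by
        intro D hD
        have hex : ∃ ρ ∈ Z, ∀ q ∈ D, ρ q = σ q := by
          by_contra hcon
          push Not at hcon
          have hsub : Z ⊆ D.biUnion (fun q => Z.filter (fun ρ => ρ q ≠ σ q)) := by
            intro ρ hρ
            obtain ⟨q, hq1, hq2⟩ := hcon ρ hρ
            exact Finset.mem_biUnion.2 ⟨q, hq1, Finset.mem_filter.2 ⟨hρ, hq2⟩⟩
          have h1 : Z.card ≤ ∑ q ∈ D, (Z.filter (fun ρ => ρ q ≠ σ q)).card :=
            (Finset.card_le_card hsub).trans Finset.card_biUnion_le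
          rcases D.eq_empty_or_nonempty with hD0 | hD0
          · subst hD0
            simp at h1
            exact hZe h1
          · have h2 : s * ∑ q ∈ D, (Z.filter (fun ρ => ρ q ≠ σ q)).card < D.card * Z.card := by
              rw [Finset.mul_sum]
              calc ∑ q ∈ D, s * (Z.filter (fun ρ => ρ q ≠ σ q)).card
                  < ∑ _q ∈ D, Z.card := Finset.sum_lt_sum_of_nonempty hD0 (fun q _ => hσ' q)
                _ = D.card * Z.card := by simp
            have h3 : D.card * Z.card ≤ s * Z.card := Nat.mul_le_mul_right _ hD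
            have h4 : s * Z.card ≤ s * ∑ q ∈ D, (Z.filter (fun ρ => ρ q ≠ σ q)).card :=
              Nat.mul_le_mul_left _ h1
            omega
        obtain ⟨ρ, hρ, hρ'⟩ := hex
        obtain ⟨a, ha⟩ := hZr ρ hρ
        exact ⟨a, fun q hq => by rw [ha]; exact hρ' q hq⟩
      obtain ⟨D, hD, ans, hans⟩ := H σ hloc
      have hsub : ∀ q ∈ D.toList, ∃ T : QT Q Y, T.depth ≤ s * k ∧
          ∀ a, χ a ∈ Z → χ a q ≠ σ q → F a (T.eval (χ a)) := by
        intro q _
        obtain ⟨T, hT, hT'⟩ := ih (Z.filter (fun ρ => ρ q ≠ σ q))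
          (fun ρ hρ => hZr ρ (Finset.mem_filter.1 hρ).1) (by
            have h1 := hσ' q
            have h2 : s * ((Z.filter (fun ρ => ρ q ≠ σ q)).card * (s - 1) ^ k) < s * s ^ k := by
              calc s * ((Z.filter (fun ρ => ρ q ≠ σ q)).card * (s - 1) ^ k)
                  = (s * (Z.filter (fun ρ => ρ q ≠ σ q)).card) * (s - 1) ^ k := by ring
                _ ≤ Z.card * (s - 1) ^ k := Nat.mul_le_mul_right _ h1.le
                _ ≤ Z.card * (s - 1) ^ (k + 1) := by
                    apply Nat.mul_le_mul_left
                    exact Nat.pow_le_pow_right (by omega) (by omega)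
                _ < s ^ (k + 1) := hZ
                _ = s * s ^ k := by ring
            exact Nat.lt_of_mul_lt_mul_left h2)
        exact ⟨T, hT, fun a ha hne => hT' a (Finset.mem_filter.2 ⟨ha, hne⟩)⟩
      obtain ⟨T, hT, hT'⟩ := exists_list_tree χ F Z σ ans (s * k) D.toList hsub
      refine ⟨T, ?_, ?_⟩
      · rw [Finset.length_toList] at hT
        have h3 : s * (k + 1) = s * k + s := by ring
        omega
      · intro a ha
        apply hT' a ha
        intro h
        apply hans
        intro q hq
        exact h q (by simpa using hq)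

lemma two_mul_pred_pow_le (s : ℕ) (hs : 1 ≤ s) : 2 * (s - 1) ^ s ≤ s ^ s := by
  obtain ⟨t, rfl⟩ : ∃ t, s = t + 1 := ⟨s - 1, by omega⟩
  simp only [Nat.add_sub_cancel]
  have h := one_add_mul_le_pow (a := (1 : ℝ) / t) (by
    have : (0 : ℝ) ≤ 1 / t := by positivity
    linarith) (t + 1)
  rcases Nat.eq_zero_or_pos t with rfl | ht
  · simp
  · have ht' : (0 : ℝ) < t := by exact_mod_cast ht
    have h1 : (2 : ℝ) ≤ (1 + 1 / t) ^ (t + 1) := by
      refine le_trans ?_ h
      push_cast
      have : (t + 1 : ℝ) * (1 / t) = 1 + 1 / t := by field_simp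
      rw [this]
      have : (0 : ℝ) ≤ 1 / t := by positivity
      linarith
    have h2 : (2 : ℝ) * t ^ (t + 1) ≤ (t + 1) ^ (t + 1) := by
      have h3 : ((t : ℝ) + 1) ^ (t + 1) = (1 + 1 / t) ^ (t + 1) * t ^ (t + 1) := by
        rw [← mul_pow]
        congr 1
        field_simp
      rw [h3]
      exact mul_le_mul_of_nonneg_right h1 (by positivity)
    exact_mod_cast h2

/-- **Halving theorem.** If every `s`-locally realizable sign assignment has a certificate with at
most `s` queries, and at most `2 ^ P` sign patterns are realizable, then `F` is decided by a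
decision tree with at most `s * (s * (P + 1))` sign queries. -/
theorem exists_tree (χ : α → Q → SignType) (F : α → Y → Prop) (s : ℕ) (hs : 2 ≤ s)
    (H : ∀ σ : Q → SignType, LocReal χ s σ → ∃ D : Finset Q, D.card ≤ s ∧
      ∃ ans : Y, ∀ a, (∀ q ∈ D, χ a q = σ q) → F a ans)
    (P : ℕ) (hP : (Set.range χ).ncard ≤ 2 ^ P) :
    ∃ T : QT Q Y, T.depth ≤ s * (s * (P + 1)) ∧ ∀ a, F a (T.eval (χ a)) := by
  classical
  have hfin : (Set.range χ).Finite := Set.toFinite _
  obtain ⟨T, hT, hT'⟩ := exists_tree_aux χ F s hs H (s * (P + 1)) hfin.toFinset (by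
    intro ρ hρ
    simpa using hρ) (by
    rw [← Set.ncard_eq_toFinset_card _ hfin]
    have h1 : (2 : ℕ) ^ (P + 1) * (s - 1) ^ (s * (P + 1)) ≤ s ^ (s * (P + 1)) := by
      rw [pow_mul, pow_mul, ← mul_pow]
      exact Nat.pow_le_pow_left (two_mul_pred_pow_le s (by omega)) _
    have h2 : 0 < (s - 1) ^ (s * (P + 1)) := Nat.pow_pos (by omega)
    calc (Set.range χ).ncard * (s - 1) ^ (s * (P + 1))
        ≤ 2 ^ P * (s - 1) ^ (s * (P + 1)) := Nat.mul_le_mul_right _ hP
      _ < 2 ^ (P + 1) * (s - 1) ^ (s * (P + 1)) := by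
          apply Nat.mul_lt_mul_of_pos_right _ h2
          rw [pow_succ]
          have : 0 < 2 ^ P := by positivity
          omega
      _ ≤ _ := h1)
  exact ⟨T, hT, fun a => hT' a (by simp)⟩

end Halving

end Pool.Agent.H24R2
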