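import Mathlib

set_option autoImplicit false

/-!
# Short monotone paths in locally consistent linear programs

The argument of Kalai and Kleitman, for combinatorial data which satisfy finitely many local
axioms.
-/

namespace Pool.Agent.H24R2

open Function Finset

variable {ι : Type} {n : ℕ}

/-- Combinatorial data of a linear program: nondegenerate bases, signs of slacks, of the
multipliers, of the coordinates with respect to a basis, and the comparison of values. -/
structure Sys (ι : Type) (n : ℕ) where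
  nd : (Fin n → ι) → Prop
  sl : (Fin n → ι) → ι → SignType
  mu : (Fin n → ι) → Fin n → SignType
  lam : (Fin n → ι) → Fin n → ι → SignType
  le : (Fin n → ι) → (Fin n → ι) → Prop

variable [DecidableEq ι]

/-- The local axioms. -/
structure Sys.Ax (S : Sys ι n) : Prop where
  lam_ne : ∀ β, S.nd β → ∀ i l, l ≠ i → S.lam β i (β l) = 0
  pivot_nd : ∀ β i j, S.nd β → S.lam β i j = -1 → S.nd (update β i j)
  keep : ∀ β i j k, S.nd β → S.sl β j ≠ -1 → S.lam β i j = -1 → S.sl β k ≠ -1 →
    S.lam β i k ≠ -1 → S.sl (update β i j) k ≠ -1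
  tot : ∀ β i j k, S.nd β → S.lam β i j = -1 → S.lam β i k = -1 →
    S.sl (update β i j) k ≠ -1 ∨ S.sl (update β i k) j ≠ -1
  trans : ∀ β i j k l, S.nd β → S.lam β i j = -1 → S.lam β i k = -1 → S.lam β i l = -1 →
    S.sl (update β i j) k ≠ -1 → S.sl (update β i k) l ≠ -1 → S.sl (update β i j) l ≠ -1
  anti : ∀ β i j k, S.nd β → S.lam β i j = -1 → S.lam β i k = -1 →
    S.sl (update β i j) k ≠ -1 → S.sl (update β i k) j ≠ -1 → j = k
  inc : ∀ β i j, S.nd β → S.sl β j ≠ -1 → S.mu β i = -1 → S.lam β i j = -1 →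
    ¬ S.le (update β i j) β
  dual : ∀ β γ, S.nd β → S.nd γ → (∀ i, S.mu β i ≠ -1 ∨ ∃ l, γ l = β i) →
    (∀ i, S.sl γ (β i) ≠ -1) → S.le γ β
  le_trans : ∀ α β γ, S.nd α → S.nd β → S.nd γ → S.le α β → S.le β γ → S.le α γ
  le_total : ∀ α β, S.nd α → S.nd β → S.le α β ∨ S.le β α

/-- feasible bases -/
def Feas (S : Sys ι n) (G : Finset ι) (β : Fin n → ι) : Prop :=
  S.nd β ∧ ∀ j ∈ G, S.sl β j ≠ -1

/-- Pivoting paths of a given length in the face `F`, with the constraints `F ∪ G`. -/
inductive Path (S : Sys ι n) (F G : Finset ι) : ℕ → (Fin n → ι) → (Fin n → ι) → Prop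
  | refl (β : Fin n → ι) : Path S F G 0 β β
  | cons {t : ℕ} {β γ : Fin n → ι} (i : Fin n) (j : ι) (hi : β i ∉ F) (hj : j ∈ G)
      (hmu : S.mu β i = -1) (hlam : S.lam β i j = -1) (hf : Feas S (F ∪ G) (update β i j))
      (h : Path S F G t (update β i j) γ) : Path S F G (t + 1) β γ

/-- Optimal bases and bases with an unbounded improving edge. -/
def Term (S : Sys ι n) (F G : Finset ι) (β : Fin n → ι) : Prop :=
  (∀ i, β i ∉ F → S.mu β i ≠ -1) ∨
    ∃ i, β i ∉ F ∧ S.mu β i = -1 ∧ ∀ j ∈ F ∪ G, S.lam β i j ≠ -1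

/-- `β` is a feasible basis of the face `F`. -/
structure Good (S : Sys ι n) (F G : Finset ι) (β : Fin n → ι) : Prop where
  feas : Feas S (F ∪ G) β
  sub : ∀ l ∈ F, ∃ i, β i = l
  mem : ∀ i, β i ∈ F ∪ G

lemma exists_least {α : Type*} (r : α → α → Prop) (J : Finset α) (hJ : J.Nonempty)
    (htot : ∀ j ∈ J, ∀ k ∈ J, r j k ∨ r k j)
    (htr : ∀ j ∈ J, ∀ k ∈ J, ∀ l ∈ J, r j k → r k l → r j l) : ∃ j ∈ J, ∀ k ∈ J, r j k := by
  classical
  induction J using Finset.induction_on with
  | empty => exact absurd hJ (by simp)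
  | insert a J ha ih =>
    rcases J.eq_empty_or_nonempty with rfl | hne
    · refine ⟨a, by simp, ?_⟩
      intro k hk
      have : k = a := by simpa using hk
      subst this
      exact (htot k (by simp) k (by simp)).elim id id
    · obtain ⟨j, hj, hjm⟩ := ih hne
        (fun j hj k hk => htot j (mem_insert_of_mem hj) k (mem_insert_of_mem hk))
        (fun j hj k hk l hl => htr j (mem_insert_of_mem hj) k (mem_insert_of_mem hk) l
          (mem_insert_of_mem hl))
      rcases htot a (mem_insert_self a J) j (mem_insert_of_mem hj) with h | h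
      · refine ⟨a, mem_insert_self a J, ?_⟩
        intro k hk
        rcases mem_insert.1 hk with rfl | hk
        · exact (htot k (by simp) k (by simp)).elim id id
        · exact htr a (by simp) j (mem_insert_of_mem hj) k (mem_insert_of_mem hk) h (hjm k hk)
      · refine ⟨j, mem_insert_of_mem hj, ?_⟩
        intro k hk
        rcases mem_insert.1 hk with rfl | hk
        · exact h
        · exact hjm k hk

variable {S : Sys ι n}

lemma Feas.mono {G G' : Finset ι} {β : Fin n → ι} (h : Feas S G β) (hG : G' ⊆ G) :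
    Feas S G' β :=
  ⟨h.1, fun j hj => h.2 j (hG hj)⟩

/-- The ratio test. -/
lemma exists_pivot (hS : S.Ax) {G : Finset ι} {β : Fin n → ι} (hf : Feas S G β) (i : Fin n)
    (hex : ∃ j ∈ G, S.lam β i j = -1) :
    ∃ j ∈ G, S.lam β i j = -1 ∧ Feas S G (update β i j) := by
  classical
  set J := G.filter (fun j => S.lam β i j = -1) with hJ
  have hmem : ∀ j, j ∈ J ↔ j ∈ G ∧ S.lam β i j = -1 := fun j => by rw [hJ, mem_filter]
  have hne : J.Nonempty := by
    obtain ⟨j, hj, hj'⟩ := hex
    exact ⟨j, (hmem j).2 ⟨hj, hj'⟩⟩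
  obtain ⟨j, hj, hmin⟩ := exists_least (fun j k => S.sl (update β i j) k ≠ -1) J hne
    (fun j hj k hk => hS.tot β i j k hf.1 ((hmem j).1 hj).2 ((hmem k).1 hk).2)
    (fun j hj k hk l hl h1 h2 => hS.trans β i j k l hf.1 ((hmem j).1 hj).2 ((hmem k).1 hk).2
      ((hmem l).1 hl).2 h1 h2)
  obtain ⟨hjG, hjl⟩ := (hmem j).1 hj
  refine ⟨j, hjG, hjl, hS.pivot_nd β i j hf.1 hjl, ?_⟩
  intro k hk
  by_cases hkl : S.lam β i k = -1
  · exact hmin k ((hmem k).2 ⟨hk, hkl⟩)
  · exact hS.keep β i j k hf.1 (hf.2 j hjG) hjl (hf.2 k hk) hkl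

lemma notMem_of_lam (hS : S.Ax) {F G : Finset ι} {β : Fin n → ι} (hg : Good S F G β) {i : Fin n}
    (hi : β i ∉ F) {j : ι} (hj : S.lam β i j = -1) : j ∉ F := by
  intro hjF
  obtain ⟨l, rfl⟩ := hg.sub j hjF
  have hli : l ≠ i := by
    rintro rfl
    exact hi hjF
  rw [hS.lam_ne β hg.feas.1 i l hli] at hj
  exact absurd hj (by decide)

lemma Good.pivot {F G : Finset ι} {β : Fin n → ι} (hg : Good S F G β) {i : Fin n}
    (hi : β i ∉ F) {j : ι} (hj : j ∈ F ∪ G) (hf : Feas S (F ∪ G) (update β i j)) :
    Good S F G (update β i j) := by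
  refine ⟨hf, ?_, ?_⟩
  · intro l hl
    obtain ⟨k, rfl⟩ := hg.sub l hl
    have hki : k ≠ i := by
      rintro rfl
      exact hi hl
    exact ⟨k, update_of_ne hki _ _⟩
  · intro k
    by_cases hki : k = i
    · subst hki
      rw [update_self]
      exact hj
    · rw [update_of_ne hki]
      exact hg.mem k

lemma Path.good {F G : Finset ι} {t : ℕ} {β γ : Fin n → ι} (h : Path S F G t β γ)
    (hg : Good S F G β) : Good S F G γ := by
  induction h with
  | refl β => exact hg
  | cons i j hi hj hmu hlam hf h ih =>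
    exact ih (hg.pivot hi (mem_union_right _ hj) hf)

lemma Path.trans {F G : Finset ι} {t s : ℕ} {β γ δ : Fin n → ι} (h : Path S F G t β γ)
    (h' : Path S F G s γ δ) : Path S F G (t + s) β δ := by
  induction h with
  | refl β => simpa using h'
  | cons i j hi hj hmu hlam hf h ih =>
    have e : ∀ t : ℕ, t + 1 + s = (t + s) + 1 := fun t => by omega
    rw [e]
    exact Path.cons i j hi hj hmu hlam hf (ih h')

/-- Paths in a facet are paths. -/
lemma Path.of_insert {F G : Finset ι} {j₀ : ι} (hj₀ : j₀ ∈ G) {t : ℕ} {β γ : Fin n → ι}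
    (h : Path S (insert j₀ F) G t β γ) : Path S F G t β γ := by
  have e : insert j₀ F ∪ G = F ∪ G := by
    ext x
    simp only [mem_union, mem_insert]
    constructor
    · rintro ((rfl | h) | h)
      · exact Or.inr hj₀
      · exact Or.inl h
      · exact Or.inr h
    · rintro (h | h)
      · exact Or.inl (Or.inr h)
      · exact Or.inr h
  induction h with
  | refl β => exact Path.refl β
  | cons i j hi hj hmu hlam hf h ih =>
    refine Path.cons i j (fun h' => hi (mem_insert_of_mem h')) hj hmu hlam ?_ ih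
    rwa [e] at hf

/-- A path of a relaxed linear program is a path of the linear program if all pivots of the latter
use constraints of the former. -/
lemma transfer (hS : S.Ax) {F G G' : Finset ι} (hG : G' ⊆ G) (Φ : ℕ → (Fin n → ι) → Prop)
    (L : ℕ)
    (hΦ : ∀ t β, t ≤ L → Φ t β → Good S F G β → ∀ i j, β i ∉ F → j ∈ G → S.mu β i = -1 →
      S.lam β i j = -1 → Feas S (F ∪ G) (update β i j) → j ∈ G' ∧ Φ (t + 1) (update β i j))
    {l : ℕ} {β γ : Fin n → ι} (h : Path S F G' l β γ) :
    ∀ t, t + l ≤ L → Φ t β → Good S F G β → Term S F G' γ →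
      Path S F G l β γ ∧ Term S F G γ := by
  classical
  induction h with
  | refl β =>
    intro t ht hΦt hg hT
    refine ⟨Path.refl β, ?_⟩
    rcases hT with hT | ⟨i, hi, hmu, hl⟩
    · exact Or.inl hT
    · right
      refine ⟨i, hi, hmu, ?_⟩
      by_contra hcon
      push Not at hcon
      obtain ⟨j, hj, hjl, hjf⟩ := exists_pivot hS hg.feas i hcon
      have hjF := notMem_of_lam hS hg hi hjl
      have hjG : j ∈ G := (mem_union.1 hj).resolve_left hjF
      obtain ⟨h1, -⟩ := hΦ t β (by omega) hΦt hg i j hi hjG hmu hjl hjf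
      exact hl j (mem_union_right _ h1) hjl
  | cons i j hi hj hmu hlam hf h ih =>
    rename_i l β γ
    intro t ht hΦt hg hT
    obtain ⟨k, hk, hkl, hkf⟩ := exists_pivot hS hg.feas i ⟨j, mem_union_right _ (hG hj), hlam⟩
    have hkF := notMem_of_lam hS hg hi hkl
    have hkG : k ∈ G := (mem_union.1 hk).resolve_left hkF
    obtain ⟨h1, h2⟩ := hΦ t β (by omega) hΦt hg i k hi hkG hmu hkl hkf
    have hjk : j = k := by
      apply hS.anti β i j k hg.feas.1 hlam hkl
      · exact hf.2 k (mem_union_right _ h1)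
      · exact hkf.2 j (mem_union_right _ (hG hj))
    subst hjk
    obtain ⟨h3, h4⟩ := ih (t + 1) (by omega) h2 (hg.pivot hi hk hkf) hT
    exact ⟨Path.cons i j hi (hG hj) hmu hlam hkf h3, h4⟩

lemma numeric (d k : ℕ) : 2 * (2 * (d + 1) + 1) ^ k + (2 * d + 1) ^ (k + 1) ≤
    (2 * (d + 1) + 1) ^ (k + 1) := by
  have h : (2 * d + 1) ^ k ≤ (2 * (d + 1) + 1) ^ k := Nat.pow_le_pow_left (by omega) k
  calc 2 * (2 * (d + 1) + 1) ^ k + (2 * d + 1) ^ (k + 1)
      = 2 * (2 * (d + 1) + 1) ^ k + (2 * d + 1) ^ k * (2 * d + 1) := by rw [pow_succ]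
    _ ≤ 2 * (2 * (d + 1) + 1) ^ k + (2 * (d + 1) + 1) ^ k * (2 * d + 1) := by gcongr
    _ = (2 * (d + 1) + 1) ^ (k + 1) := by ring

/-- **Short monotone paths.** -/
theorem exists_path (hS : S.Ax) : ∀ (k d : ℕ) (F G : Finset ι) (β : Fin n → ι),
    F.card + d = n → (G \ F).card < 2 ^ k → Good S F G β →
    ∃ t γ, t + 1 ≤ (2 * d + 1) ^ k ∧ Path S F G t β γ ∧ Term S F G γ := by
  classical
  -- a face whose basis is contained in `F` is a vertex
  have htriv : ∀ (k d : ℕ) (F G : Finset ι) (β : Fin n → ι), (∀ i, β i ∈ F) →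
      ∃ t γ, t + 1 ≤ (2 * d + 1) ^ k ∧ Path S F G t β γ ∧ Term S F G γ := by
    intro k d F G β h
    refine ⟨0, β, ?_, Path.refl β, Or.inl fun i hi => absurd (h i) hi⟩
    have : 1 ≤ (2 * d + 1) ^ k := Nat.one_le_pow _ _ (by omega)
    omega
  intro k
  induction k with
  | zero =>
    intro d F G β _ hG hg
    have h0 : G \ F = ∅ := by
      rw [← card_eq_zero]
      simpa using hG
    apply htriv
    intro i
    rcases mem_union.1 (hg.mem i) with h | h
    · exact h
    · by_contra hF
      have : β i ∈ G \ F := mem_sdiff.2 ⟨h, hF⟩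
      rw [h0] at this
      simp at this
  | succ k ihk =>
    intro d
    induction d with
    | zero =>
      intro F G β hF _ hg
      apply htriv
      -- `F` has `n` elements, all in the range of `β`
      have h1 : F ⊆ univ.image β := by
        intro l hl
        obtain ⟨i, rfl⟩ := hg.sub l hl
        exact mem_image_of_mem _ (mem_univ i)
      have h2 : (univ.image β).card ≤ F.card := by
        refine card_image_le.trans ?_
        rw [card_univ, Fintype.card_fin]
        omega
      have h3 := eq_of_subset_of_card_le h1 h2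
      intro i
      rw [h3]
      exact mem_image_of_mem _ (mem_univ i)
    | succ d ihd =>
      intro F G β hF hG hg
      set Hk := (2 * (d + 1) + 1) ^ k with hHk
      have hnum := numeric d k
      rw [← hHk] at hnum
      have hHk1 : 1 ≤ Hk := Nat.one_le_pow _ _ (by omega)
      by_cases hterm : ∃ t γ, t + 1 ≤ Hk ∧ Path S F G t β γ ∧ Term S F G γ
      · obtain ⟨t, γ, ht, hp, hT⟩ := hterm
        exact ⟨t, γ, by omega, hp, hT⟩
      -- the constraints reachable by short paths
      set R := (G \ F).filter (fun j => ∃ t γ, t ≤ Hk ∧ Path S F G t β γ ∧ ∃ i, γ i = j) with hR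
      have hRmem : ∀ j, j ∈ R ↔ (j ∈ G ∧ j ∉ F) ∧ ∃ t γ, t ≤ Hk ∧ Path S F G t β γ ∧
          ∃ i, γ i = j := by
        intro j
        rw [hR, mem_filter, mem_sdiff]
      have hRG : R ⊆ G := fun j hj => ((hRmem j).1 hj).1.1
      have hRcard : 2 ^ k ≤ R.card := by
        by_contra hlt
        push Not at hlt
        have hgR : Good S F R β := by
          refine ⟨hg.feas.mono (union_subset_union_right hRG), hg.sub, ?_⟩
          intro i
          by_cases hi : β i ∈ F
          · exact mem_union_left _ hi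
          · apply mem_union_right
            rw [hRmem]
            exact ⟨⟨(mem_union.1 (hg.mem i)).resolve_left hi, hi⟩, 0, β, Nat.zero_le _,
              Path.refl β, i, rfl⟩
        obtain ⟨l, γ, hl, hp, hT⟩ := ihk (d + 1) F R β hF
          (lt_of_le_of_lt (card_le_card sdiff_subset) hlt) hgR
        obtain ⟨h1, h2⟩ := transfer hS hRG (fun t γ => Path S F G t β γ) (Hk - 1) (by
          intro t δ ht hΦ hgd i j hi hj hmu hlam hfeas
          have hpath : Path S F G (t + 1) β (update δ i j) :=
            Path.trans hΦ (Path.cons i j hi hj hmu hlam hfeas (Path.refl _))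
          refine ⟨?_, hpath⟩
          rw [hRmem]
          exact ⟨⟨hj, notMem_of_lam hS hgd hi hlam⟩, t + 1, _, by omega, hpath, i,
            update_self _ _ _⟩) hp 0 (by omega) (Path.refl β) hg hT
        exact hterm ⟨l, γ, hl, h1, h2⟩
      -- the tops of the reachable facets
      have hcase : ∀ j ∈ R, ∃ t γ, t + 1 ≤ Hk + (2 * d + 1) ^ (k + 1) ∧ Path S F G t β γ ∧
          Good S F G γ ∧ (∃ i, γ i = j) ∧
          (Term S F G γ ∨ ∀ i, γ i ∉ insert j F → S.mu γ i ≠ -1) := by
        intro j hj
        obtain ⟨⟨hjG, hjF⟩, t, δ, ht, hp, i₀, hi₀⟩ := (hRmem j).1 hj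
        have hgd := hp.good hg
        have e : insert j F ∪ G = F ∪ G := by
          ext x
          simp only [mem_union, mem_insert]
          constructor
          · rintro ((rfl | h) | h)
            · exact Or.inr hjG
            · exact Or.inl h
            · exact Or.inr h
          · rintro (h | h)
            · exact Or.inl (Or.inr h)
            · exact Or.inr h
        have hgd' : Good S (insert j F) G δ := by
          refine ⟨by rw [e]; exact hgd.feas, ?_, by rw [e]; exact hgd.mem⟩
          intro l hl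
          rcases mem_insert.1 hl with rfl | hl
          · exact ⟨i₀, hi₀⟩
          · exact hgd.sub l hl
        obtain ⟨s, γ, hs, hp', hT⟩ := ihd (insert j F) G δ (by
          rw [card_insert_of_notMem hjF]; omega) (by
          refine lt_of_le_of_lt (card_le_card ?_) hG
          intro x hx
          rw [mem_sdiff] at hx ⊢
          exact ⟨hx.1, fun h => hx.2 (mem_insert_of_mem h)⟩) hgd'
        have hgγ' := hp'.good hgd'
        have hp'' := hp'.of_insert hjG
        refine ⟨t + s, γ, by omega, hp.trans hp'', hp''.good hgd,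
          hgγ'.sub j (mem_insert_self _ _), ?_⟩
        rcases hT with hT | ⟨i, hi, hmu, hl⟩
        · exact Or.inr hT
        · left
          right
          rw [e] at hl
          exact ⟨i, fun h => hi (mem_insert_of_mem h), hmu, hl⟩
      choose! tt TT htt hTp hTg hTj hTT using hcase
      have hRne : R.Nonempty := by
        rw [← card_pos]
        exact lt_of_lt_of_le (Nat.pow_pos (by omega)) hRcard
      obtain ⟨j₀, hj₀, hmax⟩ := exists_least (fun j l => S.le (TT l) (TT j)) R hRne
        (fun j hj l hl => hS.le_total _ _ (hTg l hl).feas.1 (hTg j hj).feas.1)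
        (fun j hj l hl r hr h1 h2 => hS.le_trans _ _ _ (hTg r hr).feas.1 (hTg l hl).feas.1
          (hTg j hj).feas.1 h2 h1)
      by_cases hTT0 : Term S F G (TT j₀)
      · exact ⟨tt j₀, TT j₀, by have := htt j₀ hj₀; omega, hTp j₀ hj₀, hTT0⟩
      by_cases hany : ∃ j ∈ R, Term S F G (TT j)
      · obtain ⟨j, hj, hjT⟩ := hany
        exact ⟨tt j, TT j, by have := htt j hj; omega, hTp j hj, hjT⟩
      have hopt : ∀ j ∈ R, ∀ i, TT j i ∉ insert j F → S.mu (TT j) i ≠ -1 := by
        intro j hj
        rcases hTT j hj with h | h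
        · exact absurd ⟨j, hj, h⟩ hany
        · exact h
      set T := TT j₀ with hTdef
      have hTgood := hTg j₀ hj₀
      -- one pivot
      obtain ⟨i, hi, hmu, hex⟩ : ∃ i, T i ∉ F ∧ S.mu T i = -1 ∧ ∃ j ∈ F ∪ G, S.lam T i j = -1 := by
        unfold Term at hTT0
        push Not at hTT0
        obtain ⟨⟨i, hi, hmu⟩, h2⟩ := hTT0
        exact ⟨i, hi, hmu, h2 i hi hmu⟩
      obtain ⟨j', hj', hlam', hfeas'⟩ := exists_pivot hS hTgood.feas i hex
      have hj'F := notMem_of_lam hS hTgood hi hlam'
      have hj'G : j' ∈ G := (mem_union.1 hj').resolve_left hj'F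
      have hT'good := hTgood.pivot hi hj' hfeas'
      have hT'inc : ¬ S.le (update T i j') T :=
        hS.inc T i j' hTgood.feas.1 (hTgood.feas.2 j' hj') hmu hlam'
      -- the constraints active above `T`
      set G2 := (G \ F).filter (fun j => ∃ γ, Good S F G γ ∧ (∃ i, γ i = j) ∧ ¬ S.le γ T) with hG2
      have hG2mem : ∀ j, j ∈ G2 ↔ (j ∈ G ∧ j ∉ F) ∧ ∃ γ, Good S F G γ ∧ (∃ i, γ i = j) ∧
          ¬ S.le γ T := by
        intro j
        rw [hG2, mem_filter, mem_sdiff]
      have hG2G : G2 ⊆ G := fun j hj => ((hG2mem j).1 hj).1.1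
      have hdisj : Disjoint G2 R := by
        rw [disjoint_left]
        intro j hj2 hjR
        obtain ⟨-, γ, hγ, ⟨iγ, hiγ⟩, hle⟩ := (hG2mem j).1 hj2
        apply hle
        have h1 : S.le γ (TT j) := by
          apply hS.dual _ _ (hTg j hjR).feas.1 hγ.feas.1
          · intro l
            by_cases hl : TT j l ∈ insert j F
            · right
              rcases mem_insert.1 hl with h | h
              · exact ⟨iγ, by rw [hiγ, h]⟩
              · exact hγ.sub _ h
            · left
              exact hopt j hjR l hl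
          · intro l
            exact hγ.feas.2 _ ((hTg j hjR).mem l)
        exact hS.le_trans _ _ _ hγ.feas.1 (hTg j hjR).feas.1 hTgood.feas.1 h1 (hmax j hjR)
      have hG2card : G2.card < 2 ^ k := by
        have h1 : (G2 ∪ R).card = G2.card + R.card := card_union_of_disjoint hdisj
        have h2 : (G2 ∪ R).card ≤ (G \ F).card := by
          apply card_le_card
          apply union_subset
          · exact filter_subset _ _
          · exact filter_subset _ _
        have h3 : 2 ^ (k + 1) = 2 * 2 ^ k := by ring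
        omega
      have hg2 : Good S F G2 (update T i j') := by
        refine ⟨hT'good.feas.mono (union_subset_union_right hG2G), hT'good.sub, ?_⟩
        intro l
        by_cases hl : update T i j' l ∈ F
        · exact mem_union_left _ hl
        · apply mem_union_right
          rw [hG2mem]
          exact ⟨⟨(mem_union.1 (hT'good.mem l)).resolve_left hl, hl⟩, _, hT'good, ⟨l, rfl⟩,
            hT'inc⟩
      obtain ⟨s, γ, hs, hp, hT⟩ := ihk (d + 1) F G2 (update T i j') hF
        (lt_of_le_of_lt (card_le_card sdiff_subset) hG2card) hg2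
      obtain ⟨h1, h2⟩ := transfer hS hG2G (fun _ δ => ¬ S.le δ T) s (by
        intro t δ _ hΦ hgd l j hl hj hmuj hlamj hfeasj
        have hgj := hgd.pivot hl (mem_union_right _ hj) hfeasj
        have hinc := hS.inc δ l j hgd.feas.1 (hgd.feas.2 j (mem_union_right _ hj)) hmuj hlamj
        have hnle : ¬ S.le (update δ l j) T := by
          intro hle
          apply hinc
          rcases hS.le_total T δ hTgood.feas.1 hgd.feas.1 with h | h
          · exact hS.le_trans _ _ _ hgj.feas.1 hTgood.feas.1 hgd.feas.1 hle h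
          · exact absurd h hΦ
        refine ⟨?_, hnle⟩
        rw [hG2mem]
        exact ⟨⟨hj, notMem_of_lam hS hgd hl hlamj⟩, _, hgj, ⟨l, update_self _ _ _⟩, hnle⟩)
        hp 0 (by omega) hT'inc hT'good hT
      refine ⟨tt j₀ + (s + 1), γ, ?_, ?_, h2⟩
      · have := htt j₀ hj₀
        omega
      · exact (hTp j₀ hj₀).trans (Path.cons i j' hi hj'G hmu hlam' hfeas' h1)

end Pool.Agent.H24R2
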