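import Pool.Agent.H24R2.Pert

set_option autoImplicit false

/-!
# Locally realizable sign patterns satisfy the local axioms
-/

namespace Pool.Agent.H24R2

open Matrix Function

variable {m n : ℕ}

/-- The combinatorial data defined by a sign assignment and an initial basis. -/
noncomputable def sysOf (σ : Qr m n → SignType) (β₀ : Fin n → Row m n) : Sys (Row m n) n where
  nd β := σ (.det fun i => some (β i)) ≠ 0
  sl β j := σ (.det fun i => some (β i)) * lexs ((keys β₀).map fun k => σ (.slack k β j))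
  mu β i := σ (.det fun i => some (β i)) * σ (.det (update (fun i => some (β i)) i none))
  lam β i j := σ (.det fun i => some (β i)) * σ (.det (update (fun i => some (β i)) i (some j)))
  le β γ := σ (.det fun i => some (β i)) * σ (.det fun i => some (γ i)) *
    lexs ((keys β₀).map fun k => σ (.val k β γ)) ≠ 1

open Classical in
/-- All queries about a set of bases. -/
noncomputable def Qall (𝔅 : Finset (Fin n → Row m n)) : Finset (Qr m n) :=
  (𝔅.image fun β => Qr.det fun i => some (β i)) ∪
  ((𝔅 ×ˢ Finset.univ).image fun p : (Fin n → Row m n) × Fin n =>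
    Qr.det (update (fun i => some (p.1 i)) p.2 none)) ∪
  ((𝔅 ×ˢ Finset.univ).image fun p : (Fin n → Row m n) × (Fin n × Row m n) =>
    Qr.det (update (fun i => some (p.1 i)) p.2.1 (some p.2.2))) ∪
  ((𝔅 ×ˢ Finset.univ).image fun p : (Fin n → Row m n) × (Option (Row m n) × Row m n) =>
    Qr.slack p.2.1 p.1 p.2.2) ∪
  (((𝔅 ×ˢ 𝔅) ×ˢ Finset.univ).image
    fun p : ((Fin n → Row m n) × (Fin n → Row m n)) × Option (Row m n) =>
    Qr.val p.2 p.1.1 p.1.2)

/-- The number of queries about one basis. -/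
def qc (m n : ℕ) : ℕ := 2 * (m + n + 1) ^ 2

lemma card_Qall (𝔅 : Finset (Fin n → Row m n)) (b : ℕ) (hb : 𝔅.card ≤ b) (hb1 : 1 ≤ b) :
    (Qall 𝔅).card ≤ b ^ 2 * (2 * qc m n) := by
  classical
  unfold Qall
  set N := m + n with hN
  have hrow : Fintype.card (Row m n) = N := by simp [hN]
  have h1 : (𝔅.image fun β => Qr.det fun i => some (β i)).card ≤ b :=
    Finset.card_image_le.trans hb
  have h2 : ((𝔅 ×ˢ Finset.univ).image fun p : (Fin n → Row m n) × Fin n =>
      Qr.det (update (fun i => some (p.1 i)) p.2 none)).card ≤ b * N := by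
    refine Finset.card_image_le.trans ?_
    rw [Finset.card_product, Finset.card_univ, Fintype.card_fin]
    exact Nat.mul_le_mul hb (by omega)
  have h3 : ((𝔅 ×ˢ Finset.univ).image fun p : (Fin n → Row m n) × (Fin n × Row m n) =>
      Qr.det (update (fun i => some (p.1 i)) p.2.1 (some p.2.2))).card ≤ b * (N * N) := by
    refine Finset.card_image_le.trans ?_
    rw [Finset.card_product, Finset.card_univ, Fintype.card_prod, Fintype.card_fin, hrow]
    exact Nat.mul_le_mul hb (Nat.mul_le_mul_right _ (by omega))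
  have h4 : ((𝔅 ×ˢ Finset.univ).image
      fun p : (Fin n → Row m n) × (Option (Row m n) × Row m n) =>
      Qr.slack p.2.1 p.1 p.2.2).card ≤ b * ((N + 1) * N) := by
    refine Finset.card_image_le.trans ?_
    rw [Finset.card_product, Finset.card_univ, Fintype.card_prod, Fintype.card_option, hrow]
    exact Nat.mul_le_mul_right _ hb
  have h5 : (((𝔅 ×ˢ 𝔅) ×ˢ Finset.univ).image
      fun p : ((Fin n → Row m n) × (Fin n → Row m n)) × Option (Row m n) =>
      Qr.val p.2 p.1.1 p.1.2).card ≤ b * b * (N + 1) := by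
    refine Finset.card_image_le.trans ?_
    rw [Finset.card_product, Finset.card_product, Finset.card_univ, Fintype.card_option, hrow]
    exact Nat.mul_le_mul_right _ (Nat.mul_le_mul hb hb)
  have hbb : b ≤ b ^ 2 := by nlinarith
  have key : b + b * N + b * (N * N) + b * ((N + 1) * N) + b * b * (N + 1) ≤
      b ^ 2 * (2 * qc m n) := by
    unfold qc
    rw [← hN]
    have e : b + b * N + b * (N * N) + b * ((N + 1) * N) = b * (1 + N + N * N + (N + 1) * N) := by
      ring
    rw [e]
    calc b * (1 + N + N * N + (N + 1) * N) + b * b * (N + 1)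
        ≤ b ^ 2 * (1 + N + N * N + (N + 1) * N) + b ^ 2 * (N + 1) := by
          apply Nat.add_le_add
          · exact Nat.mul_le_mul_right _ hbb
          · rw [pow_two]
      _ = b ^ 2 * (1 + N + N * N + (N + 1) * N + (N + 1)) := by ring
      _ ≤ b ^ 2 * (2 * (2 * (N + 1) ^ 2)) := by
          apply Nat.mul_le_mul_left
          nlinarith
  refine le_trans ?_ key
  refine (Finset.card_union_le _ _).trans (Nat.add_le_add ?_ h5)
  refine (Finset.card_union_le _ _).trans (Nat.add_le_add ?_ h4)
  refine (Finset.card_union_le _ _).trans (Nat.add_le_add ?_ h3)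
  exact (Finset.card_union_le _ _).trans (Nat.add_le_add h1 h2)

section Mem

variable {𝔅 : Finset (Fin n → Row m n)} {β γ : Fin n → Row m n}

lemma mem_Qall_det (hβ : β ∈ 𝔅) : (Qr.det fun i => some (β i)) ∈ Qall 𝔅 := by
  classical
  unfold Qall
  simp only [Finset.mem_union]
  left; left; left; left
  exact Finset.mem_image.2 ⟨β, hβ, rfl⟩

lemma mem_Qall_mu (hβ : β ∈ 𝔅) (i : Fin n) :
    Qr.det (update (fun i => some (β i)) i none) ∈ Qall 𝔅 := by
  classical
  unfold Qall
  simp only [Finset.mem_union]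
  left; left; left; right
  exact Finset.mem_image.2 ⟨(β, i), by simp [hβ], rfl⟩

lemma mem_Qall_lam (hβ : β ∈ 𝔅) (i : Fin n) (j : Row m n) :
    Qr.det (update (fun i => some (β i)) i (some j)) ∈ Qall 𝔅 := by
  classical
  unfold Qall
  simp only [Finset.mem_union]
  left; left; right
  exact Finset.mem_image.2 ⟨(β, (i, j)), by simp [hβ], rfl⟩

lemma mem_Qall_slack (hβ : β ∈ 𝔅) (k : Option (Row m n)) (j : Row m n) :
    Qr.slack k β j ∈ Qall 𝔅 := by
  classical
  unfold Qall
  simp only [Finset.mem_union]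
  left; right
  exact Finset.mem_image.2 ⟨(β, (k, j)), by simp [hβ], rfl⟩

lemma mem_Qall_val (hβ : β ∈ 𝔅) (hγ : γ ∈ 𝔅) (k : Option (Row m n)) :
    Qr.val k β γ ∈ Qall 𝔅 := by
  classical
  unfold Qall
  simp only [Finset.mem_union]
  right
  exact Finset.mem_image.2 ⟨((β, γ), k), by simp [hβ, hγ], rfl⟩

lemma Qall_mono {𝔅' : Finset (Fin n → Row m n)} (h : 𝔅 ⊆ 𝔅') : Qall 𝔅 ⊆ Qall 𝔅' := by
  classical
  unfold Qall
  gcongr

end Mem

/-! ### Reading real data from signs -/

section Read

variable {σ : Qr m n → SignType} {β₀ : Fin n → Row m n} {x : Idx m n → ℝ}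
  {𝔅 : Finset (Fin n → Row m n)} {β γ : Fin n → Row m n}

lemma pat_det (x : Idx m n → ℝ) (β : Fin n → Row m n) :
    pat x (.det fun i => some (β i)) = SignType.sign (dt (row x) β) := rfl

lemma orow_update (x : Idx m n → ℝ) (β : Fin n → Row m n) (i : Fin n)
    (o : Option (Row m n)) :
    (Matrix.of fun k => orow x (update (fun i => some (β i)) i o k)) =
      (bm (row x) β).updateRow i (orow x o) := by
  ext k l
  by_cases hk : k = i
  · subst hk
    simp
  · simp [updateRow_ne hk, update_of_ne hk, bm, orow]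

lemma pat_update (x : Idx m n → ℝ) (β : Fin n → Row m n) (i : Fin n)
    (o : Option (Row m n)) :
    pat x (.det (update (fun i => some (β i)) i o)) =
      SignType.sign (((bm (row x) β).updateRow i (orow x o)).det) := by
  change SignType.sign ((Matrix.of fun k => orow x (update (fun i => some (β i)) i o k)).det) = _
  rw [orow_update]

lemma sign_div (a b : ℝ) : SignType.sign (a / b) = SignType.sign b * SignType.sign a := by
  rw [div_eq_mul_inv, sign_mul, mul_comm]
  congr 1
  rcases lt_trichotomy b 0 with h | h | h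
  · rw [sign_neg h, sign_neg (inv_lt_zero.2 h)]
  · rw [h, _root_.inv_zero]
  · rw [sign_pos h, sign_pos (inv_pos.2 h)]

variable (H : ∀ q ∈ Qall 𝔅, pat x q = σ q)

include H

lemma read_nd (hβ : β ∈ 𝔅) : (sysOf σ β₀).nd β ↔ dt (row x) β ≠ 0 := by
  change σ (.det fun i => some (β i)) ≠ 0 ↔ _
  rw [← H _ (mem_Qall_det hβ), pat_det, Ne, sign_eq_zero_iff]

lemma read_mu (hβ : β ∈ 𝔅) (i : Fin n) :
    (sysOf σ β₀).mu β i = SignType.sign (lm (row x) β i (cst x)) := by
  change σ _ * σ _ = _
  rw [← H _ (mem_Qall_det hβ), ← H _ (mem_Qall_mu hβ i), pat_det, pat_update]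
  unfold lm
  rw [sign_div]
  rfl

lemma read_lam (hβ : β ∈ 𝔅) (i : Fin n) (j : Row m n) :
    (sysOf σ β₀).lam β i j = SignType.sign (lm (row x) β i (row x j)) := by
  change σ _ * σ _ = _
  rw [← H _ (mem_Qall_det hβ), ← H _ (mem_Qall_lam hβ i j), pat_det, pat_update]
  unfold lm
  rw [sign_div]
  rfl

lemma read_sl {B : Row m n → ℝ}
    (hB : ∀ β j, SignType.sign (slackL (row x) β j B) =
        lexs ((keys β₀).map fun k => pat x (.slack k β j)))
    (hβ : β ∈ 𝔅) (h : dt (row x) β ≠ 0) (j : Row m n) :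
    (sysOf σ β₀).sl β j = SignType.sign (sk (row x) B β j) := by
  have e : (sysOf σ β₀).sl β j =
      σ (.det fun i => some (β i)) * lexs ((keys β₀).map fun k => σ (.slack k β j)) := rfl
  have e2 : (fun k => σ (.slack k β j)) = fun k => pat x (.slack k β j) := by
    ext1 k
    rw [H _ (mem_Qall_slack hβ k j)]
  rw [e, e2, ← hB β j, ← H _ (mem_Qall_det hβ), pat_det, slackL_eq h, ← sign_mul]
  have : dt (row x) β * (sk (row x) B β j * dt (row x) β) =
      (dt (row x) β * dt (row x) β) * sk (row x) B β j := by ring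
  rw [this, sign_mul, sign_pos (mul_self_pos.2 h), one_mul]

lemma read_le {B : Row m n → ℝ}
    (hB : ∀ β γ, SignType.sign (valL (row x) (cst x) β γ B) =
        lexs ((keys β₀).map fun k => pat x (.val k β γ)))
    (hβ : β ∈ 𝔅) (hγ : γ ∈ 𝔅) (h : dt (row x) β ≠ 0) (h' : dt (row x) γ ≠ 0) :
    (sysOf σ β₀).le β γ ↔ cst x ⬝ᵥ bpt (row x) B β ≤ cst x ⬝ᵥ bpt (row x) B γ := by
  have e : (sysOf σ β₀).le β γ ↔
      σ (.det fun i => some (β i)) * σ (.det fun i => some (γ i)) *
        lexs ((keys β₀).map fun k => σ (.val k β γ)) ≠ 1 := Iff.rfl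
  have e2 : (fun k => σ (.val k β γ)) = fun k => pat x (.val k β γ) := by
    ext1 k
    rw [H _ (mem_Qall_val hβ hγ k)]
  rw [e, e2, ← hB β γ, ← H _ (mem_Qall_det hβ), ← H _ (mem_Qall_det hγ), pat_det, pat_det,
    valL_eq h h', ← sign_mul, ← sign_mul]
  have : dt (row x) β * dt (row x) γ * ((cst x ⬝ᵥ bpt (row x) B β - cst x ⬝ᵥ bpt (row x) B γ) *
      (dt (row x) β * dt (row x) γ)) =
      ((dt (row x) β * dt (row x) γ) * (dt (row x) β * dt (row x) γ)) *
        (cst x ⬝ᵥ bpt (row x) B β - cst x ⬝ᵥ bpt (row x) B γ) := by ring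
  rw [this, sign_mul, sign_pos (mul_self_pos.2 (mul_ne_zero h h')), one_mul, Ne, sign_eq_one_iff]
  constructor
  · intro h1
    by_contra h2
    apply h1
    linarith
  · intro h1 h2
    linarith

end Read

lemma sign_ne_neg_one {r : ℝ} : SignType.sign r ≠ -1 ↔ 0 ≤ r := by
  rw [Ne, sign_eq_neg_one_iff, not_lt]

/-- Nondegeneracy. -/
lemma sk_ne_zero {x : Idx m n → ℝ} {β₀ β : Fin n → Row m n} {B : Row m n → ℝ}
    (hB : ∀ β j, SignType.sign (slackL (row x) β j B) =
        lexs ((keys β₀).map fun k => pat x (.slack k β j)))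
    (h₀ : dt (row x) β₀ ≠ 0) (h : dt (row x) β ≠ 0) (j : Row m n) (hj : ∀ i, β i ≠ j) :
    sk (row x) B β j ≠ 0 := by
  obtain ⟨r, hr, hr'⟩ := exists_unit_ne h₀ h j hj
  intro h0
  have h1 := hB β j
  rw [slackL_eq h, h0, zero_mul, sign_zero] at h1
  have h2 : lexs ((keys β₀).map fun k => pat x (.slack k β j)) ≠ 0 := by
    apply lexs_ne_zero
    refine ⟨pat x (.slack (some r) β j), ?_, ?_⟩
    · apply List.mem_map.2
      refine ⟨some r, ?_, rfl⟩
      unfold keys
      apply List.mem_cons_of_mem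
      apply List.mem_map.2
      refine ⟨r, ?_, rfl⟩
      simpa [freeRows] using hr
    · unfold pat
      rw [qval_slack, Ne, sign_eq_zero_iff]
      exact hr'
  exact h2 h1.symm

/-- The admissible inputs: the initial point is a vertex. -/
def Adm (m n : ℕ) : Set (Idx m n → ℝ) :=
  {x | vtx x ∈ (poly (row x) (rhs x none)).extremePoints ℝ}

/-- The queries about tight constraints. -/
noncomputable def Qtight (m n : ℕ) : Finset (Qr m n) := Finset.univ.image Qr.tight

lemma card_Qtight : (Qtight m n).card ≤ m + n := by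
  refine Finset.card_image_le.trans ?_
  simp

/-- The sign patterns of the admissible inputs. -/
noncomputable def patA (x : Adm m n) : Qr m n → SignType := pat x.1

section Axioms

variable {σ : Qr m n → SignType} {s : ℕ}
  (hs : 6 ^ 2 * (2 * qc m n) + (m + n) ≤ s) (hloc : LocReal (patA (m := m) (n := n)) s σ)

include hs hloc

/-- An admissible input with the prescribed signs for at most six bases. -/
lemma exists_real (𝔅 : Finset (Fin n → Row m n)) (h𝔅 : 𝔅.card ≤ 6) :
    ∃ x : Adm m n, (∀ q ∈ Qall 𝔅, pat x.1 q = σ q) ∧ ∀ j, pat x.1 (.tight j) = σ (.tight j) := by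
  classical
  obtain ⟨x, hx⟩ := hloc (Qall 𝔅 ∪ Qtight m n) (by
    refine (Finset.card_union_le _ _).trans (le_trans ?_ hs)
    exact Nat.add_le_add (card_Qall 𝔅 6 h𝔅 (by norm_num)) card_Qtight)
  refine ⟨x, fun q hq => hx q (Finset.mem_union_left _ hq), fun j => ?_⟩
  exact hx _ (Finset.mem_union_right _ (Finset.mem_image_of_mem _ (Finset.mem_univ j)))

/-- **The local axioms.** -/
theorem sysOf_ax {β₀ : Fin n → Row m n} (h₀ : σ (.det fun i => some (β₀ i)) ≠ 0) :
    (sysOf σ β₀).Ax := by
  classical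
  -- real data for a set of at most five bases
  have key : ∀ 𝔅 : Finset (Fin n → Row m n), 𝔅.card ≤ 5 → ∃ (x : Idx m n → ℝ) (B : Row m n → ℝ),
      (∀ β ∈ 𝔅, (sysOf σ β₀).nd β ↔ dt (row x) β ≠ 0) ∧
      (∀ β ∈ 𝔅, ∀ i, (sysOf σ β₀).mu β i = SignType.sign (lm (row x) β i (cst x))) ∧
      (∀ β ∈ 𝔅, ∀ i j, (sysOf σ β₀).lam β i j = SignType.sign (lm (row x) β i (row x j))) ∧
      (∀ β ∈ 𝔅, dt (row x) β ≠ 0 → ∀ j,
        (sysOf σ β₀).sl β j = SignType.sign (sk (row x) B β j)) ∧
      (∀ β ∈ 𝔅, ∀ γ ∈ 𝔅, dt (row x) β ≠ 0 → dt (row x) γ ≠ 0 → ((sysOf σ β₀).le β γ ↔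
        cst x ⬝ᵥ bpt (row x) B β ≤ cst x ⬝ᵥ bpt (row x) B γ)) ∧
      (∀ β ∈ 𝔅, dt (row x) β ≠ 0 → ∀ j, (∀ i, β i ≠ j) → sk (row x) B β j ≠ 0) := by
    intro 𝔅 h𝔅
    obtain ⟨x, hx, -⟩ := exists_real hs hloc (insert β₀ 𝔅)
      ((Finset.card_insert_le _ _).trans (by omega))
    obtain ⟨B, hB1, hB2, -, -⟩ := exists_pert x.1 β₀
    have hm : ∀ β ∈ 𝔅, β ∈ insert β₀ 𝔅 := fun β hβ => Finset.mem_insert_of_mem hβ
    have h₀' : dt (row x.1) β₀ ≠ 0 :=
      (read_nd (β₀ := β₀) hx (Finset.mem_insert_self β₀ 𝔅)).1 h₀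
    refine ⟨x.1, B, fun β hβ => read_nd hx (hm β hβ), fun β hβ i => read_mu hx (hm β hβ) i,
      fun β hβ i j => read_lam hx (hm β hβ) i j, fun β hβ h j => read_sl hx hB1 (hm β hβ) h j,
      fun β hβ γ hγ h h' => read_le hx hB2 (hm β hβ) (hm γ hγ) h h',
      fun β hβ h j hj => sk_ne_zero hB1 h₀' h j hj⟩
  -- bases after a pivot
  have hpiv : ∀ (β : Fin n → Row m n) (i : Fin n) (j : Row m n),
      (sysOf σ β₀).lam β i j = -1 → (sysOf σ β₀).nd (update β i j) := by
    intro β i j h
    have e : (fun k => some (update β i j k)) = update (fun k => some (β k)) i (some j) := by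
      ext1 k
      by_cases hk : k = i
      · subst hk; simp
      · simp [update_of_ne hk]
    change σ (.det fun k => some (update β i j k)) ≠ 0
    rw [e]
    have h1 : σ (.det fun i => some (β i)) *
      σ (.det (update (fun i => some (β i)) i (some j))) = -1 := h
    intro h2
    rw [h2, mul_zero] at h1
    exact absurd h1 (by decide)
  refine ⟨?_, fun β i j _ h => hpiv β i j h, ?_, ?_, ?_, ?_, ?_, ?_, ?_, ?_⟩
  · -- lam_ne
    intro β hβ i l hl
    obtain ⟨x, B, h1, h2, h3, h4, h5, h6⟩ := key {β} (by simp)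
    rw [h3 β (by simp), lm_ne i l hl, sign_zero]
  · -- keep
    intro β i j k hβ hj hlj hk hlk
    obtain ⟨x, B, h1, h2, h3, h4, h5, h6⟩ := key {β, update β i j}
      ((Finset.card_insert_le _ _).trans (by simp))
    have hd := (h1 β (by simp)).1 hβ
    have hd' := (h1 (update β i j) (by simp)).1 (hpiv β i j hlj)
    rw [h4 β (by simp) hd, sign_ne_neg_one] at hj hk
    rw [h3 β (by simp), sign_eq_neg_one_iff] at hlj
    rw [h3 β (by simp), sign_ne_neg_one] at hlk
    rw [h4 _ (by simp) hd', sign_ne_neg_one, sk_update hd i j k hlj.ne]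
    have : sk (row x) B β j * (lm (row x) β i (row x k) / lm (row x) β i (row x j)) ≤ 0 :=
      mul_nonpos_of_nonneg_of_nonpos hj (div_nonpos_of_nonneg_of_nonpos hlk hlj.le)
    linarith
  · -- tot
    intro β i j k hβ hlj hlk
    obtain ⟨x, B, h1, h2, h3, h4, h5, h6⟩ := key {β, update β i j, update β i k}
      ((Finset.card_insert_le _ _).trans (Nat.succ_le_succ
        ((Finset.card_insert_le _ _).trans (by simp))))
    have hd := (h1 β (by simp)).1 hβ
    have hdj := (h1 (update β i j) (by simp)).1 (hpiv β i j hlj)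
    have hdk := (h1 (update β i k) (by simp)).1 (hpiv β i k hlk)
    rw [h3 β (by simp), sign_eq_neg_one_iff] at hlj hlk
    rw [h4 _ (by simp) hdj, h4 _ (by simp) hdk, sign_ne_neg_one, sign_ne_neg_one,
      sk_update hd i j k hlj.ne, sk_update hd i k j hlk.ne]
    set a := sk (row x) B β j
    set b := sk (row x) B β k
    set p := lm (row x) β i (row x j)
    set q := lm (row x) β i (row x k)
    -- `b - a (q / p)` and `a - b (p / q)` have opposite signs
    have hp0 : p ≠ 0 := hlj.ne
    have hq0 : q ≠ 0 := hlk.ne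
    have e : a - b * (p / q) = -(p / q) * (b - a * (q / p)) := by
      field_simp
      ring
    have hpq : 0 < p / q := div_pos_of_neg_of_neg hlj hlk
    rcases le_total 0 (b - a * (q / p)) with h | h
    · exact Or.inl h
    · right
      rw [e]
      exact mul_nonneg_of_nonpos_of_nonpos (by linarith) h
  · -- trans
    intro β i j k l hβ hlj hlk hll hjk hkl
    obtain ⟨x, B, h1, h2, h3, h4, h5, h6⟩ := key {β, update β i j, update β i k}
      ((Finset.card_insert_le _ _).trans (Nat.succ_le_succ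
        ((Finset.card_insert_le _ _).trans (by simp))))
    have hd := (h1 β (by simp)).1 hβ
    have hdj := (h1 (update β i j) (by simp)).1 (hpiv β i j hlj)
    have hdk := (h1 (update β i k) (by simp)).1 (hpiv β i k hlk)
    rw [h3 β (by simp), sign_eq_neg_one_iff] at hlj hlk hll
    rw [h4 _ (by simp) hdj, sign_ne_neg_one, sk_update hd i j _ hlj.ne] at hjk
    rw [h4 _ (by simp) hdk, sign_ne_neg_one, sk_update hd i k _ hlk.ne] at hkl
    rw [h4 _ (by simp) hdj, sign_ne_neg_one, sk_update hd i j _ hlj.ne]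
    set a := sk (row x) B β j
    set b := sk (row x) B β k
    set c := sk (row x) B β l
    set p := lm (row x) β i (row x j)
    set q := lm (row x) β i (row x k)
    set r := lm (row x) β i (row x l)
    have hrq : 0 < r / q := div_pos_of_neg_of_neg hll hlk
    have h7 := mul_nonneg hrq.le hjk
    have hp0 : p ≠ 0 := hlj.ne
    have hq0 : q ≠ 0 := hlk.ne
    have e : r / q * (b - a * (q / p)) = b * (r / q) - a * (r / p) := by
      field_simp
    rw [e] at h7
    linarith
  · -- anti
    intro β i j k hβ hlj hlk hjk hkj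
    by_contra hne
    obtain ⟨x, B, h1, h2, h3, h4, h5, h6⟩ := key {β, update β i j, update β i k}
      ((Finset.card_insert_le _ _).trans (Nat.succ_le_succ
        ((Finset.card_insert_le _ _).trans (by simp))))
    have hd := (h1 β (by simp)).1 hβ
    have hdj := (h1 (update β i j) (by simp)).1 (hpiv β i j hlj)
    have hdk := (h1 (update β i k) (by simp)).1 (hpiv β i k hlk)
    rw [h3 β (by simp), sign_eq_neg_one_iff] at hlj hlk
    rw [h4 _ (by simp) hdj, sign_ne_neg_one, sk_update hd i j _ hlj.ne] at hjk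
    rw [h4 _ (by simp) hdk, sign_ne_neg_one, sk_update hd i k _ hlk.ne] at hkj
    have hnd := h6 (update β i j) (by simp) hdj k (by
      intro l
      by_cases hl : l = i
      · subst hl
        rw [update_self]
        exact hne
      · rw [update_of_ne hl]
        rintro rfl
        rw [lm_ne i l hl] at hlk
        exact lt_irrefl _ hlk)
    rw [sk_update hd i j _ hlj.ne] at hnd
    set a := sk (row x) B β j
    set b := sk (row x) B β k
    set p := lm (row x) β i (row x j)
    set q := lm (row x) β i (row x k)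
    have hp0 : p ≠ 0 := hlj.ne
    have hq0 : q ≠ 0 := hlk.ne
    have e : a - b * (p / q) = -(p / q) * (b - a * (q / p)) := by
      field_simp
      ring
    have hpq : 0 < p / q := div_pos_of_neg_of_neg hlj hlk
    have h7 : 0 < b - a * (q / p) := lt_of_le_of_ne hjk hnd.symm
    rw [e] at hkj
    nlinarith [mul_pos hpq h7]
  · -- inc
    intro β i j hβ hj hmu hlj hle
    obtain ⟨x, B, h1, h2, h3, h4, h5, h6⟩ := key {β, update β i j}
      ((Finset.card_insert_le _ _).trans (by simp))
    have hd := (h1 β (by simp)).1 hβ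
    have hd' := (h1 (update β i j) (by simp)).1 (hpiv β i j hlj)
    rw [h4 β (by simp) hd, sign_ne_neg_one] at hj
    rw [h3 β (by simp), sign_eq_neg_one_iff] at hlj
    rw [h2 β (by simp), sign_eq_neg_one_iff] at hmu
    rw [h5 _ (by simp) _ (by simp) hd' hd, obj_update hd _ i j hlj.ne] at hle
    have hnd := h6 β (by simp) hd j (by
      intro l
      rintro rfl
      by_cases hl : l = i
      · subst hl
        rw [lm_self hd] at hlj
        norm_num at hlj
      · rw [lm_ne i l hl] at hlj
        exact lt_irrefl _ hlj)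
    have h7 : 0 < sk (row x) B β j := lt_of_le_of_ne hj hnd.symm
    have h8 : 0 < lm (row x) β i (cst x) / lm (row x) β i (row x j) :=
      div_pos_of_neg_of_neg hmu hlj
    have := mul_pos h7 h8
    linarith
  · -- dual
    intro β γ hβ hγ hmu hsl
    obtain ⟨x, B, h1, h2, h3, h4, h5, h6⟩ := key {β, γ}
      ((Finset.card_insert_le _ _).trans (by simp))
    have hd := (h1 β (by simp)).1 hβ
    have hd' := (h1 γ (by simp)).1 hγ
    rw [h5 _ (by simp) _ (by simp) hd' hd]
    have h7 := dual_eq (B := B) hd (cst x) (bpt (row x) B γ)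
    have h8 : 0 ≤ ∑ i, lm (row x) β i (cst x) *
        (B (β i) - row x (β i) ⬝ᵥ bpt (row x) B γ) := by
      apply Finset.sum_nonneg
      intro i _
      rcases hmu i with h | ⟨l, hl⟩
      · rw [h2 β (by simp), sign_ne_neg_one] at h
        have h9 := hsl i
        rw [h4 γ (by simp) hd', sign_ne_neg_one] at h9
        exact mul_nonneg h h9
      · have h9 : B (β i) - row x (β i) ⬝ᵥ bpt (row x) B γ = 0 := by
          rw [← hl]
          exact sk_self hd' l
        rw [h9, mul_zero]
    linarith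
  · -- le_trans
    intro α β γ hα hβ hγ hab hbc
    obtain ⟨x, B, h1, h2, h3, h4, h5, h6⟩ := key {α, β, γ}
      ((Finset.card_insert_le _ _).trans (Nat.succ_le_succ
        ((Finset.card_insert_le _ _).trans (by simp))))
    have ha := (h1 α (by simp)).1 hα
    have hb := (h1 β (by simp)).1 hβ
    have hc := (h1 γ (by simp)).1 hγ
    rw [h5 _ (by simp) _ (by simp) ha hb] at hab
    rw [h5 _ (by simp) _ (by simp) hb hc] at hbc
    rw [h5 _ (by simp) _ (by simp) ha hc]
    exact hab.trans hbc
  · -- le_total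
    intro α β hα hβ
    obtain ⟨x, B, h1, h2, h3, h4, h5, h6⟩ := key {α, β}
      ((Finset.card_insert_le _ _).trans (by simp))
    have ha := (h1 α (by simp)).1 hα
    have hb := (h1 β (by simp)).1 hβ
    rw [h5 _ (by simp) _ (by simp) ha hb, h5 _ (by simp) _ (by simp) hb ha]
    exact le_total _ _

end Axioms

end Pool.Agent.H24R2
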