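import Pool.Agent.H24R2.Cert
import Pool.Agent.H24R2.Count

set_option autoImplicit false

/-!
# Shallow computation trees for the simplex method
-/

namespace Pool.Agent.H24R2

open Matrix

variable {m n : ℕ}

lemma Poly_eq (A : Fin m → Fin n → ℝ) (b : Fin m → ℝ) (c v : Fin n → ℝ) :
    Poly A b = poly (row (inp A b c v)) (rhs (inp A b c v) none) := by
  ext z
  constructor
  · rintro ⟨h1, h2⟩ (i | l)
    · exact h1 i
    · change ∑ j, (if l = j then (-1 : ℝ) else 0) * z j ≤ 0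
      simp only [ite_mul, neg_one_mul, zero_mul, Finset.sum_ite_eq, Finset.mem_univ, if_true]
      linarith [h2 l]
  · intro h
    refine ⟨fun i => h (Sum.inl i), fun l => ?_⟩
    have h1 := h (Sum.inr l)
    change ∑ j, (if l = j then (-1 : ℝ) else 0) * z j ≤ 0 at h1
    simp only [ite_mul, neg_one_mul, zero_mul, Finset.sum_ite_eq, Finset.mem_univ, if_true] at h1
    linarith

/-- Query trees for the simplex method. -/
theorem exists_queryTree (hm : 1 ≤ m) (hn : 1 ≤ n) :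
    ∃ T : QT (Qr m n) (List (Fin n → Row m n)),
      T.depth ≤ ss m n * (ss m n * (pexp m n + 1)) ∧
      ∀ x : Adm m n,
        SimplexRun (poly (row x.1) (rhs x.1 none)) (cst x.1) (vtx x.1)
          ((T.eval (pat x.1)).map (bpt (row x.1) (rhs x.1 none))) ∧
          (∀ δ ∈ T.eval (pat x.1), dt (row x.1) δ ≠ 0) ∧
          (T.eval (pat x.1)).length + 1 ≤ kk m n := by
  classical
  have hss : 2 ≤ ss m n := by
    unfold ss
    omega
  obtain ⟨T, h1, h2⟩ := exists_tree (Y := List (Fin n → Row m n)) (patA (m := m) (n := n))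
    (fun x y => SimplexRun (poly (row x.1) (rhs x.1 none)) (cst x.1) (vtx x.1)
          (y.map (bpt (row x.1) (rhs x.1 none))) ∧ (∀ δ ∈ y, dt (row x.1) δ ≠ 0) ∧
          y.length + 1 ≤ kk m n) (ss m n) hss
    (fun σ hσ => exists_certificate hm hn σ hσ) (pexp m n) (ncard_pat_le m n hn (Adm m n))
  exact ⟨T, h1, h2⟩

lemma numeric_steps (hm : 1 ≤ m) (hn : 1 ≤ n) :
    (ss m n * (ss m n * (pexp m n + 1)) + kk m n) * (100 * (n + 1) ^ 5) ≤
      (m + n) ^ (26 * (Nat.log 2 (m + n) + 1)) := by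
  set N := m + n with hN
  set k := Nat.log 2 N + 1 with hk
  have hN2 : 2 ≤ N := by omega
  have hk2 : 2 ≤ k := by
    have : 1 ≤ Nat.log 2 N := Nat.log_pos (by norm_num) hN2
    omega
  have hpow : ∀ j, 1 ≤ N ^ j := fun j => Nat.one_le_pow _ _ (by omega)
  have hkk : kk m n ≤ N ^ (2 * k) := by
    unfold kk
    rw [← hN, ← hk, pow_mul]
    apply Nat.pow_le_pow_left
    nlinarith
  have hqc : 2 * qc m n ≤ N ^ 6 := by
    unfold qc
    rw [← hN]
    have h1 : N + 1 ≤ N ^ 2 := by nlinarith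
    have h2 : (4 : ℕ) ≤ N ^ 2 := by nlinarith
    calc 2 * (2 * (N + 1) ^ 2) = 4 * (N + 1) ^ 2 := by ring
      _ ≤ N ^ 2 * (N ^ 2) ^ 2 := Nat.mul_le_mul h2 (Nat.pow_le_pow_left h1 2)
      _ = N ^ 6 := by ring
  have hss : ss m n ≤ N ^ (4 * k + 7) := by
    unfold ss
    rw [← hN]
    have h1 : kk m n ^ 2 ≤ N ^ (4 * k) := by
      calc kk m n ^ 2 ≤ (N ^ (2 * k)) ^ 2 := Nat.pow_le_pow_left hkk 2
        _ = N ^ (4 * k) := by rw [← pow_mul]; congr 1; ring
    have h2 : N ≤ N ^ (4 * k) * N ^ 6 := by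
      calc N = N ^ 1 := (pow_one N).symm
        _ ≤ N ^ (4 * k + 6) := Nat.pow_le_pow_right (by omega) (by omega)
        _ = N ^ (4 * k) * N ^ 6 := pow_add _ _ _
    calc kk m n ^ 2 * (2 * qc m n) + N ≤ N ^ (4 * k) * N ^ 6 + N ^ (4 * k) * N ^ 6 :=
          Nat.add_le_add (Nat.mul_le_mul h1 hqc) h2
      _ = 2 * (N ^ (4 * k) * N ^ 6) := by ring
      _ ≤ N * (N ^ (4 * k) * N ^ 6) := Nat.mul_le_mul_right _ hN2
      _ = N ^ (4 * k + 7) := by ring
  have hpexp : pexp m n + 1 ≤ N ^ 8 := by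
    unfold pexp
    rw [← hN]
    have h1 : N * (2 * n + 1) + n + 6 ≤ N ^ 4 := by
      have h2 : N * (2 * n + 1) + n + 6 ≤ 2 * N ^ 2 + N + 5 := by nlinarith
      have h3 : 2 * N ^ 2 + N + 5 ≤ 4 * N ^ 2 := by nlinarith
      have h4 : 4 * N ^ 2 ≤ N ^ 4 := by
        calc 4 * N ^ 2 ≤ N ^ 2 * N ^ 2 := Nat.mul_le_mul_right _ (by nlinarith)
          _ = N ^ 4 := by ring
      omega
    have h2 : m * n + m + 2 * n ≤ N ^ 3 := by
      have h3 : m * n + m + 2 * n ≤ 2 * N ^ 2 := by nlinarith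
      calc m * n + m + 2 * n ≤ 2 * N ^ 2 := h3
        _ ≤ N * N ^ 2 := Nat.mul_le_mul_right _ hN2
        _ = N ^ 3 := by ring
    calc (N * (2 * n + 1) + n + 6) * (m * n + m + 2 * n) + 1 ≤ N ^ 4 * N ^ 3 + N ^ 7 :=
          Nat.add_le_add (Nat.mul_le_mul h1 h2) (hpow 7)
      _ = 2 * N ^ 7 := by ring
      _ ≤ N * N ^ 7 := Nat.mul_le_mul_right _ hN2
      _ = N ^ 8 := by ring
  have hdepth : ss m n * (ss m n * (pexp m n + 1)) + kk m n ≤ N ^ (8 * k + 23) := by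
    calc ss m n * (ss m n * (pexp m n + 1)) + kk m n
        ≤ N ^ (4 * k + 7) * (N ^ (4 * k + 7) * N ^ 8) + N ^ (8 * k + 22) := by
          apply Nat.add_le_add
          · exact Nat.mul_le_mul hss (Nat.mul_le_mul hss hpexp)
          · exact hkk.trans (Nat.pow_le_pow_right (by omega) (by omega))
      _ = 2 * N ^ (8 * k + 22) := by ring
      _ ≤ N * N ^ (8 * k + 22) := Nat.mul_le_mul_right _ hN2
      _ = N ^ (8 * k + 23) := by ring
  have hcost : 100 * (n + 1) ^ 5 ≤ N ^ 12 := by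
    have h1 : 100 ≤ N ^ 7 := by
      calc 100 ≤ 2 ^ 7 := by norm_num
        _ ≤ N ^ 7 := Nat.pow_le_pow_left hN2 7
    calc 100 * (n + 1) ^ 5 ≤ N ^ 7 * N ^ 5 :=
          Nat.mul_le_mul h1 (Nat.pow_le_pow_left (by omega) 5)
      _ = N ^ 12 := by ring
  calc (ss m n * (ss m n * (pexp m n + 1)) + kk m n) * (100 * (n + 1) ^ 5)
      ≤ N ^ (8 * k + 23) * N ^ 12 := Nat.mul_le_mul hdepth hcost
    _ = N ^ (8 * k + 35) := by ring
    _ ≤ N ^ (26 * k) := Nat.pow_le_pow_right (by omega) (by omega)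

/-- **The non-uniform simplex method with quasi-polynomially many steps.** -/
theorem main (m n : ℕ) (hm : 1 ≤ m) (hn : 1 ≤ n) :
    ∃ T : PivotTree (Idx m n) n,
      ∀ (A : Fin m → Fin n → ℝ) (b : Fin m → ℝ) (c v : Fin n → ℝ),
        v ∈ (Poly A b).extremePoints ℝ →
        ∃ r : Outcome n, T.run (inp A b c v) [] = some r ∧
          SimplexRun (Poly A b) c v r.visited ∧
          r.visited.length ≤ (2 * n + 1) ^ (Nat.log 2 (m + n) + 1) ∧
          r.steps ≤ (m + n) ^ (26 * (Nat.log 2 (m + n) + 1)) ∧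
          ∀ X : Idx m n → ℚ, (∀ k, inp A b c v k = X k) → ∀ y ∈ r.numbers,
            ∃ q : ℚ, (q : ℝ) = y ∧ bitLength q ≤ 1000 * inputLength X ^ 2 := by
  obtain ⟨T, hT, hT'⟩ := exists_queryTree (m := m) (n := n) hm hn
  obtain ⟨T', h1⟩ := exists_pivotTree m n hn T
  refine ⟨T', ?_⟩
  intro A b c v hv
  set x : Idx m n → ℝ := inp A b c v with hx
  have hadm : x ∈ Adm m n := by
    change vtx x ∈ (poly (row x) (rhs x none)).extremePoints ℝ
    rw [hx, ← Poly_eq]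
    exact hv
  obtain ⟨h2, h3, h4⟩ := hT' ⟨x, hadm⟩
  obtain ⟨r, hr1, hr2, hr3, hr4⟩ := h1 x h3
  refine ⟨r, hr1, ?_, ?_, ?_, hr4⟩
  · rw [hr2, Poly_eq A b c v]
    exact h2
  · rw [hr2, List.length_map]
    have : (T.eval (pat x)).length + 1 ≤ kk m n := h4
    unfold kk at this
    omega
  · refine hr3.trans (le_trans ?_ (numeric_steps hm hn))
    apply Nat.mul_le_mul_right
    have : (T.eval (pat x)).length + 1 ≤ kk m n := h4
    omega

end Pool.Agent.H24R2
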