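import Pool.Agent.H24R2.Defs
import Pool.Agent.H24R2.Halve
import Pool.Agent.H558R2.FL

set_option autoImplicit false

/-!
# From query trees to algebraic computation trees

Straight-line programs, the evaluation of determinants by the Faddeev-LeVerrier algorithm with
small numbers, and their embedding in computation trees; adapted from the library of helper558
(`Pool/Agent/H558R2/{Slp,DetSlp,Final}.lean`).
-/

namespace Pool.Agent.H24R2

/-- the basic solution with basis `β` -/
noncomputable def pt {m n : ℕ} (x : Idx m n → ℝ) (β : Fin n → Row m n) : Fin n → ℝ :=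
  fun l => xx x none β l / dd x (fun i => some (β i))

/-- the sign pattern of an input -/
noncomputable def pat {m n : ℕ} (x : Idx m n → ℝ) (q : Qr m n) : SignType :=
  SignType.sign (qval x q)

namespace Tr

/-- Functions of the input. -/
abbrev Fn (κ : Type) : Type := (κ → ℝ) → ℝ

variable {κ : Type}

/-- A function is available if it is an input, a constant `0`, `1` or has been computed. -/
def Av (G : List (Fn κ)) (f : Fn κ) : Prop :=
  (∃ k, f = fun x => x k) ∨ (f = fun _ => 0) ∨ (f = fun _ => 1) ∨ f ∈ G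

lemma Av.operand {G : List (Fn κ)} {f : Fn κ} (h : Av G f) :
    ∃ u : Operand κ, ∀ x, u.value x (G.map fun g => g x) = f x := by
  rcases h with ⟨k, rfl⟩ | rfl | rfl | h
  · exact ⟨.input k, fun x => rfl⟩
  · exact ⟨.zero, fun x => rfl⟩
  · exact ⟨.one, fun x => rfl⟩
  · obtain ⟨j, hj, hj'⟩ := List.mem_iff_getElem.1 h
    refine ⟨.result j, fun x => ?_⟩
    simp [Operand.value, List.getElem?_map, List.getElem?_eq_getElem hj, hj']

/-- `Reach P dom G c G'`: starting with the computed functions `G`, after `c` arithmetic operations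
the computed functions are `G'`; all new functions satisfy `P`; no division by zero happens on
inputs in `dom`. -/
inductive Reach (P : Fn κ → Prop) (dom : Set (κ → ℝ)) : List (Fn κ) → ℕ → List (Fn κ) → Prop
  | refl (G : List (Fn κ)) : Reach P dom G 0 G
  | step {G G' : List (Fn κ)} {c : ℕ} (o : Op) (f g : Fn κ) : Reach P dom G c G' → Av G' f →
      Av G' g → (o = .div → ∀ x ∈ dom, g x ≠ 0) → P (fun x => o.eval (f x) (g x)) →
      Reach P dom G (c + 1) (G' ++ [fun x => o.eval (f x) (g x)])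

lemma Reach.trans {P : Fn κ → Prop} {dom : Set (κ → ℝ)} {G G' G'' : List (Fn κ)} {c c' : ℕ}
    (h : Reach P dom G c G') (h' : Reach P dom G' c' G'') : Reach P dom G (c + c') G'' := by
  induction h' with
  | refl => exact h
  | step o f g _ hf hg hd hP ih => exact Reach.step o f g ih hf hg hd hP

lemma Reach.dom_mono {P : Fn κ → Prop} {dom dom' : Set (κ → ℝ)} {G G' : List (Fn κ)} {c : ℕ}
    (h : Reach P dom G c G') (hd : dom' ⊆ dom) : Reach P dom' G c G' := by
  induction h with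
  | refl => exact Reach.refl _
  | step o f g _ hf hg hd' hP ih =>
    exact Reach.step o f g ih hf hg (fun ho x hx => hd' ho x (hd hx)) hP

lemma Reach.av {P : Fn κ → Prop} {dom : Set (κ → ℝ)} {G G' : List (Fn κ)} {c : ℕ}
    (h : Reach P dom G c G') {f : Fn κ} (hf : Av G f) : Av G' f := by
  induction h with
  | refl => exact hf
  | step o f g _ _ _ _ _ ih =>
    rcases ih with h | h | h | h
    · exact Or.inl h
    · exact Or.inr (Or.inl h)
    · exact Or.inr (Or.inr (Or.inl h))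
    · exact Or.inr (Or.inr (Or.inr (by simp [h])))

lemma Reach.all {P : Fn κ → Prop} {dom : Set (κ → ℝ)} {G G' : List (Fn κ)} {c : ℕ}
    (h : Reach P dom G c G') (hG : ∀ f ∈ G, P f) : ∀ f ∈ G', P f := by
  induction h with
  | refl => exact hG
  | step o f g _ _ _ _ hP ih =>
    intro f' hf'
    rcases List.mem_append.1 hf' with h | h
    · exact ih f' h
    · rw [List.mem_singleton.1 h]
      exact hP

/-- Straight-line code can be put in front of a tree. -/
lemma Reach.tree {n : ℕ} {P : Fn κ → Prop} {dom : Set (κ → ℝ)} {G G' : List (Fn κ)} {c : ℕ}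
    (h : Reach P dom G c G') (t : PivotTree κ n) :
    ∃ t' : PivotTree κ n, ∀ x ∈ dom, t'.run x (G.map fun g => g x) =
      (t.run x (G'.map fun g => g x)).map fun r => ⟨r.visited, r.numbers, r.steps + c⟩ := by
  induction h generalizing t with
  | refl =>
    exact ⟨t, fun x _ => by simp⟩
  | step o f g hr hf hg hd hP ih =>
    obtain ⟨u, hu⟩ := hf.operand
    obtain ⟨v, hv⟩ := hg.operand
    obtain ⟨t', ht'⟩ := ih (.arith o u v t)
    refine ⟨t', fun x hx => ?_⟩
    rw [ht' x hx, PivotTree.run, hu, hv]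
    have hne : ¬ (o = Op.div ∧ g x = 0) := fun h => hd h.1 x hx h.2
    simp only [hne, if_false, Option.map_map, List.map_append, List.map_cons, List.map_nil]
    congr 1
    ext1 r
    simp only [Function.comp]
    congr 1
    omega

/-- `Der P dom K c S`: whenever the functions in `K` are available, those in `S` can be made
available by at most `c` arithmetic operations. -/
def Der (P : Fn κ → Prop) (dom : Set (κ → ℝ)) (K : Set (Fn κ)) (c : ℕ) (S : Set (Fn κ)) : Prop :=
  ∀ G : List (Fn κ), (∀ f ∈ K, Av G f) →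
    ∃ G' c', c' ≤ c ∧ Reach P dom G c' G' ∧ ∀ f ∈ S, Av G' f

variable {P : Fn κ → Prop} {dom : Set (κ → ℝ)}

lemma Der.dom_mono {K S : Set (Fn κ)} {c : ℕ} {dom' : Set (κ → ℝ)} (h : Der P dom K c S)
    (hd : dom' ⊆ dom) : Der P dom' K c S := by
  intro G hG
  obtain ⟨G', d, hd', hr, hf⟩ := h G hG
  exact ⟨G', d, hd', hr.dom_mono hd, hf⟩

lemma Der.base {K : Set (Fn κ)} {S : Set (Fn κ)} (h : ∀ f ∈ S, ∀ G, (∀ g ∈ K, Av G g) → Av G f) :
    Der P dom K 0 S :=
  fun G hG => ⟨G, 0, le_rfl, Reach.refl G, fun f hf => h f hf G hG⟩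

lemma Der.mono {K K' : Set (Fn κ)} {c c' : ℕ} {S S' : Set (Fn κ)} (h : Der P dom K c S)
    (hK : K ⊆ K') (hc : c ≤ c') (hS : S' ⊆ S) : Der P dom K' c' S' := by
  intro G hG
  obtain ⟨G', d, hd, hr, hf⟩ := h G (fun f hf => hG f (hK hf))
  exact ⟨G', d, hd.trans hc, hr, fun f hf' => hf f (hS hf')⟩

lemma Der.trans {K : Set (Fn κ)} {c c' : ℕ} {S S' : Set (Fn κ)} (h : Der P dom K c S)
    (h' : Der P dom (K ∪ S) c' S') : Der P dom K (c + c') (S ∪ S') := by
  intro G hG
  obtain ⟨G1, d1, hd1, hr1, hf1⟩ := h G hG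
  obtain ⟨G2, d2, hd2, hr2, hf2⟩ := h' G1 (by
    rintro f (hf | hf)
    · exact hr1.av (hG f hf)
    · exact hf1 f hf)
  refine ⟨G2, d1 + d2, by omega, hr1.trans hr2, ?_⟩
  rintro f (hf | hf)
  · exact hr2.av (hf1 f hf)
  · exact hf2 f hf

lemma Der.op {K : Set (Fn κ)} (o : Op) (f g : Fn κ) (hf : ∀ G, (∀ g ∈ K, Av G g) → Av G f)
    (hg : ∀ G, (∀ g ∈ K, Av G g) → Av G g) (hd : o = .div → ∀ x ∈ dom, g x ≠ 0)
    (hP : P (fun x => o.eval (f x) (g x))) : Der P dom K 1 {fun x => o.eval (f x) (g x)} := by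
  intro G hG
  refine ⟨G ++ [fun x => o.eval (f x) (g x)], 1, le_rfl,
    Reach.step o f g (Reach.refl G) (hf G hG) (hg G hG) hd hP, ?_⟩
  intro f' hf'
  rw [Set.mem_singleton_iff.1 hf']
  exact Or.inr (Or.inr (Or.inr (by simp)))

lemma Der.iUnion {ι : Type*} (s : Finset ι) {K : Set (Fn κ)} {c : ℕ} {S : ι → Set (Fn κ)}
    (h : ∀ i ∈ s, Der P dom K c (S i)) : Der P dom K (s.card * c) (⋃ i ∈ s, S i) := by
  classical
  induction s using Finset.induction_on with
  | empty =>
    simp only [Finset.card_empty, zero_mul, Finset.notMem_empty, Set.iUnion_of_empty,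
      Set.iUnion_empty]
    exact Der.base (by simp)
  | insert a s ha ih =>
    have h1 := ih (fun i hi => h i (Finset.mem_insert_of_mem hi))
    have h2 := h a (Finset.mem_insert_self a s)
    have h3 := h1.trans (h2.mono Set.subset_union_left le_rfl subset_rfl)
    refine h3.mono subset_rfl ?_ ?_
    · rw [Finset.card_insert_of_notMem ha]
      ring_nf
      exact le_rfl
    · intro f hf
      simp only [Finset.mem_insert, Set.iUnion_iUnion_eq_or_left, Set.mem_union] at hf
      rcases hf with hf | hf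
      · exact Or.inr hf
      · exact Or.inl hf

/-- sums -/
lemma Der.sum {ι : Type*} (s : Finset ι) {K : Set (Fn κ)} (f : ι → Fn κ)
    (hf : ∀ i ∈ s, f i ∈ K) (hP : ∀ t ⊆ s, P (fun x => ∑ i ∈ t, f i x)) :
    Der P dom K s.card {fun x => ∑ i ∈ s, f i x} := by
  classical
  induction s using Finset.induction_on with
  | empty =>
    refine Der.base ?_
    intro g hg G _
    rw [Set.mem_singleton_iff.1 hg]
    right; left
    ext x; simp
  | insert a s ha ih =>
    have h1 := ih (fun i hi => hf i (Finset.mem_insert_of_mem hi))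
      (fun t ht => hP t (ht.trans (Finset.subset_insert a s)))
    have e : (fun x => ∑ i ∈ insert a s, f i x) =
        (fun x => Op.add.eval (f a x) (∑ i ∈ s, f i x)) := by
      ext x
      rw [Finset.sum_insert ha]
      rfl
    have h2 : Der P dom (K ∪ {fun x => ∑ i ∈ s, f i x}) 1 {fun x => ∑ i ∈ insert a s, f i x} := by
      rw [e]
      refine Der.op Op.add (f a) (fun x => ∑ i ∈ s, f i x) ?_ ?_ (by simp) ?_
      · intro G hG
        exact hG _ (Or.inl (hf a (Finset.mem_insert_self a s)))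
      · intro G hG
        exact hG _ (Or.inr rfl)
      · rw [← e]
        exact hP _ subset_rfl
    refine (h1.trans h2).mono subset_rfl ?_ Set.subset_union_right
    rw [Finset.card_insert_of_notMem ha]

/-- scalar products -/
lemma Der.dot {ι : Type*} (s : Finset ι) {K : Set (Fn κ)} (f g : ι → Fn κ)
    (hf : ∀ i ∈ s, ∀ G, (∀ h ∈ K, Av G h) → Av G (f i))
    (hg : ∀ i ∈ s, ∀ G, (∀ h ∈ K, Av G h) → Av G (g i))
    (hP1 : ∀ i ∈ s, P (fun x => f i x * g i x))
    (hP : ∀ t ⊆ s, P (fun x => ∑ i ∈ t, f i x * g i x)) :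
    Der P dom K (2 * s.card) {fun x => ∑ i ∈ s, f i x * g i x} := by
  have h1 : Der P dom K (s.card * 1) (⋃ i ∈ s, {fun x => f i x * g i x}) := by
    apply Der.iUnion
    intro i hi
    exact Der.op Op.mul (f i) (g i) (hf i hi) (hg i hi) (by simp) (hP1 i hi)
  have h2 : Der P dom (K ∪ ⋃ i ∈ s, {fun x => f i x * g i x}) s.card
      {fun x => ∑ i ∈ s, f i x * g i x} := by
    apply Der.sum s (fun i => fun x => f i x * g i x)
    · intro i hi
      right
      simp only [Set.mem_iUnion]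
      exact ⟨i, hi, rfl⟩
    · exact hP
  refine (h1.trans h2).mono subset_rfl (by omega) Set.subset_union_right

/-- The answers of a query tree can be turned into moves. -/
theorem toTree {Q Y : Type} {n : ℕ} (f : Q → Fn κ) (c C : ℕ) (good : Y → (κ → ℝ) → Prop)
    (vis : Y → (κ → ℝ) → List (Fin n → ℝ)) (len : Y → ℕ) (hc : c + 1 ≤ C)
    (hf : ∀ q, Der P Set.univ ∅ c {f q})
    (hleaf : ∀ (y : Y) (G : List (Fn κ)), (∀ g ∈ G, P g) → ∃ T' : PivotTree κ n, ∀ x, good y x →
      ∃ r : Outcome n, T'.run x (G.map fun g => g x) = some r ∧ r.visited = vis y x ∧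
        r.steps ≤ len y * C ∧ ∀ v ∈ r.numbers, ∃ g, P g ∧ v = g x)
    (T : QT Q Y) :
    ∀ G : List (Fn κ), (∀ g ∈ G, P g) → ∃ T' : PivotTree κ n, ∀ x,
      good (T.eval (fun q => SignType.sign (f q x))) x → ∃ r : Outcome n,
      T'.run x (G.map fun g => g x) = some r ∧
      r.visited = vis (T.eval (fun q => SignType.sign (f q x))) x ∧
      r.steps ≤ (T.depth + len (T.eval (fun q => SignType.sign (f q x)))) * C ∧
      ∀ v ∈ r.numbers, ∃ g, P g ∧ v = g x := by
  induction T with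
  | leaf y =>
    intro G hG
    obtain ⟨T', hT'⟩ := hleaf y G hG
    refine ⟨T', fun x hx => ?_⟩
    obtain ⟨r, h1, h2, h3, h4⟩ := hT' x hx
    exact ⟨r, h1, h2, by simpa [QT.depth, QT.eval] using h3, h4⟩
  | node q tn tz tp ihn ihz ihp =>
    intro G hG
    obtain ⟨G', c', hc', hr, hav⟩ := hf q G (by simp)
    have hG' := hr.all hG
    obtain ⟨Tn, hn⟩ := ihn G' hG'
    obtain ⟨Tz, hz⟩ := ihz G' hG'
    obtain ⟨Tp, hp⟩ := ihp G' hG'
    obtain ⟨u, hu⟩ := (hav (f q) rfl).operand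
    obtain ⟨T', hT'⟩ := hr.tree (.compare u .zero Tn Tz Tp)
    refine ⟨T', fun x hx => ?_⟩
    have hd : (QT.node q tn tz tp).depth = 1 + max (max tn.depth tz.depth) tp.depth := rfl
    have m1 : tn.depth ≤ max (max tn.depth tz.depth) tp.depth :=
      (le_max_left _ _).trans (le_max_left _ _)
    have m2 : tz.depth ≤ max (max tn.depth tz.depth) tp.depth :=
      (le_max_right _ _).trans (le_max_left _ _)
    have m3 : tp.depth ≤ max (max tn.depth tz.depth) tp.depth := le_max_right _ _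
    have hrun : T'.run x (G.map fun g => g x) =
        ((if f q x < 0 then Tn.run x (G'.map fun g => g x) else
          if f q x = 0 then Tz.run x (G'.map fun g => g x) else
            Tp.run x (G'.map fun g => g x)).map fun r =>
              (⟨r.visited, r.numbers, r.steps + 1⟩ : Outcome n)).map
          fun r => ⟨r.visited, r.numbers, r.steps + c'⟩ := by
      rw [hT' x (Set.mem_univ x), PivotTree.run, hu]
      rfl
    have fin : ∀ (d D k steps : ℕ), d ≤ D → steps ≤ (d + k) * C →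
        steps + 1 + c' ≤ ((1 + D) + k) * C := by
      intro d D k steps h1 h2
      have : (d + k) * C ≤ (D + k) * C := Nat.mul_le_mul_right _ (by omega)
      have e : ((1 + D) + k) * C = (D + k) * C + C := by ring
      rw [e]
      omega
    rcases lt_trichotomy (f q x) 0 with h | h | h
    · have he : (QT.node q tn tz tp).eval (fun q => SignType.sign (f q x)) =
          tn.eval (fun q => SignType.sign (f q x)) := by
        rw [QT.eval, sign_neg h]
      rw [he] at hx ⊢
      obtain ⟨r, h1, h2, h3, h4⟩ := hn x hx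
      refine ⟨⟨r.visited, r.numbers, r.steps + 1 + c'⟩, ?_, h2, ?_, h4⟩
      · rw [hrun, if_pos h, h1, Option.map_some, Option.map_some]
      · rw [hd]; exact fin _ _ _ _ m1 h3
    · have he : (QT.node q tn tz tp).eval (fun q => SignType.sign (f q x)) =
          tz.eval (fun q => SignType.sign (f q x)) := by
        rw [QT.eval, h, sign_zero]
      rw [he] at hx ⊢
      obtain ⟨r, h1, h2, h3, h4⟩ := hz x hx
      refine ⟨⟨r.visited, r.numbers, r.steps + 1 + c'⟩, ?_, h2, ?_, h4⟩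
      · rw [hrun, if_neg (by rw [h]; exact lt_irrefl _), if_pos h, h1, Option.map_some,
          Option.map_some]
      · rw [hd]; exact fin _ _ _ _ m2 h3
    · have he : (QT.node q tn tz tp).eval (fun q => SignType.sign (f q x)) =
          tp.eval (fun q => SignType.sign (f q x)) := by
        rw [QT.eval, sign_pos h]
      rw [he] at hx ⊢
      obtain ⟨r, h1, h2, h3, h4⟩ := hp x hx
      refine ⟨⟨r.visited, r.numbers, r.steps + 1 + c'⟩, ?_, h2, ?_, h4⟩
      · rw [hrun, if_neg (not_lt.2 h.le), if_neg h.ne', h1, Option.map_some, Option.map_some]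
      · rw [hd]; exact fin _ _ _ _ m3 h3

/-- Moves to a list of points. -/
theorem moves {Y : Type} {n : ℕ} (c : ℕ) (nz : Y → Set (κ → ℝ)) (p : Y → (κ → ℝ) → Fin n → ℝ)
    (hp : ∀ y, Der P (nz y) ∅ c {f | ∃ l, f = fun x => p y x l}) (L : List Y) :
    ∀ G : List (Fn κ), (∀ g ∈ G, P g) → ∃ T' : PivotTree κ n, ∀ x, (∀ y ∈ L, x ∈ nz y) →
      ∃ r : Outcome n, T'.run x (G.map fun g => g x) = some r ∧
        r.visited = L.map (fun y => p y x) ∧
        r.steps ≤ L.length * (c + 1) ∧ ∀ v ∈ r.numbers, ∃ g, P g ∧ v = g x := by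
  induction L with
  | nil =>
    intro G hG
    refine ⟨.stop, fun x _ => ⟨⟨[], G.map fun g => g x, 0⟩, rfl, rfl, by simp, ?_⟩⟩
    intro v hv
    obtain ⟨g, hg, rfl⟩ := List.mem_map.1 hv
    exact ⟨g, hG g hg, rfl⟩
  | cons y L ih =>
    intro G hG
    obtain ⟨G', c', hc', hr, hav⟩ := hp y G (by simp)
    have hG' := hr.all hG
    obtain ⟨T1, hT1⟩ := ih G' hG'
    have hav' : ∀ l : Fin n, ∃ u : Operand κ, ∀ x, u.value x (G'.map fun g => g x) = p y x l :=
      fun l => (hav _ ⟨l, rfl⟩).operand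
    choose u hu using hav'
    obtain ⟨T', hT'⟩ := hr.tree (.move u T1)
    refine ⟨T', fun x hx => ?_⟩
    obtain ⟨r, h1, h2, h3, h4⟩ := hT1 x (fun y' hy' => hx y' (List.mem_cons_of_mem _ hy'))
    refine ⟨⟨p y x :: r.visited, r.numbers, r.steps + 1 + c'⟩, ?_, ?_, ?_, h4⟩
    · rw [hT' x (hx y List.mem_cons_self), PivotTree.run, h1, Option.map_some, Option.map_some]
      simp only [hu]
    · rw [List.map_cons, h2]
    · rw [List.length_cons]
      have e : (L.length + 1) * (c + 1) = L.length * (c + 1) + (c + 1) := by ring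
      show r.steps + 1 + c' ≤ _
      omega

end Tr

end Pool.Agent.H24R2

namespace Pool.Agent.H24R2.Tr

open Matrix Pool.Agent.H558R2

/-! ### Integrality and size -/

/-- `v * E` is an integer of absolute value at most `B`. -/
def IB (v : ℝ) (E B : ℕ) : Prop := ∃ N : ℤ, v * E = N ∧ |N| ≤ B

lemma IB.mono {v : ℝ} {E B B' : ℕ} (h : IB v E B) (hB : B ≤ B') : IB v E B' := by
  obtain ⟨N, h1, h2⟩ := h
  exact ⟨N, h1, h2.trans (by exact_mod_cast hB)⟩

lemma IB.sum {ι : Type*} (t : Finset ι) {f : ι → ℝ} {E B : ℕ} (h : ∀ i ∈ t, IB (f i) E B) :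
    IB (∑ i ∈ t, f i) E (t.card * B) := by
  classical
  induction t using Finset.induction_on with
  | empty => exact ⟨0, by simp, by simp⟩
  | insert a t ha ih =>
    obtain ⟨N, h1, h2⟩ := h a (Finset.mem_insert_self a t)
    obtain ⟨M, h3, h4⟩ := ih (fun i hi => h i (Finset.mem_insert_of_mem hi))
    refine ⟨N + M, ?_, ?_⟩
    · rw [Finset.sum_insert ha, add_mul, h1, h3]
      push_cast
      ring
    · refine (abs_add_le _ _).trans ?_
      rw [Finset.card_insert_of_notMem ha]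
      push_cast at h4 ⊢
      linarith

lemma IB.mul {v w : ℝ} {E B E' B' : ℕ} (h : IB v E B) (h' : IB w E' B') :
    IB (v * w) (E * E') (B * B') := by
  obtain ⟨N, h1, h2⟩ := h
  obtain ⟨M, h3, h4⟩ := h'
  refine ⟨N * M, ?_, ?_⟩
  · push_cast
    rw [← h1, ← h3]
    ring
  · rw [abs_mul]
    push_cast
    exact mul_le_mul h2 h4 (abs_nonneg _) (by positivity)

lemma IB.scale {v : ℝ} {E B : ℕ} (h : IB v E B) (c : ℕ) : IB v (E * c) (B * c) := by
  obtain ⟨N, h1, h2⟩ := h
  refine ⟨N * c, ?_, ?_⟩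
  · push_cast
    rw [← h1]
    ring
  · rw [abs_mul]
    push_cast
    rw [abs_of_nonneg (by positivity : (0 : ℤ) ≤ (c : ℤ))]
    exact mul_le_mul_of_nonneg_right h2 (by positivity)

lemma IB.div {v : ℝ} {E B : ℕ} (h : IB v E B) (c : ℕ) (hc : 1 ≤ c) : IB (v / c) (E * c) B := by
  obtain ⟨N, h1, h2⟩ := h
  refine ⟨N, ?_, h2⟩
  have hc' : (c : ℝ) ≠ 0 := by positivity
  push_cast
  rw [← h1]
  field_simp

lemma IB.sub {v w : ℝ} {E B B' : ℕ} (h : IB v E B) (h' : IB w E B') : IB (v - w) E (B + B') := by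
  obtain ⟨N, h1, h2⟩ := h
  obtain ⟨M, h3, h4⟩ := h'
  refine ⟨N - M, ?_, ?_⟩
  · push_cast
    rw [← h1, ← h3]
    ring
  · refine (abs_sub N M).trans ?_
    push_cast
    linarith

lemma IB.zero (E B : ℕ) : IB 0 E B := ⟨0, by simp, by simp⟩

/-- A quotient of two numbers with the same denominator. -/
lemma IB.quot {v w : ℝ} {E B : ℕ} (h : IB v E B) (h' : IB w E B) (hE : 1 ≤ E) (hB : 1 ≤ B) :
    ∃ E', 1 ≤ E' ∧ E' ≤ B ∧ IB (v / w) E' B := by
  obtain ⟨N, h1, h2⟩ := h
  obtain ⟨M, h3, h4⟩ := h'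
  have hE0 : (E : ℝ) ≠ 0 := by positivity
  rcases eq_or_ne M 0 with hM | hM
  · have hw : w = 0 := by
      rw [hM] at h3
      simpa [hE0] using h3
    refine ⟨1, le_rfl, hB, ?_⟩
    rw [hw, div_zero]
    exact IB.zero _ _
  · refine ⟨M.natAbs, Int.natAbs_pos.2 hM, ?_, N * M.sign, ?_, ?_⟩
    · rw [← Int.natCast_natAbs] at h4
      exact_mod_cast h4
    · have hM' : (M : ℝ) ≠ 0 := by exact_mod_cast hM
      have hw : w ≠ 0 := by
        intro h
        rw [h, zero_mul] at h3
        exact hM' h3.symm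
      have e1 : ((M.natAbs : ℕ) : ℝ) = (M.sign : ℝ) * M := by
        have h5 : ((M.natAbs : ℕ) : ℤ) = M.sign * M := (Int.sign_mul_self_eq_natAbs M).symm
        have h6 : (((M.natAbs : ℕ) : ℤ) : ℝ) = ((M.sign * M : ℤ) : ℝ) := by rw [h5]
        rw [Int.cast_natCast, Int.cast_mul] at h6
        exact h6
      have e2 : v / w = (N : ℝ) / M := by
        rw [← h1, ← h3]
        field_simp
      rw [e1, e2]
      push_cast
      field_simp
    · rw [abs_mul]
      have : |M.sign| = 1 := by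
        rw [Int.abs_sign_of_ne_zero hM]
      rw [this, mul_one]
      exact h2

variable {κ : Type} {n : ℕ}

/-- The bound for determinants. -/
def big₀ (n H : ℕ) : ℕ := (2 * n ^ 3 * H) ^ (n + 1)

/-- The bound for numerators and denominators. -/
def big (n H : ℕ) : ℕ := (2 * n ^ 3 * H) ^ (2 * n + 3)

/-- All values of the function on rational inputs are small. -/
def SmallVal (κ : Type) (n : ℕ) (f : Fn κ) : Prop :=
  ∀ (D H : ℕ) (X : κ → ℤ), 1 ≤ D → D ≤ H → (∀ i, |X i| ≤ H) →
    ∃ E, 1 ≤ E ∧ E ≤ big n H ∧ IB (f (fun i => (X i : ℝ) / D)) E (big n H)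

/-- inputs and constants `0`, `1`, `-1` -/
def Ent (f : Fn κ) : Prop :=
  (∃ k, f = fun x => x k) ∨ (f = fun _ => 0) ∨ (f = fun _ => 1) ∨ (f = fun _ => -1)

/-- Minus the template. -/
noncomputable def Bm (M : Fin n → Fin n → Fn κ) (x : κ → ℝ) : Matrix (Fin n) (Fin n) ℝ :=
  - Matrix.of fun i j => M i j x

variable (M : Fin n → Fin n → Fn κ)

noncomputable def Ef (i j : Fin n) : Fn κ := fun x => Bm M x i j

noncomputable def Nf (k : ℕ) (i j : Fin n) : Fn κ := fun x => flN (Bm M x) k i j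

noncomputable def Tf (k : ℕ) (i j : Fin n) : Fn κ :=
  fun x => ∑ l, Ef M i l x * Nf M k l j x

noncomputable def Qf (k : ℕ) : Fn κ := fun x => (∑ i, Tf M k i i x) / ((k + 1 : ℕ) : ℝ)

noncomputable def cf (κ : Type) (k : ℕ) : Fn κ := fun _ => (k : ℝ)

lemma Nf_succ (k : ℕ) (i j : Fin n) (x : κ → ℝ) :
    Nf M (k + 1) i j x = Tf M k i j x - (if i = j then Qf M k x else 0) := by
  have e1 : (Bm M x * flN (Bm M x) k) i j = Tf M k i j x := by
    rw [mul_apply]; rfl
  have e2 : trace (Bm M x * flN (Bm M x) k) / ((k : ℝ) + 1) = Qf M k x := by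
    unfold Qf
    push_cast
    congr 1
  unfold Nf
  rw [flN, Matrix.sub_apply, e1, e2, Matrix.smul_apply, smul_eq_mul, Matrix.one_apply]
  split_ifs <;> simp

/-! ### Bounds -/

section Bounds

variable (hM : ∀ i j, Ent (M i j))
variable {D H : ℕ} {X : κ → ℤ} (hD : 1 ≤ D) (hDH : D ≤ H) (hX : ∀ i, |X i| ≤ H)

include hD hDH hX in
lemma ib_ent {f : Fn κ} (hf : Ent f) : IB (f (fun i => (X i : ℝ) / D)) D H := by
  have hD' : (D : ℝ) ≠ 0 := by positivity
  rcases hf with ⟨k, rfl⟩ | rfl | rfl | rfl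
  · refine ⟨X k, ?_, hX _⟩
    simp only
    field_simp
  · exact IB.zero _ _
  · exact ⟨D, by simp, by simpa using hDH⟩
  · exact ⟨-D, by simp, by rw [abs_neg]; simpa using hDH⟩

include hM hD hDH hX

lemma ib_Ef (i j : Fin n) : IB (Ef M i j (fun i => (X i : ℝ) / D)) D H := by
  obtain ⟨N, h1, h2⟩ := ib_ent hD hDH hX (hM i j)
  refine ⟨-N, ?_, by rw [abs_neg]; exact h2⟩
  unfold Ef Bm
  rw [neg_apply, of_apply]
  push_cast
  rw [← h1]
  ring

lemma ib_prod (k : ℕ) (i l j : Fin n)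
    (hN : IB (Nf M k l j (fun i => (X i : ℝ) / D)) (k.factorial * D ^ k)
      ((2 * n ^ 3 * H) ^ k)) :
    IB (Ef M i l (fun i => (X i : ℝ) / D) * Nf M k l j (fun i => (X i : ℝ) / D))
      (k.factorial * D ^ (k + 1)) (H * (2 * n ^ 3 * H) ^ k) := by
  have h := (ib_Ef M hM hD hDH hX i l).mul hN
  have e : D * (k.factorial * D ^ k) = k.factorial * D ^ (k + 1) := by ring
  rwa [e] at h

lemma ib_Tsum (k : ℕ) (i j : Fin n) (t : Finset (Fin n))
    (hN : ∀ l, IB (Nf M k l j (fun i => (X i : ℝ) / D)) (k.factorial * D ^ k)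
      ((2 * n ^ 3 * H) ^ k)) :
    IB (∑ l ∈ t, Ef M i l (fun i => (X i : ℝ) / D) * Nf M k l j (fun i => (X i : ℝ) / D))
      (k.factorial * D ^ (k + 1)) (n * (H * (2 * n ^ 3 * H) ^ k)) := by
  refine (IB.sum t fun l _ => ib_prod M hM hD hDH hX k i l j (hN l)).mono ?_
  apply Nat.mul_le_mul_right
  exact (Finset.card_le_univ t).trans (by simp)

lemma ib_trace (k : ℕ) (t : Finset (Fin n))
    (hN : ∀ l j, IB (Nf M k l j (fun i => (X i : ℝ) / D)) (k.factorial * D ^ k)
      ((2 * n ^ 3 * H) ^ k)) :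
    IB (∑ i ∈ t, Tf M k i i (fun i => (X i : ℝ) / D))
      (k.factorial * D ^ (k + 1)) (n * (n * (H * (2 * n ^ 3 * H) ^ k))) := by
  refine (IB.sum t fun i _ => ib_Tsum M hM hD hDH hX k i i Finset.univ (fun l => hN l i)).mono ?_
  apply Nat.mul_le_mul_right
  exact (Finset.card_le_univ t).trans (by simp)

lemma ib_Qf (k : ℕ)
    (hN : ∀ l j, IB (Nf M k l j (fun i => (X i : ℝ) / D)) (k.factorial * D ^ k)
      ((2 * n ^ 3 * H) ^ k)) :
    IB (Qf M k (fun i => (X i : ℝ) / D))
      ((k + 1).factorial * D ^ (k + 1)) (n * (n * (H * (2 * n ^ 3 * H) ^ k))) := by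
  have h := (ib_trace M hM hD hDH hX k Finset.univ hN).div (k + 1) (by omega)
  have e : k.factorial * D ^ (k + 1) * (k + 1) = (k + 1).factorial * D ^ (k + 1) := by
    rw [Nat.factorial_succ]; ring
  rw [e] at h
  exact h

lemma ib_Nf (hn : 1 ≤ n) (k : ℕ) (hk : k ≤ n) : ∀ i j,
    IB (Nf M k i j (fun i => (X i : ℝ) / D)) (k.factorial * D ^ k) ((2 * n ^ 3 * H) ^ k) := by
  induction k with
  | zero =>
    intro i j
    unfold Nf
    rw [flN, one_apply]
    split_ifs
    · exact ⟨1, by simp, by simp⟩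
    · exact ⟨0, by simp, by simp⟩
  | succ k ih =>
    intro i j
    have ih' := ih (by omega)
    rw [Nf_succ]
    have h1 := (ib_Tsum M hM hD hDH hX k i j Finset.univ (fun l => ih' l j)).scale (k + 1)
    have e : k.factorial * D ^ (k + 1) * (k + 1) = (k + 1).factorial * D ^ (k + 1) := by
      rw [Nat.factorial_succ]; ring
    rw [e] at h1
    have h2 : IB (if i = j then Qf M k (fun i => (X i : ℝ) / D) else 0)
        ((k + 1).factorial * D ^ (k + 1)) (n * (n * (H * (2 * n ^ 3 * H) ^ k))) := by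
      split_ifs
      · exact ib_Qf M hM hD hDH hX k ih'
      · exact IB.zero _ _
    refine (h1.sub h2).mono ?_
    have e1 : n * (H * (2 * n ^ 3 * H) ^ k) * (k + 1) ≤ n * (H * (2 * n ^ 3 * H) ^ k) * n :=
      Nat.mul_le_mul_left _ hk
    have e2 : n * (H * (2 * n ^ 3 * H) ^ k) * n + n * (n * (H * (2 * n ^ 3 * H) ^ k)) =
        (2 * n ^ 2 * H) * (2 * n ^ 3 * H) ^ k := by ring
    have e3 : 2 * n ^ 2 * H ≤ 2 * n ^ 3 * H := by
      apply Nat.mul_le_mul_right
      apply Nat.mul_le_mul_left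
      exact Nat.pow_le_pow_right hn (by omega)
    calc n * (H * (2 * n ^ 3 * H) ^ k) * (k + 1) + n * (n * (H * (2 * n ^ 3 * H) ^ k))
        ≤ n * (H * (2 * n ^ 3 * H) ^ k) * n + n * (n * (H * (2 * n ^ 3 * H) ^ k)) := by omega
      _ = (2 * n ^ 2 * H) * (2 * n ^ 3 * H) ^ k := e2
      _ ≤ (2 * n ^ 3 * H) * (2 * n ^ 3 * H) ^ k := Nat.mul_le_mul_right _ e3
      _ = (2 * n ^ 3 * H) ^ (k + 1) := by ring

end Bounds

section Arith

variable {D H : ℕ} (hD : 1 ≤ D) (hDH : D ≤ H) (hn : 1 ≤ n)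

include hD hDH hn

lemma base_pos : 1 ≤ 2 * n ^ 3 * H := by
  have : 1 ≤ n ^ 3 := Nat.one_le_pow _ _ hn
  exact Nat.mul_pos (by omega) (hD.trans hDH)

lemma big₀_pos : 1 ≤ big₀ n H := Nat.one_le_pow _ _ (base_pos hD hDH hn)

lemma big₀_le_big : big₀ n H ≤ big n H :=
  Nat.pow_le_pow_right (base_pos hD hDH hn) (by omega)

lemma big_E₁ (k e : ℕ) (hk : k ≤ n) (he : e ≤ n) :
    1 ≤ k.factorial * D ^ e ∧ k.factorial * D ^ e ≤ (2 * n ^ 3 * H) ^ n := by
  refine ⟨Nat.mul_pos (Nat.factorial_pos _) (Nat.pow_pos hD), ?_⟩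
  have h1 : k.factorial ≤ n ^ n :=
    (Nat.factorial_le hk).trans (Nat.factorial_le_pow n)
  have hH : 1 ≤ H := hD.trans hDH
  have h2 : D ^ e ≤ H ^ n := (Nat.pow_le_pow_left hDH e).trans (Nat.pow_le_pow_right hH he)
  calc k.factorial * D ^ e ≤ n ^ n * H ^ n := Nat.mul_le_mul h1 h2
    _ = (n * H) ^ n := by rw [mul_pow]
    _ ≤ (2 * n ^ 3 * H) ^ n := by
        apply Nat.pow_le_pow_left
        apply Nat.mul_le_mul_right
        have : n ^ 1 ≤ n ^ 3 := Nat.pow_le_pow_right hn (by omega)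
        rw [pow_one] at this
        omega

lemma big_E (k e : ℕ) (hk : k ≤ n) (he : e ≤ n) :
    1 ≤ k.factorial * D ^ e ∧ k.factorial * D ^ e ≤ big n H := by
  have h := big_E₁ hD hDH hn k e hk he
  exact ⟨h.1, h.2.trans (Nat.pow_le_pow_right (base_pos hD hDH hn) (by omega))⟩

lemma big_B₀ (k : ℕ) (hk : k + 1 ≤ n) :
    n * (n * (H * (2 * n ^ 3 * H) ^ k)) ≤ big₀ n H := by
  have h3 := base_pos hD hDH hn
  unfold big₀
  calc n * (n * (H * (2 * n ^ 3 * H) ^ k)) = (n ^ 2 * H) * (2 * n ^ 3 * H) ^ k := by ring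
    _ ≤ (2 * n ^ 3 * H) * (2 * n ^ 3 * H) ^ k := by
        apply Nat.mul_le_mul_right
        apply Nat.mul_le_mul_right
        have : n ^ 2 ≤ n ^ 3 := Nat.pow_le_pow_right hn (by omega)
        omega
    _ = (2 * n ^ 3 * H) ^ (k + 1) := by ring
    _ ≤ (2 * n ^ 3 * H) ^ (n + 1) := Nat.pow_le_pow_right h3 (by omega)

lemma big_B (k : ℕ) (hk : k + 1 ≤ n) :
    n * (n * (H * (2 * n ^ 3 * H) ^ k)) ≤ big n H :=
  (big_B₀ hD hDH hn k hk).trans (big₀_le_big hD hDH hn)

end Arith

/-! ### The program -/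

section Program

variable (hn : 1 ≤ n) (hM : ∀ i j, Ent (M i j))

include hn

lemma small_ent {f : Fn κ} (hf : Ent f) : SmallVal κ n f := by
  intro D H X hD hDH hX
  have hb := big_E hD hDH hn 0 1 (by omega) hn
  refine ⟨D, hD, by simpa using hb.2, (ib_ent hD hDH hX hf).mono ?_⟩
  have h3 : H ≤ n * (n * (H * (2 * n ^ 3 * H) ^ 0)) := by
    rw [pow_zero, mul_one]
    calc H = 1 * (1 * H) := by ring
      _ ≤ n * (n * H) := Nat.mul_le_mul hn (Nat.mul_le_mul_right _ hn)
  exact h3.trans (big_B hD hDH hn 0 (by omega))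

lemma der_ent {f : Fn κ} (hf : Ent f) : Der (SmallVal κ n) Set.univ ∅ 1 {f} := by
  have hsmall := small_ent hn hf
  rcases hf with ⟨k, rfl⟩ | rfl | rfl | rfl
  · refine (Der.base ?_).mono subset_rfl (Nat.zero_le 1) subset_rfl
    intro f hf G _
    rw [Set.mem_singleton_iff.1 hf]
    exact Or.inl ⟨_, rfl⟩
  · refine (Der.base ?_).mono subset_rfl (Nat.zero_le 1) subset_rfl
    intro f hf G _
    rw [Set.mem_singleton_iff.1 hf]
    exact Or.inr (Or.inl rfl)
  · refine (Der.base ?_).mono subset_rfl (Nat.zero_le 1) subset_rfl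
    intro f hf G _
    rw [Set.mem_singleton_iff.1 hf]
    exact Or.inr (Or.inr (Or.inl rfl))
  · have e : (fun _ => -1 : Fn κ) = fun x => Op.sub.eval ((fun _ => 0 : Fn κ) x)
        ((fun _ => 1 : Fn κ) x) := by
      ext x
      simp [Op.eval]
    rw [e]
    refine Der.op Op.sub _ _ (fun G _ => Or.inr (Or.inl rfl))
      (fun G _ => Or.inr (Or.inr (Or.inl rfl))) (by simp) ?_
    rw [← e]
    exact hsmall

include hM

lemma der_Ef (i j : Fin n) : Der (SmallVal κ n) Set.univ ∅ 1 {Ef M i j} := by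
  have hsmall : SmallVal κ n (Ef M i j) := by
    intro D H X hD hDH hX
    have hb := big_E hD hDH hn 0 1 (by omega) hn
    refine ⟨D, hD, by simpa using hb.2, (ib_Ef M hM hD hDH hX i j).mono ?_⟩
    have h3 : H ≤ n * (n * (H * (2 * n ^ 3 * H) ^ 0)) := by
      rw [pow_zero, mul_one]
      calc H = 1 * (1 * H) := by ring
        _ ≤ n * (n * H) := Nat.mul_le_mul hn (Nat.mul_le_mul_right _ hn)
    exact h3.trans (big_B hD hDH hn 0 (by omega))
  have hval : Ef M i j = fun x => - (M i j x) := rfl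
  rcases hM i j with ⟨k, hk⟩ | hk | hk | hk
  · have e : Ef M i j = fun x => Op.sub.eval ((fun _ => 0 : Fn κ) x)
        ((fun x => x k : Fn κ) x) := by
      ext x
      rw [hval, hk]
      simp [Op.eval]
    rw [e]
    refine Der.op Op.sub _ _ (fun G _ => Or.inr (Or.inl rfl))
      (fun G _ => Or.inl ⟨_, rfl⟩) (by simp) ?_
    rw [← e]
    exact hsmall
  · have e : Ef M i j = fun _ => 0 := by
      ext x
      rw [hval, hk]
      simp
    refine (Der.base ?_).mono subset_rfl (Nat.zero_le 1) subset_rfl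
    intro f hf G _
    rw [Set.mem_singleton_iff.1 hf, e]
    exact Or.inr (Or.inl rfl)
  · have e : Ef M i j = fun x => Op.sub.eval ((fun _ => 0 : Fn κ) x)
        ((fun _ => 1 : Fn κ) x) := by
      ext x
      rw [hval, hk]
      simp [Op.eval]
    rw [e]
    refine Der.op Op.sub _ _ (fun G _ => Or.inr (Or.inl rfl))
      (fun G _ => Or.inr (Or.inr (Or.inl rfl))) (by simp) ?_
    rw [← e]
    exact hsmall
  · have e : Ef M i j = fun _ => 1 := by
      ext x
      rw [hval, hk]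
      simp
    refine (Der.base ?_).mono subset_rfl (Nat.zero_le 1) subset_rfl
    intro f hf G _
    rw [Set.mem_singleton_iff.1 hf, e]
    exact Or.inr (Or.inr (Or.inl rfl))

/-- All entries of the matrix. -/
def EfSet : Set (Fn κ) := {f | ∃ i j, f = Ef M i j}

/-- All entries of the `k`-th matrix. -/
def NfSet (k : ℕ) : Set (Fn κ) := {f | ∃ i j, f = Nf M k i j}

/-- All entries of the `k`-th product. -/
def TfSet (k : ℕ) : Set (Fn κ) := {f | ∃ i j, f = Tf M k i j}

lemma der_EfSet : Der (SmallVal κ n) Set.univ ∅ (n * n) (EfSet M) := by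
  have h := Der.iUnion (P := SmallVal κ n) (dom := Set.univ) (K := ∅) (c := 1)
    (Finset.univ : Finset (Fin n × Fin n)) (S := fun p => {Ef M p.1 p.2})
    (fun p _ => der_Ef M hn hM p.1 p.2)
  refine h.mono subset_rfl (by simp) ?_
  rintro f ⟨i, j, rfl⟩
  simp only [Finset.mem_univ, Set.iUnion_true, Set.mem_iUnion, Set.mem_singleton_iff]
  exact ⟨(i, j), rfl⟩

lemma der_TfSet (k : ℕ) (hk : k + 1 ≤ n) :
    Der (SmallVal κ n) Set.univ (EfSet M ∪ NfSet M k) (n * n * (2 * n)) (TfSet M k) := by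
  have hT : ∀ i j, Der (SmallVal κ n) Set.univ (EfSet M ∪ NfSet M k) (2 * n)
      {Tf M k i j} := by
    intro i j
    have hsum : ∀ t ⊆ (Finset.univ : Finset (Fin n)),
        SmallVal κ n (fun x => ∑ l ∈ t, Ef M i l x * Nf M k l j x) := by
      intro t _ D H X hD hDH hX
      have hN := ib_Nf M hM hD hDH hX hn k (by omega)
      have h1 := ib_Tsum M hM hD hDH hX k i j t (fun l => hN l j)
      have hb := big_E hD hDH hn k (k + 1) (by omega) (by omega)
      refine ⟨_, hb.1, hb.2, h1.mono ?_⟩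
      refine le_trans ?_ (big_B hD hDH hn k hk)
      exact Nat.le_mul_of_pos_left _ hn
    have h := Der.dot (P := SmallVal κ n) (dom := Set.univ) (K := EfSet M ∪ NfSet M k)
      (Finset.univ : Finset (Fin n)) (fun l => Ef M i l) (fun l => Nf M k l j)
      (fun l _ G hG => hG _ (Or.inl ⟨i, l, rfl⟩)) (fun l _ G hG => hG _ (Or.inr ⟨l, j, rfl⟩))
      (fun l _ => by simpa using hsum {l} (by simp)) hsum
    rw [Finset.card_univ, Fintype.card_fin] at h
    exact h
  have h := Der.iUnion (P := SmallVal κ n) (dom := Set.univ) (K := EfSet M ∪ NfSet M k)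
    (c := 2 * n)
    (Finset.univ : Finset (Fin n × Fin n)) (S := fun p => {Tf M k p.1 p.2})
    (fun p _ => hT p.1 p.2)
  refine h.mono subset_rfl (by simp) ?_
  rintro f ⟨i, j, rfl⟩
  simp only [Finset.mem_univ, Set.iUnion_true, Set.mem_iUnion, Set.mem_singleton_iff]
  exact ⟨(i, j), rfl⟩

omit hM in
lemma small_cf (k : ℕ) (hk : k ≤ n) : SmallVal κ n (cf κ k) := by
  intro D H X hD hDH hX
  have hb := big_E hD hDH hn 0 0 (by omega) (by omega)
  refine ⟨1, le_rfl, by simpa using hb.2, ⟨k, by simp [cf], ?_⟩⟩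
  have h1 : n ≤ big n H := by
    have hH : 1 ≤ H := hD.trans hDH
    refine le_trans ?_ (big_B hD hDH hn 0 (by omega))
    rw [pow_zero, mul_one]
    calc n = n * (1 * 1) := by ring
      _ ≤ n * (n * H) := Nat.mul_le_mul_left _ (Nat.mul_le_mul hn hH)
  rw [abs_of_nonneg (by positivity)]
  exact_mod_cast hk.trans h1

lemma der_Qf (k : ℕ) (hk : k + 1 ≤ n) :
    Der (SmallVal κ n) Set.univ (TfSet M k ∪ {cf κ k}) (n + 2) ({Qf M k} ∪ {cf κ (k + 1)}) := by
  have h1 : Der (SmallVal κ n) Set.univ (TfSet M k ∪ {cf κ k}) 1 {cf κ (k + 1)} := by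
    have e : cf κ (k + 1) =
        fun x => Op.add.eval (cf κ k x) ((fun _ => 1 : Fn κ) x) := by
      ext x
      simp [cf, Op.eval]
    rw [e]
    refine Der.op Op.add _ _ (fun G hG => hG _ (Or.inr rfl))
      (fun G _ => Or.inr (Or.inr (Or.inl rfl))) (by simp) ?_
    rw [← e]
    exact small_cf hn (k + 1) hk
  have h2 : Der (SmallVal κ n) Set.univ ((TfSet M k ∪ {cf κ k}) ∪ {cf κ (k + 1)}) n
      {fun x => ∑ i, Tf M k i i x} := by
    have h := Der.sum (P := SmallVal κ n) (dom := Set.univ)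
      (K := (TfSet M k ∪ {cf κ k}) ∪ {cf κ (k + 1)})
      (Finset.univ : Finset (Fin n)) (fun i => Tf M k i i)
      (fun i _ => Or.inl (Or.inl ⟨i, i, rfl⟩)) (by
        intro t _ D H X hD hDH hX
        have hN := ib_Nf M hM hD hDH hX hn k (by omega)
        have h1 := ib_trace M hM hD hDH hX k t hN
        have hb := big_E hD hDH hn k (k + 1) (by omega) (by omega)
        exact ⟨_, hb.1, hb.2, h1.mono (big_B hD hDH hn k hk)⟩)
    simpa using h
  have h3 : Der (SmallVal κ n) Set.univ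
      (((TfSet M k ∪ {cf κ k})) ∪ ({cf κ (k + 1)} ∪ {fun x => ∑ i, Tf M k i i x})) 1 {Qf M k} := by
    have e : Qf M k = fun x => Op.div.eval ((fun x => ∑ i, Tf M k i i x) x)
        (cf κ (k + 1) x) := by
      ext x
      rfl
    rw [e]
    refine Der.op Op.div _ _ (fun G hG => hG _ (Or.inr (Or.inr rfl)))
      (fun G hG => hG _ (Or.inr (Or.inl rfl))) ?_ ?_
    · intro _ x _
      unfold cf
      positivity
    · rw [← e]
      intro D H X hD hDH hX
      have hN := ib_Nf M hM hD hDH hX hn k (by omega)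
      have h1 := ib_Qf M hM hD hDH hX k hN
      have hb := big_E hD hDH hn (k + 1) (k + 1) hk hk
      exact ⟨_, hb.1, hb.2, h1.mono (big_B hD hDH hn k hk)⟩
  have h12 := h1.trans h2
  have h := h12.trans h3
  refine h.mono subset_rfl (by omega) ?_
  rintro f (hf | hf)
  · exact Or.inr hf
  · exact Or.inl (Or.inl hf)

lemma der_Nf_succ (k : ℕ) (hk : k + 1 ≤ n) :
    Der (SmallVal κ n) Set.univ (TfSet M k ∪ {Qf M k}) (n * n) (NfSet M (k + 1)) := by
  have hN : ∀ i j, Der (SmallVal κ n) Set.univ (TfSet M k ∪ {Qf M k}) 1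
      {Nf M (k + 1) i j} := by
    intro i j
    by_cases hij : i = j
    · have e : Nf M (k + 1) i j = fun x => Op.sub.eval (Tf M k i j x) (Qf M k x) := by
        ext x
        rw [Nf_succ, if_pos hij]
        rfl
      rw [e]
      refine Der.op Op.sub _ _ (fun G hG => hG _ (Or.inl ⟨i, j, rfl⟩))
        (fun G hG => hG _ (Or.inr rfl)) (by simp) ?_
      rw [← e]
      intro D H X hD hDH hX
      have h1 := ib_Nf M hM hD hDH hX hn (k + 1) hk i j
      have hb := big_E hD hDH hn (k + 1) (k + 1) hk hk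
      refine ⟨_, hb.1, hb.2, h1.mono ?_⟩
      exact Nat.pow_le_pow_right (base_pos hD hDH hn) (by omega)
    · have e : Nf M (k + 1) i j = Tf M k i j := by
        ext x
        rw [Nf_succ, if_neg hij, sub_zero]
      refine (Der.base ?_).mono subset_rfl (Nat.zero_le 1) subset_rfl
      intro f hf G hG
      rw [Set.mem_singleton_iff.1 hf, e]
      exact hG _ (Or.inl ⟨i, j, rfl⟩)
  have h := Der.iUnion (P := SmallVal κ n) (dom := Set.univ) (K := TfSet M k ∪ {Qf M k}) (c := 1)
    (Finset.univ : Finset (Fin n × Fin n)) (S := fun p => {Nf M (k + 1) p.1 p.2})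
    (fun p _ => hN p.1 p.2)
  refine h.mono subset_rfl (by simp) ?_
  rintro f ⟨i, j, rfl⟩
  simp only [Finset.mem_univ, Set.iUnion_true, Set.mem_iUnion, Set.mem_singleton_iff]
  exact ⟨(i, j), rfl⟩

/-- The cost of one round. -/
def roundCost (n : ℕ) : ℕ := n * n * (2 * n) + (n + 2) + n * n

lemma der_round (k : ℕ) (hk : k + 1 ≤ n) :
    Der (SmallVal κ n) Set.univ (EfSet M ∪ (NfSet M k ∪ {cf κ k})) (roundCost n)
      ({Qf M k} ∪ (EfSet M ∪ (NfSet M (k + 1) ∪ {cf κ (k + 1)}))) := by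
  have h1 := (der_TfSet M hn hM k hk).mono
    (K' := EfSet M ∪ (NfSet M k ∪ {cf κ k})) (by
      rintro f (hf | hf)
      · exact Or.inl hf
      · exact Or.inr (Or.inl hf)) le_rfl subset_rfl
  have h2 := (der_Qf M hn hM k hk).mono
    (K' := (EfSet M ∪ (NfSet M k ∪ {cf κ k})) ∪ TfSet M k) (by
      rintro f (hf | hf)
      · exact Or.inr hf
      · exact Or.inl (Or.inr (Or.inr hf))) le_rfl subset_rfl
  have h12 := h1.trans h2
  have h3 := (der_Nf_succ M hn hM k hk).mono
    (K' := (EfSet M ∪ (NfSet M k ∪ {cf κ k})) ∪ (TfSet M k ∪ ({Qf M k} ∪ {cf κ (k + 1)}))) (by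
      rintro f (hf | hf)
      · exact Or.inr (Or.inl hf)
      · exact Or.inr (Or.inr (Or.inl hf))) le_rfl subset_rfl
  have h := h12.trans h3
  intro G hG
  obtain ⟨G', c', hc', hr, hav⟩ := h G hG
  refine ⟨G', c', hc'.trans (by unfold roundCost; omega), hr, ?_⟩
  rintro f (hf | hf | hf | hf)
  · exact hav f (Or.inl (Or.inr (Or.inl hf)))
  · exact hr.av (hG f (Or.inl hf))
  · exact hav f (Or.inr hf)
  · exact hav f (Or.inl (Or.inr (Or.inr hf)))

lemma der_upto (k : ℕ) (hk : k + 1 ≤ n) :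
    Der (SmallVal κ n) Set.univ ∅ (n * n + k * roundCost n)
      (EfSet M ∪ (NfSet M k ∪ {cf κ k})) := by
  induction k with
  | zero =>
    intro G hG
    obtain ⟨G', c', hc', hr, hav⟩ := der_EfSet M hn hM G hG
    refine ⟨G', c', hc'.trans (by omega), hr, ?_⟩
    rintro f (hf | ⟨i, j, rfl⟩ | hf)
    · exact hav f hf
    · by_cases hij : i = j
      · right; right; left
        ext x
        subst hij
        simp [Nf, flN]
      · right; left
        ext x
        simp [Nf, flN, one_apply_ne hij]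
    · rw [Set.mem_singleton_iff.1 hf]
      right; left
      ext x
      simp [cf]
  | succ k ih =>
    have h1 := ih (by omega)
    have h2 := (der_round M hn hM k (by omega)).mono
      (K' := ∅ ∪ (EfSet M ∪ (NfSet M k ∪ {cf κ k}))) Set.subset_union_right le_rfl subset_rfl
    have h := h1.trans h2
    refine h.mono subset_rfl ?_ ?_
    · ring_nf; exact le_rfl
    · intro f hf
      exact Or.inr (Or.inr hf)

/-- The determinant of the template. -/
noncomputable def Df : Fn κ := fun x => (Matrix.of fun i j => M i j x).det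

omit hM in
lemma Df_eq (x : κ → ℝ) : Df M x = 0 - Qf M (n - 1) x := by
  have h := det_eq_flN (Matrix.of fun i j => M i j x) hn
  unfold Df
  rw [← h, zero_sub]
  congr 1
  unfold Qf
  have e1 : ((n - 1 + 1 : ℕ) : ℝ) = n := by
    congr 1
    omega
  rw [e1]
  congr 1

lemma ib_Df {D H : ℕ} {X : κ → ℤ} (hD : 1 ≤ D) (hDH : D ≤ H) (hX : ∀ i, |X i| ≤ H) :
    IB (Df M (fun i => (X i : ℝ) / D)) (n.factorial * D ^ n) (big₀ n H) := by
  have hN := ib_Nf M hM hD hDH hX hn (n - 1) (by omega)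
  have h1 := (IB.zero ((n - 1 + 1).factorial * D ^ (n - 1 + 1)) 0).sub
    (ib_Qf M hM hD hDH hX (n - 1) hN)
  rw [zero_add, ← Df_eq M hn, Nat.sub_add_cancel hn] at h1
  exact h1.mono (big_B₀ hD hDH hn (n - 1) (by omega))

/-- The cost of one minor. -/
def minorCost (n : ℕ) : ℕ := n * n + (n - 1) * roundCost n + (roundCost n + 1)

theorem der_Df : Der (SmallVal κ n) Set.univ ∅ (minorCost n) {Df M} := by
  have h1 := der_upto M hn hM (n - 1) (by omega)
  have h2 := (der_round M hn hM (n - 1) (by omega)).mono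
      (K' := ∅ ∪ (EfSet M ∪ (NfSet M (n - 1) ∪ {cf κ (n - 1)}))) Set.subset_union_right le_rfl
      (S' := {Qf M (n - 1)}) (fun f hf => Or.inl hf)
  have h12 := h1.trans h2
  have h3 : Der (SmallVal κ n) Set.univ (∅ ∪ ((EfSet M ∪ (NfSet M (n - 1) ∪
      {cf κ (n - 1)})) ∪ {Qf M (n - 1)})) 1 {Df M} := by
    have e : Df M = fun x => Op.sub.eval ((fun _ => 0 : Fn κ) x)
        (Qf M (n - 1) x) := by
      ext x
      rw [Df_eq M hn]
      rfl
    rw [e]
    refine Der.op Op.sub _ _ (fun G _ => Or.inr (Or.inl rfl))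
      (fun G hG => hG _ (Or.inr (Or.inr rfl))) (by simp) ?_
    rw [← e]
    intro D H X hD hDH hX
    have hb := big_E hD hDH hn n n le_rfl le_rfl
    exact ⟨_, hb.1, hb.2, (ib_Df M hn hM hD hDH hX).mono (big₀_le_big hD hDH hn)⟩
  have h := h12.trans h3
  exact h.mono subset_rfl (by unfold minorCost; omega) Set.subset_union_right

end Program

end Pool.Agent.H24R2.Tr

namespace Pool.Agent.H24R2

namespace Tr

open Matrix

variable {m n : ℕ}

/-! ### Entries -/

lemma ent_row (r : Row m n) (j : Fin n) : Ent (κ := Idx m n) (fun x => row x r j) := by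
  rcases r with i | l
  · exact Or.inl ⟨_, rfl⟩
  · by_cases h : l = j
    · right; right; right
      ext x
      simp [row, h]
    · right; left
      ext x
      simp [row, h]

lemma ent_cst (j : Fin n) : Ent (κ := Idx m n) (fun x => cst x j) := Or.inl ⟨_, rfl⟩

lemma ent_vtx (j : Fin n) : Ent (κ := Idx m n) (fun x => vtx x j) := Or.inl ⟨_, rfl⟩

lemma ent_orow (r : Option (Row m n)) (j : Fin n) :
    Ent (κ := Idx m n) (fun x => orow x r j) := by
  rcases r with _ | r
  · exact ent_cst j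
  · exact ent_row r j

lemma ent_rhs (k : Option (Row m n)) (r : Row m n) :
    Ent (κ := Idx m n) (fun x => rhs x k r) := by
  rcases k with _ | k
  · rcases r with i | l
    · exact Or.inl ⟨_, rfl⟩
    · exact Or.inr (Or.inl rfl)
  · by_cases h : k = r
    · right; right; left
      ext x
      simp [rhs, h]
    · right; left
      ext x
      simp [rhs, h]

/-- The template of `dd`. -/
noncomputable def Md (β : Fin n → Option (Row m n)) : Fin n → Fin n → Fn (Idx m n) :=
  fun i j x => orow x (β i) j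

/-- The template of `xx`. -/
noncomputable def Mx (k : Option (Row m n)) (β : Fin n → Row m n) (l : Fin n) :
    Fin n → Fin n → Fn (Idx m n) :=
  fun i j x => if j = l then rhs x k (β i) else row x (β i) j

lemma ent_Md (β : Fin n → Option (Row m n)) (i j : Fin n) : Ent (Md β i j) := ent_orow _ _

lemma ent_Mx (k : Option (Row m n)) (β : Fin n → Row m n) (l i j : Fin n) :
    Ent (Mx k β l i j) := by
  by_cases h : j = l
  · have e : Mx k β l i j = fun x => rhs x k (β i) := by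
      ext x
      simp [Mx, h]
    rw [e]
    exact ent_rhs _ _
  · have e : Mx k β l i j = fun x => row x (β i) j := by
      ext x
      simp [Mx, h]
    rw [e]
    exact ent_row _ _

lemma Df_Md (β : Fin n → Option (Row m n)) : Df (Md β) = fun x => dd x β := rfl

lemma Df_Mx (k : Option (Row m n)) (β : Fin n → Row m n) (l : Fin n) :
    Df (Mx k β l) = fun x => xx x k β l := by
  ext x
  unfold Df xx
  congr 1
  ext i j
  rw [Matrix.updateCol_apply, Matrix.of_apply]
  rfl

/-! ### Bounds -/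

section Bounds

variable (hn : 1 ≤ n) {D H : ℕ} {X : Idx m n → ℤ} (hD : 1 ≤ D) (hDH : D ≤ H)
  (hX : ∀ i, |X i| ≤ H)

include hn hD hDH hX

lemma ib_dd (β : Fin n → Option (Row m n)) :
    IB (dd (fun i => (X i : ℝ) / D) β) (n.factorial * D ^ n) (big₀ n H) :=
  ib_Df (Md β) hn (ent_Md β) hD hDH hX

lemma ib_xx (k : Option (Row m n)) (β : Fin n → Row m n) (l : Fin n) :
    IB (xx (fun i => (X i : ℝ) / D) k β l) (n.factorial * D ^ n) (big₀ n H) := by
  have h := ib_Df (Mx k β l) hn (ent_Mx k β l) hD hDH hX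
  rw [Df_Mx] at h
  exact h

/-- partial sums of entries times `xx` -/
lemma ib_exx (e : Fin n → Fn (Idx m n)) (he : ∀ l, Ent (e l)) (k : Option (Row m n))
    (β : Fin n → Row m n) (t : Finset (Fin n)) :
    IB (∑ l ∈ t, e l (fun i => (X i : ℝ) / D) * xx (fun i => (X i : ℝ) / D) k β l)
      (D * (n.factorial * D ^ n)) (n * (H * big₀ n H)) := by
  refine (IB.sum t fun l _ => (ib_ent hD hDH hX (he l)).mul
    (ib_xx hn hD hDH hX k β l)).mono ?_
  exact Nat.mul_le_mul_right _ ((Finset.card_le_univ t).trans (by simp))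

end Bounds

section Arith

variable {D H : ℕ} (hD : 1 ≤ D) (hDH : D ≤ H) (hn : 1 ≤ n)

include hD hDH hn

lemma H_le_base : 2 * n * H ≤ 2 * n ^ 3 * H := by
  apply Nat.mul_le_mul_right
  apply Nat.mul_le_mul_left
  calc n = n ^ 1 := (pow_one n).symm
    _ ≤ n ^ 3 := Nat.pow_le_pow_right hn (by omega)

lemma H_le_base' : H ≤ 2 * n ^ 3 * H := by
  refine le_trans ?_ (H_le_base hD hDH hn)
  exact Nat.le_mul_of_pos_left _ (by omega)

lemma E_slack : 1 ≤ D * (n.factorial * D ^ n) ∧ D * (n.factorial * D ^ n) ≤ big n H := by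
  have h1 := big_E₁ hD hDH hn n n le_rfl le_rfl
  refine ⟨Nat.mul_pos hD h1.1, ?_⟩
  calc D * (n.factorial * D ^ n) ≤ (2 * n ^ 3 * H) * (2 * n ^ 3 * H) ^ n :=
        Nat.mul_le_mul (hDH.trans (H_le_base' hD hDH hn)) h1.2
    _ = (2 * n ^ 3 * H) ^ (n + 1) := by ring
    _ ≤ big n H := Nat.pow_le_pow_right (base_pos hD hDH hn) (by omega)

lemma E_val : 1 ≤ D * (n.factorial * D ^ n) * (n.factorial * D ^ n) ∧
    D * (n.factorial * D ^ n) * (n.factorial * D ^ n) ≤ big n H := by
  have h1 := big_E₁ hD hDH hn n n le_rfl le_rfl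
  refine ⟨Nat.mul_pos (Nat.mul_pos hD h1.1) h1.1, ?_⟩
  calc D * (n.factorial * D ^ n) * (n.factorial * D ^ n) ≤
        (2 * n ^ 3 * H) * (2 * n ^ 3 * H) ^ n * (2 * n ^ 3 * H) ^ n :=
        Nat.mul_le_mul (Nat.mul_le_mul (hDH.trans (H_le_base' hD hDH hn)) h1.2) h1.2
    _ = (2 * n ^ 3 * H) ^ (2 * n + 1) := by ring
    _ ≤ big n H := Nat.pow_le_pow_right (base_pos hD hDH hn) (by omega)

lemma B_slack : H * big₀ n H + n * (H * big₀ n H) ≤ big n H := by
  calc H * big₀ n H + n * (H * big₀ n H) ≤ (2 * n * H) * big₀ n H := by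
        have : 1 * (H * big₀ n H) ≤ n * (H * big₀ n H) := Nat.mul_le_mul_right _ hn
        nlinarith
    _ ≤ (2 * n ^ 3 * H) * big₀ n H := Nat.mul_le_mul_right _ (H_le_base hD hDH hn)
    _ = (2 * n ^ 3 * H) ^ (n + 2) := by unfold big₀; ring
    _ ≤ big n H := Nat.pow_le_pow_right (base_pos hD hDH hn) (by omega)

lemma B_exx : n * (H * big₀ n H) ≤ big n H :=
  le_trans (Nat.le_add_left _ _) (B_slack hD hDH hn)

lemma B_rhs : H * big₀ n H ≤ big n H :=
  le_trans (Nat.le_add_right _ _) (B_slack hD hDH hn)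

lemma B_val : n * (H * big₀ n H) * big₀ n H + n * (H * big₀ n H) * big₀ n H ≤ big n H := by
  calc n * (H * big₀ n H) * big₀ n H + n * (H * big₀ n H) * big₀ n H =
        (2 * n * H) * (big₀ n H * big₀ n H) := by ring
    _ ≤ (2 * n ^ 3 * H) * (big₀ n H * big₀ n H) :=
        Nat.mul_le_mul_right _ (H_le_base hD hDH hn)
    _ = big n H := by unfold big₀ big; ring

lemma B_val₁ : n * (H * big₀ n H) * big₀ n H ≤ big n H :=
  le_trans (Nat.le_add_left _ _) (B_val hD hDH hn)

lemma E_tight : 1 ≤ D * D ∧ D * D ≤ big n H := by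
  refine ⟨Nat.mul_pos hD hD, ?_⟩
  have h := hDH.trans (H_le_base' hD hDH hn)
  calc D * D ≤ (2 * n ^ 3 * H) * (2 * n ^ 3 * H) := Nat.mul_le_mul h h
    _ = (2 * n ^ 3 * H) ^ 2 := by ring
    _ ≤ big n H := Nat.pow_le_pow_right (base_pos hD hDH hn) (by omega)

lemma B_tight : H * D + n * (H * H) ≤ big n H := by
  calc H * D + n * (H * H) ≤ (2 * n * H) * H := by
        have h1 : H * D ≤ H * H := Nat.mul_le_mul_left _ hDH
        have h2 : 1 * (H * H) ≤ n * (H * H) := Nat.mul_le_mul_right _ hn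
        nlinarith
    _ ≤ (2 * n ^ 3 * H) * (2 * n ^ 3 * H) :=
        Nat.mul_le_mul (H_le_base hD hDH hn) (H_le_base' hD hDH hn)
    _ = (2 * n ^ 3 * H) ^ 2 := by ring
    _ ≤ big n H := Nat.pow_le_pow_right (base_pos hD hDH hn) (by omega)

end Arith

/-! ### Programs -/

section Programs

variable (hn : 1 ≤ n)

include hn

lemma der_dd (β : Fin n → Option (Row m n)) :
    Der (SmallVal (Idx m n) n) Set.univ ∅ (minorCost n) {fun x => dd x β} :=
  der_Df (Md β) hn (ent_Md β)

lemma der_xx (k : Option (Row m n)) (β : Fin n → Row m n) (l : Fin n) :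
    Der (SmallVal (Idx m n) n) Set.univ ∅ (minorCost n) {fun x => xx x k β l} := by
  have h := der_Df (Mx k β l) hn (ent_Mx k β l)
  rw [Df_Mx] at h
  exact h

/-- all coordinates of a basic solution -/
lemma der_xxs (k : Option (Row m n)) (β : Fin n → Row m n) :
    Der (SmallVal (Idx m n) n) Set.univ ∅ (n * minorCost n) {f | ∃ l, f = fun x => xx x k β l} := by
  have h := Der.iUnion (P := SmallVal (Idx m n) n) (dom := Set.univ) (K := ∅) (c := minorCost n)
    (Finset.univ : Finset (Fin n)) (S := fun l => {fun x => xx x k β l})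
    (fun l _ => der_xx hn k β l)
  refine h.mono subset_rfl (by simp) ?_
  rintro f ⟨l, rfl⟩
  simp only [Finset.mem_univ, Set.iUnion_true, Set.mem_iUnion, Set.mem_singleton_iff]
  exact ⟨l, rfl⟩

/-- a family of entries -/
lemma der_ents (e : Fin n → Fn (Idx m n)) (he : ∀ l, Ent (e l)) :
    Der (SmallVal (Idx m n) n) Set.univ ∅ n {f | ∃ l, f = e l} := by
  have h := Der.iUnion (P := SmallVal (Idx m n) n) (dom := Set.univ) (K := ∅) (c := 1)
    (Finset.univ : Finset (Fin n)) (S := fun l => {e l})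
    (fun l _ => der_ent hn (he l))
  refine h.mono subset_rfl (by simp) ?_
  rintro f ⟨l, rfl⟩
  simp only [Finset.mem_univ, Set.iUnion_true, Set.mem_iUnion, Set.mem_singleton_iff]
  exact ⟨l, rfl⟩

/-- the sum of entries times `xx` -/
lemma der_exx (e : Fin n → Fn (Idx m n)) (he : ∀ l, Ent (e l)) (k : Option (Row m n))
    (β : Fin n → Row m n) :
    Der (SmallVal (Idx m n) n) Set.univ ∅ (n * minorCost n + n + 2 * n)
      {fun x => ∑ l, e l x * xx x k β l} := by
  have h1 := der_xxs hn k β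
  have h2 := der_ents hn e he
  have hsum : ∀ t ⊆ (Finset.univ : Finset (Fin n)), SmallVal (Idx m n) n
      (fun x => ∑ l ∈ t, e l x * xx x k β l) := by
    intro t _ D H X hD hDH hX
    have hE := E_slack hD hDH hn
    exact ⟨_, hE.1, hE.2, (ib_exx hn hD hDH hX e he k β t).mono (B_exx hD hDH hn)⟩
  have h3 := Der.dot (P := SmallVal (Idx m n) n) (dom := Set.univ)
    (K := (∅ ∪ {f | ∃ l, f = fun x => xx x k β l}) ∪ {f | ∃ l, f = e l})
    (Finset.univ : Finset (Fin n)) e (fun l x => xx x k β l)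
    (fun l _ G hG => hG _ (Or.inr ⟨l, rfl⟩)) (fun l _ G hG => hG _ (Or.inl (Or.inr ⟨l, rfl⟩)))
    (fun l _ => by simpa using hsum {l} (by simp)) hsum
  rw [Finset.card_univ, Fintype.card_fin] at h3
  intro G hG
  obtain ⟨G1, c1, hc1, r1, a1⟩ := h1 G hG
  obtain ⟨G2, c2, hc2, r2, a2⟩ := h2 G1 (by simp)
  obtain ⟨G3, c3, hc3, r3, a3⟩ := h3 G2 (by
    rintro f ((hf | hf) | hf)
    · exact absurd hf (by simp)
    · exact r2.av (a1 f hf)
    · exact a2 f hf)
  exact ⟨G3, c1 + c2 + c3, by omega, (r1.trans r2).trans r3, a3⟩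

omit hn in
/-- one operation -/
lemma op_step {κ : Type} {P : Fn κ → Prop} {dom : Set (κ → ℝ)} {G : List (Fn κ)} {f g h : Fn κ}
    (o : Op) (hf : Av G f) (hg : Av G g) (hd : o = .div → ∀ x ∈ dom, g x ≠ 0)
    (e : h = fun x => o.eval (f x) (g x)) (hP : P h) :
    ∃ G', Reach P dom G 1 G' ∧ Av G' h := by
  subst e
  exact ⟨_, Reach.step o f g (Reach.refl G) hf hg hd hP,
    Or.inr (Or.inr (Or.inr (List.mem_append_right _ (List.mem_singleton_self _))))⟩

/-- the cost of one query -/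
def queryCost (n : ℕ) : ℕ := 2 * ((n * minorCost n + n + 2 * n) + minorCost n + 1) + 1

theorem der_query (q : Qr m n) :
    Der (SmallVal (Idx m n) n) Set.univ ∅ (queryCost n) {fun x => qval x q} := by
  rcases q with β | ⟨k, β, j⟩ | ⟨k, β, γ⟩ | j
  · exact (der_dd hn β).mono subset_rfl (by unfold queryCost; omega) subset_rfl
  · -- slack
    intro G _
    obtain ⟨G1, c1, hc1, r1, a1⟩ :=
      der_exx hn (fun l x => row x j l) (fun l => ent_row j l) k β G (by simp)
    obtain ⟨G2, c2, hc2, r2, a2⟩ := der_dd hn (fun i => some (β i)) G1 (by simp)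
    obtain ⟨G3, c3, hc3, r3, a3⟩ := der_ent hn (ent_rhs k j) G2 (by simp)
    obtain ⟨G4, r4, a4⟩ := op_step (P := SmallVal (Idx m n) n) (dom := Set.univ)
      (h := fun x => rhs x k j * dd x (fun i => some (β i)))
      Op.mul (a3 _ rfl) (r3.av (a2 _ rfl)) (by simp) rfl (by
        intro D H X hD hDH hX
        have hE := E_slack hD hDH hn
        exact ⟨_, hE.1, hE.2, ((ib_ent hD hDH hX (ent_rhs k j)).mul
          (ib_dd hn hD hDH hX _)).mono (B_rhs hD hDH hn)⟩)
    obtain ⟨G5, r5, a5⟩ := op_step (P := SmallVal (Idx m n) n) (dom := Set.univ)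
      (h := fun x => qval x (.slack k β j))
      Op.sub a4 (r4.av (r3.av (r2.av (a1 _ rfl)))) (by simp) rfl (by
        intro D H X hD hDH hX
        have hE := E_slack hD hDH hn
        refine ⟨_, hE.1, hE.2, IB.mono ?_ (B_slack hD hDH hn)⟩
        exact ((ib_ent hD hDH hX (ent_rhs k j)).mul (ib_dd hn hD hDH hX _)).sub
          (ib_exx hn hD hDH hX (fun l x => row x j l) (fun l => ent_row j l) k β Finset.univ))
    refine ⟨_, _, ?_, (((r1.trans r2).trans r3).trans r4).trans r5, ?_⟩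
    · unfold queryCost; omega
    · intro f hf
      rw [Set.mem_singleton_iff.1 hf]
      exact a5
  · -- value
    intro G _
    obtain ⟨G1, c1, hc1, r1, a1⟩ := der_exx hn (fun l x => cst x l) ent_cst k β G (by simp)
    obtain ⟨G2, c2, hc2, r2, a2⟩ := der_exx hn (fun l x => cst x l) ent_cst k γ G1 (by simp)
    obtain ⟨G3, c3, hc3, r3, a3⟩ := der_dd hn (fun i => some (β i)) G2 (by simp)
    obtain ⟨G4, c4, hc4, r4, a4⟩ := der_dd hn (fun i => some (γ i)) G3 (by simp)
    have hsm : ∀ β' γ' : Fin n → Row m n, SmallVal (Idx m n) n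
        (fun x => (∑ l, cst x l * xx x k β' l) * dd x (fun i => some (γ' i))) := by
      intro β' γ' D H X hD hDH hX
      have hE := E_val hD hDH hn
      exact ⟨_, hE.1, hE.2, ((ib_exx hn hD hDH hX (fun l x => cst x l) ent_cst k β'
        Finset.univ).mul (ib_dd hn hD hDH hX _)).mono (B_val₁ hD hDH hn)⟩
    obtain ⟨G5, r5, a5⟩ := op_step (P := SmallVal (Idx m n) n) (dom := Set.univ)
      (h := fun x => (∑ l, cst x l * xx x k β l) * dd x (fun i => some (γ i)))
      Op.mul (r4.av (r3.av (r2.av (a1 _ rfl)))) (a4 _ rfl) (by simp) rfl (hsm β γ)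
    obtain ⟨G6, r6, a6⟩ := op_step (P := SmallVal (Idx m n) n) (dom := Set.univ)
      (h := fun x => (∑ l, cst x l * xx x k γ l) * dd x (fun i => some (β i)))
      Op.mul (r5.av (r4.av (r3.av (a2 _ rfl)))) (r5.av (r4.av (a3 _ rfl))) (by simp) rfl
      (hsm γ β)
    obtain ⟨G7, r7, a7⟩ := op_step (P := SmallVal (Idx m n) n) (dom := Set.univ)
      (h := fun x => qval x (.val k β γ))
      Op.sub (r6.av a5) a6 (by simp) rfl (by
        intro D H X hD hDH hX
        have hE := E_val hD hDH hn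
        refine ⟨_, hE.1, hE.2, IB.mono ?_ (B_val hD hDH hn)⟩
        exact ((ib_exx hn hD hDH hX (fun l x => cst x l) ent_cst k β
          Finset.univ).mul (ib_dd hn hD hDH hX _)).sub
          ((ib_exx hn hD hDH hX (fun l x => cst x l) ent_cst k γ
          Finset.univ).mul (ib_dd hn hD hDH hX _)))
    refine ⟨_, _, ?_, (((((r1.trans r2).trans r3).trans r4).trans r5).trans r6).trans r7, ?_⟩
    · unfold queryCost; omega
    · intro f hf
      rw [Set.mem_singleton_iff.1 hf]
      exact a7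
  · -- tight
    intro G _
    obtain ⟨G1, c1, hc1, r1, a1⟩ :=
      der_ents hn (fun l x => row x j l) (fun l => ent_row j l) G (by simp)
    have hib : ∀ {D H : ℕ} {X : Idx m n → ℤ}, 1 ≤ D → D ≤ H → (∀ i, |X i| ≤ H) →
        ∀ t : Finset (Fin n), IB (∑ l ∈ t, row (fun i => (X i : ℝ) / D) j l *
          vtx (fun i => (X i : ℝ) / D) l) (D * D) (n * (H * H)) := by
      intro D H X hD hDH hX t
      refine (IB.sum t fun l _ => (ib_ent hD hDH hX (ent_row j l)).mul
        (ib_ent hD hDH hX (ent_vtx l))).mono ?_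
      exact Nat.mul_le_mul_right _ ((Finset.card_le_univ t).trans (by simp))
    have hsum : ∀ t ⊆ (Finset.univ : Finset (Fin n)), SmallVal (Idx m n) n
        (fun x => ∑ l ∈ t, row x j l * vtx x l) := by
      intro t _ D H X hD hDH hX
      have hE := E_tight hD hDH hn
      exact ⟨_, hE.1, hE.2, (hib hD hDH hX t).mono
        ((Nat.le_add_left _ _).trans (B_tight hD hDH hn))⟩
    have h2 := Der.dot (P := SmallVal (Idx m n) n) (dom := Set.univ)
      (K := {f | ∃ l, f = (fun x => row x j l : Fn (Idx m n))})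
      (Finset.univ : Finset (Fin n)) (fun l x => row x j l) (fun l x => vtx x l)
      (fun l _ G hG => hG _ ⟨l, rfl⟩) (fun l _ G hG => Or.inl ⟨_, rfl⟩)
      (fun l _ => by simpa using hsum {l} (by simp)) hsum
    rw [Finset.card_univ, Fintype.card_fin] at h2
    obtain ⟨G2, c2, hc2, r2, a2⟩ := h2 G1 (fun f hf => a1 f hf)
    obtain ⟨G3, c3, hc3, r3, a3⟩ := der_ent hn (ent_rhs none j) G2 (by simp)
    obtain ⟨G4, r4, a4⟩ := op_step (P := SmallVal (Idx m n) n) (dom := Set.univ)
      (h := fun x => qval x (.tight j))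
      Op.sub (a3 _ rfl) (r3.av (a2 _ rfl)) (by simp) rfl (by
        intro D H X hD hDH hX
        have hE := E_tight hD hDH hn
        refine ⟨_, hE.1, hE.2, IB.mono ?_ (B_tight hD hDH hn)⟩
        exact ((ib_ent hD hDH hX (ent_rhs none j)).scale D).sub (hib hD hDH hX Finset.univ))
    refine ⟨_, _, ?_, ((r1.trans r2).trans r3).trans r4, ?_⟩
    · unfold queryCost; omega
    · intro f hf
      rw [Set.mem_singleton_iff.1 hf]
      exact a4

/-- the coordinates of a basic solution -/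
theorem der_pt (β : Fin n → Row m n) :
    Der (SmallVal (Idx m n) n) {x | dd x (fun i => some (β i)) ≠ 0} ∅
      (n * minorCost n + minorCost n + n) {f | ∃ l, f = fun x => pt x β l} := by
  have h1 := (der_xxs hn none β).dom_mono
    (Set.subset_univ {x | dd x (fun i => some (β i)) ≠ 0})
  have h2 := (der_dd hn (fun i => some (β i))).dom_mono
    (Set.subset_univ {x | dd x (fun i => some (β i)) ≠ 0})
  have h3 := Der.iUnion (P := SmallVal (Idx m n) n)
    (dom := {x | dd x (fun i => some (β i)) ≠ 0})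
    (K := {f | ∃ l, f = fun x => xx x none β l} ∪ {fun x => dd x (fun i => some (β i))})
    (c := 1) (Finset.univ : Finset (Fin n)) (S := fun l => {fun x => pt x β l})
    (fun l _ => by
      have e : (fun x => pt x β l) = fun x => Op.div.eval ((fun x => xx x none β l) x)
        ((fun x => dd x (fun i => some (β i))) x) := rfl
      rw [e]
      refine Der.op Op.div _ _ (fun G hG => hG _ (Or.inl ⟨l, rfl⟩))
        (fun G hG => hG _ (Or.inr rfl)) (fun _ x hx => hx) ?_
      intro D H X hD hDH hX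
      obtain ⟨E', h1, h2, h3⟩ := (ib_xx hn hD hDH hX none β l).quot
        (ib_dd hn hD hDH hX (fun i => some (β i)))
        (big_E₁ hD hDH hn n n le_rfl le_rfl).1 (big₀_pos hD hDH hn)
      exact ⟨E', h1, h2.trans (big₀_le_big hD hDH hn), h3.mono (big₀_le_big hD hDH hn)⟩)
  intro G _
  obtain ⟨G1, c1, hc1, r1, a1⟩ := h1 G (by simp)
  obtain ⟨G2, c2, hc2, r2, a2⟩ := h2 G1 (by simp)
  obtain ⟨G3, c3, hc3, r3, a3⟩ := h3 G2 (by
    rintro f (hf | hf)
    · exact r2.av (a1 f hf)
    · exact a2 f hf)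
  rw [Finset.card_univ, Fintype.card_fin] at hc3
  refine ⟨_, _, by omega, (r1.trans r2).trans r3, ?_⟩
  rintro f ⟨l, rfl⟩
  apply a3
  simp only [Finset.mem_univ, Set.iUnion_true, Set.mem_iUnion, Set.mem_singleton_iff]
  exact ⟨l, rfl⟩

end Programs

/-! ### Encoding length -/

lemma size_le_of_lt {a k : ℕ} (h : a ≤ 2 ^ k) : Nat.size a ≤ k + 1 := by
  rw [Nat.size_le]
  calc a ≤ 2 ^ k := h
    _ < 2 ^ (k + 1) := Nat.pow_lt_pow_right (by omega) (by omega)

lemma bitLength_of_IB {v : ℝ} {E B k : ℕ} (h : IB v E B) (hE : 1 ≤ E) (hE' : E ≤ 2 ^ k)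
    (hB : B ≤ 2 ^ k) : ∃ q : ℚ, (q : ℝ) = v ∧ bitLength q ≤ 2 * k + 3 := by
  obtain ⟨N, h1, h2⟩ := h
  have hE0 : (E : ℝ) ≠ 0 := by positivity
  refine ⟨(N : ℚ) / (E : ℚ), ?_, ?_⟩
  · push_cast
    rw [← h1]
    field_simp
  · have hd : ((N : ℚ) / (E : ℚ)).den ∣ E := by
      have := Rat.den_dvd N E
      rw [Rat.divInt_eq_div] at this
      exact_mod_cast this
    have hn : ((N : ℚ) / (E : ℚ)).num.natAbs ≤ N.natAbs := by
      have h3 : ((N : ℚ) / (E : ℚ)).num ∣ N := by
        have := Rat.num_dvd N (b := (E : ℤ)) (by exact_mod_cast (by omega : E ≠ 0))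
        rw [Rat.divInt_eq_div] at this
        exact_mod_cast this
      rcases eq_or_ne N 0 with h0 | h0
      · simp [h0]
      · exact Int.natAbs_le_of_dvd_ne_zero h3 h0
    have h4 : N.natAbs ≤ 2 ^ k := by
      have h5 : (N.natAbs : ℤ) ≤ B := by
        rw [Int.natCast_natAbs]
        exact h2
      exact (by exact_mod_cast h5 : N.natAbs ≤ B).trans hB
    have h6 : Nat.size ((N : ℚ) / (E : ℚ)).num.natAbs ≤ k + 1 := size_le_of_lt (hn.trans h4)
    have h7 : Nat.size ((N : ℚ) / (E : ℚ)).den ≤ k + 1 :=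
      size_le_of_lt ((Nat.le_of_dvd hE hd).trans hE')
    unfold bitLength
    omega

lemma le_two_pow_size (a : ℕ) : a ≤ 2 ^ Nat.size a := (Nat.lt_size_self a).le

/-- Values of small functions on rational inputs have small encoding length. -/
lemma small_bitLength (hn : 1 ≤ n) (f : Fn (Idx m n)) (hf : SmallVal (Idx m n) n f)
    (r : Idx m n → ℚ) :
    ∃ q : ℚ, (q : ℝ) = f (fun k => ((r k : ℚ) : ℝ)) ∧
      bitLength q ≤ 1000 * inputLength r ^ 2 := by
  set ℓ := inputLength r with hℓ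
  have hℓ' : ℓ = ∑ k, bitLength (r k) := rfl
  have hnℓ : n ≤ ℓ := by
    have h1 : ∀ i, 1 ≤ bitLength (r i) := fun i => by unfold bitLength; omega
    have h2 : Fintype.card (Idx m n) ≤ ∑ i, bitLength (r i) := by
      calc Fintype.card (Idx m n) = ∑ _i : Idx m n, 1 := by simp
        _ ≤ ∑ i, bitLength (r i) := Finset.sum_le_sum fun i _ => h1 i
    have h3 : n ≤ Fintype.card (Idx m n) := by
      simp only [Fintype.card_sum, Fintype.card_prod, Fintype.card_fin]
      omega
    omega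
  set D := ∏ k, (r k).den with hD
  have hDpos : 1 ≤ D := Finset.prod_pos fun k _ => (r k).den_pos
  have hDle : D ≤ 2 ^ ℓ := by
    calc D ≤ ∏ k, 2 ^ bitLength (r k) := by
          apply Finset.prod_le_prod' 
          intro k _
          refine (le_two_pow_size _).trans (Nat.pow_le_pow_right (by omega) ?_)
          unfold bitLength
          omega
      _ = 2 ^ ℓ := by rw [Finset.prod_pow_eq_pow_sum, hℓ']
  have hdvd : ∀ k, (r k).den ∣ D := fun k => Finset.dvd_prod_of_mem _ (Finset.mem_univ k)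
  set X : Idx m n → ℤ := fun k => (r k).num * (D / (r k).den : ℕ) with hX
  have hXval : ∀ k, ((X k : ℤ) : ℝ) / D = ((r k : ℚ) : ℝ) := by
    intro k
    obtain ⟨c, hc⟩ := hdvd k
    have hdk : 0 < (r k).den := (r k).den_pos
    have hdiv : D / (r k).den = c := by
      rw [hc, Nat.mul_div_cancel_left _ hdk]
    have hD0 : (D : ℝ) ≠ 0 := by positivity
    have hc0 : (c : ℝ) ≠ 0 := by
      intro h
      have : c = 0 := by exact_mod_cast h
      rw [this, mul_zero] at hc
      omega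
    have hdk' : ((r k).den : ℝ) ≠ 0 := by positivity
    have e : ((r k : ℚ) : ℝ) = ((r k).num : ℝ) / ((r k).den : ℝ) := by
      conv_lhs => rw [← Rat.num_div_den (r k)]
      push_cast
      rfl
    rw [e]
    simp only [hX]
    rw [hdiv]
    have hDc : (D : ℝ) = (r k).den * c := by exact_mod_cast hc
    rw [hDc]
    push_cast
    field_simp
  have hXle : ∀ k, |X k| ≤ ((4 ^ ℓ : ℕ) : ℤ) := by
    intro k
    simp only [hX]
    rw [abs_mul]
    have h1 : |(r k).num| ≤ ((2 ^ ℓ : ℕ) : ℤ) := by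
      rw [← Int.natCast_natAbs]
      have h2 : bitLength (r k) ≤ ℓ := by
        rw [hℓ']
        exact Finset.single_le_sum (f := fun k => bitLength (r k)) (fun _ _ => Nat.zero_le _)
          (Finset.mem_univ k)
      have h3 : (r k).num.natAbs ≤ 2 ^ ℓ :=
        (le_two_pow_size _).trans (Nat.pow_le_pow_right (by omega) (by
          unfold bitLength at h2; omega))
      exact_mod_cast h3
    have h2 : |((D / (r k).den : ℕ) : ℤ)| ≤ ((2 ^ ℓ : ℕ) : ℤ) := by
      rw [abs_of_nonneg (by positivity)]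
      exact_mod_cast (Nat.div_le_self _ _).trans hDle
    calc |(r k).num| * |((D / (r k).den : ℕ) : ℤ)| ≤ ((2 ^ ℓ : ℕ) : ℤ) * ((2 ^ ℓ : ℕ) : ℤ) :=
          mul_le_mul h1 h2 (abs_nonneg _) (by positivity)
      _ = ((4 ^ ℓ : ℕ) : ℤ) := by
          rw [← Nat.cast_mul, ← mul_pow]
          norm_num
  have hDH : D ≤ 4 ^ ℓ := hDle.trans (Nat.pow_le_pow_left (by omega) _)
  obtain ⟨E, hE1, hE2, hIB⟩ := hf D (4 ^ ℓ) X hDpos hDH hXle
  have hbig : big n (4 ^ ℓ) ≤ 2 ^ ((5 * ℓ + 1) * (2 * ℓ + 3)) := by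
    unfold big
    rw [pow_mul]
    have h1 : 2 * n ^ 3 * 4 ^ ℓ ≤ 2 ^ (5 * ℓ + 1) := by
      have h2 : n ^ 3 ≤ 2 ^ (3 * ℓ) := by
        rw [mul_comm, pow_mul]
        exact Nat.pow_le_pow_left (hnℓ.trans Nat.lt_two_pow_self.le) 3
      calc 2 * n ^ 3 * 4 ^ ℓ ≤ 2 * 2 ^ (3 * ℓ) * 4 ^ ℓ := by gcongr
        _ = 2 ^ (5 * ℓ + 1) := by
            have h4 : (4 : ℕ) ^ ℓ = 2 ^ (2 * ℓ) := by rw [pow_mul]; norm_num
            rw [h4]
            ring
    calc (2 * n ^ 3 * 4 ^ ℓ) ^ (2 * n + 3) ≤ (2 ^ (5 * ℓ + 1)) ^ (2 * n + 3) :=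
          Nat.pow_le_pow_left h1 _
      _ ≤ (2 ^ (5 * ℓ + 1)) ^ (2 * ℓ + 3) :=
          Nat.pow_le_pow_right (Nat.pow_pos (by omega)) (by omega)
  obtain ⟨q, hq1, hq2⟩ := bitLength_of_IB hIB hE1 (hE2.trans hbig) hbig
  refine ⟨q, ?_, hq2.trans ?_⟩
  · rw [hq1]
    congr 1
    ext k
    exact hXval k
  · have h1 : 1 ≤ ℓ := hn.trans hnℓ
    nlinarith

lemma minorCost_le (hn : 1 ≤ n) : minorCost n ≤ 6 * (n + 1) ^ 4 := by
  unfold minorCost
  have c1 : (n - 1) * roundCost n + roundCost n = n * roundCost n := by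
    obtain ⟨n', rfl⟩ : ∃ n', n = n' + 1 := ⟨n - 1, by omega⟩
    rw [Nat.add_sub_cancel]
    ring
  have c2 : n * n + n * roundCost n + 1 ≤ 6 * (n + 1) ^ 4 := by
    unfold roundCost
    have : 0 ≤ n ^ 4 := Nat.zero_le _
    nlinarith [Nat.zero_le (n ^ 3), Nat.zero_le (n ^ 2)]
  omega

end Tr

/-- A query tree whose leaves name lists of bases becomes an algebraic computation tree which
visits the corresponding basic solutions. -/
theorem exists_pivotTree (m n : ℕ) (hn : 1 ≤ n) (T : QT (Qr m n) (List (Fin n → Row m n))) :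
    ∃ T' : PivotTree (Idx m n) n, ∀ x : Idx m n → ℝ,
      (∀ β ∈ T.eval (pat x), dd x (fun i => some (β i)) ≠ 0) →
      ∃ r : Outcome n, T'.run x [] = some r ∧ r.visited = (T.eval (pat x)).map (pt x) ∧
        r.steps ≤ (T.depth + (T.eval (pat x)).length) * (100 * (n + 1) ^ 5) ∧
        ∀ X : Idx m n → ℚ, (∀ k, x k = X k) → ∀ v ∈ r.numbers,
          ∃ q : ℚ, (q : ℝ) = v ∧ bitLength q ≤ 1000 * inputLength X ^ 2 := by
  have hmc := Tr.minorCost_le hn
  have hpow : (n + 1) ^ 4 * (n + 1) = (n + 1) ^ 5 := by ring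
  have h14 : 1 ≤ (n + 1) ^ 4 := Nat.one_le_pow _ _ (by omega)
  have hn1 : n + 1 ≤ (n + 1) ^ 5 := by
    calc n + 1 = 1 * (n + 1) := by ring
      _ ≤ (n + 1) ^ 4 * (n + 1) := Nat.mul_le_mul_right _ h14
      _ = (n + 1) ^ 5 := hpow
  have hmc' : (n + 1) * Tr.minorCost n ≤ 6 * (n + 1) ^ 5 := by
    calc (n + 1) * Tr.minorCost n ≤ (n + 1) * (6 * (n + 1) ^ 4) := Nat.mul_le_mul_left _ hmc
      _ = 6 * (n + 1) ^ 5 := by ring
  have hmc2 : n * Tr.minorCost n + Tr.minorCost n ≤ 6 * (n + 1) ^ 5 := by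
    calc n * Tr.minorCost n + Tr.minorCost n = (n + 1) * Tr.minorCost n := by ring
      _ ≤ _ := hmc'
  have hq : Tr.queryCost n + 1 ≤ 100 * (n + 1) ^ 5 := by
    unfold Tr.queryCost
    omega
  have hp : (n * Tr.minorCost n + Tr.minorCost n + n) + 1 ≤ 100 * (n + 1) ^ 5 := by
    omega
  obtain ⟨T', hT'⟩ := Tr.toTree (n := n) (P := Tr.SmallVal (Idx m n) n)
    (f := fun q x => qval x q) (c := Tr.queryCost n) (C := 100 * (n + 1) ^ 5)
    (good := fun L x => ∀ β ∈ L, x ∈ {x | dd x (fun i => some (β i)) ≠ 0})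
    (vis := fun L x => L.map (pt x)) (len := List.length) hq
    (fun q => Tr.der_query hn q)
    (fun L G hG => by
      obtain ⟨T1, hT1⟩ := Tr.moves (P := Tr.SmallVal (Idx m n) n) _
        (fun β : Fin n → Row m n => {x | dd x (fun i => some (β i)) ≠ 0})
        (fun β x => pt x β) (fun β => Tr.der_pt hn β) L G hG
      refine ⟨T1, fun x hx => ?_⟩
      obtain ⟨r, h1, h2, h3, h4⟩ := hT1 x hx
      exact ⟨r, h1, h2, h3.trans (Nat.mul_le_mul_left _ hp), h4⟩)
    T [] (by simp)
  refine ⟨T', fun x hx => ?_⟩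
  obtain ⟨r, h1, h2, h3, h4⟩ := hT' x hx
  refine ⟨r, h1, h2, h3, ?_⟩
  intro X hX v hv
  obtain ⟨g, hg, rfl⟩ := h4 v hv
  have e : x = fun k => ((X k : ℚ) : ℝ) := funext hX
  rw [e]
  exact Tr.small_bitLength hn g hg X

end Pool.Agent.H24R2
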