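import Pool.Agent.H24R2.RealLP
import Pool.Agent.H24R2.KK
import Pool.Agent.H24R2.Tree

set_option autoImplicit false

/-!
# Perturbation of the right-hand side and the local axioms
-/

namespace Pool.Agent.H24R2

open Matrix Function Filter Topology

/-! ### Signs of polynomials near zero -/

/-- the first nonzero sign -/
def lexs : List SignType → SignType
  | [] => 0
  | s :: l => if s = 0 then lexs l else s

/-- Horner evaluation -/
noncomputable def hor (ε : ℝ) : List ℝ → ℝ
  | [] => 0
  | a :: l => a + ε * hor ε l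

lemma continuous_hor (l : List ℝ) : Continuous fun ε => hor ε l := by
  induction l with
  | nil => exact continuous_const
  | cons a l ih => exact continuous_const.add (continuous_id.mul ih)

lemma eventually_sign_hor (l : List ℝ) :
    ∀ᶠ ε in 𝓝[>] (0 : ℝ), SignType.sign (hor ε l) = lexs (l.map SignType.sign) := by
  induction l with
  | nil => exact Eventually.of_forall fun ε => by simp [hor, lexs]
  | cons a l ih =>
    have hpos : ∀ᶠ ε in 𝓝[>] (0 : ℝ), 0 < ε := eventually_mem_nhdsWithin
    rcases lt_trichotomy a 0 with ha | ha | ha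
    · have h1 : Tendsto (fun ε => hor ε (a :: l)) (𝓝[>] 0) (𝓝 (hor 0 (a :: l))) :=
        ((continuous_hor (a :: l)).tendsto 0).mono_left nhdsWithin_le_nhds
      have h2 : hor 0 (a :: l) = a := by simp [hor]
      rw [h2] at h1
      filter_upwards [h1.eventually (gt_mem_nhds ha)] with ε hε
      simp only [List.map_cons, lexs, sign_neg ha, sign_neg hε]
      rw [if_neg (by decide)]
    · subst ha
      filter_upwards [ih, hpos] with ε h1 h2
      simp only [hor, List.map_cons, lexs, sign_zero, if_true, zero_add, sign_mul, sign_pos h2,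
        one_mul, h1]
    · have h1 : Tendsto (fun ε => hor ε (a :: l)) (𝓝[>] 0) (𝓝 (hor 0 (a :: l))) :=
        ((continuous_hor (a :: l)).tendsto 0).mono_left nhdsWithin_le_nhds
      have h2 : hor 0 (a :: l) = a := by simp [hor]
      rw [h2] at h1
      filter_upwards [h1.eventually (lt_mem_nhds ha)] with ε hε
      simp only [List.map_cons, lexs, sign_pos ha, sign_pos hε]
      rw [if_neg (by decide)]

lemma lexs_ne_zero {l : List SignType} (h : ∃ s ∈ l, s ≠ 0) : lexs l ≠ 0 := by
  induction l with
  | nil =>
    obtain ⟨s, hs, -⟩ := h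
    simp at hs
  | cons s l ih =>
    unfold lexs
    split_ifs with hs
    · apply ih
      obtain ⟨t, ht, ht'⟩ := h
      rcases List.mem_cons.1 ht with rfl | ht
      · exact absurd hs ht'
      · exact ⟨t, ht, ht'⟩
    · exact hs

lemma hor_nonneg {ε : ℝ} (hε : 0 ≤ ε) {l : List ℝ} (h : ∀ a ∈ l, 0 ≤ a) : 0 ≤ hor ε l := by
  induction l with
  | nil => exact le_rfl
  | cons a l ih =>
    unfold hor
    exact add_nonneg (h a (by simp)) (mul_nonneg hε (ih fun b hb => h b (by simp [hb])))

lemma hor_zero {ε : ℝ} {l : List ℝ} (h : ∀ a ∈ l, a = 0) : hor ε l = 0 := by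
  induction l with
  | nil => rfl
  | cons a l ih =>
    unfold hor
    rw [h a (by simp), ih fun b hb => h b (by simp [hb])]
    simp

/-! ### The perturbed right-hand side -/

variable {m n : ℕ}

/-- The constraints outside the initial basis. -/
noncomputable def freeRows (β₀ : Fin n → Row m n) : List (Row m n) :=
  (Finset.univ.filter fun r => ∀ i, β₀ i ≠ r).toList

/-- The right-hand sides in the order of the perturbation. -/
noncomputable def keys (β₀ : Fin n → Row m n) : List (Option (Row m n)) :=
  none :: (freeRows β₀).map some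

/-- The perturbed right-hand side. -/
noncomputable def pB (x : Idx m n → ℝ) (β₀ : Fin n → Row m n) (ε : ℝ) : Row m n → ℝ :=
  fun r => hor ε ((keys β₀).map fun k => rhs x k r)

lemma linear_hor (Λ : (Row m n → ℝ) →ₗ[ℝ] ℝ) (x : Idx m n → ℝ) (ε : ℝ)
    (ks : List (Option (Row m n))) :
    Λ (fun r => hor ε (ks.map fun k => rhs x k r)) = hor ε (ks.map fun k => Λ (rhs x k)) := by
  induction ks with
  | nil =>
    have : (fun r : Row m n => hor ε ((([] : List (Option (Row m n))).map fun k => rhs x k r))) =
        0 := by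
      ext r; rfl
    rw [this, map_zero]
    rfl
  | cons k ks ih =>
    have : (fun r : Row m n => hor ε (((k :: ks).map fun k => rhs x k r))) =
        rhs x k + ε • fun r => hor ε (ks.map fun k => rhs x k r) := by
      ext r
      simp [hor]
    rw [this, map_add, map_smul, ih]
    simp [hor]

lemma num_add {ι : Type} (a : ι → Fin n → ℝ) (B B' : ι → ℝ) (β : Fin n → ι) (l : Fin n) :
    num a (B + B') β l = num a B β l + num a B' β l := by
  have h := congrFun ((cramer (bm a β)).map_add (fun i => B (β i)) (fun i => B' (β i))) l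
  simp only [Pi.add_apply, cramer_apply] at h
  exact h

lemma num_smul {ι : Type} (a : ι → Fin n → ℝ) (t : ℝ) (B : ι → ℝ) (β : Fin n → ι) (l : Fin n) :
    num a (t • B) β l = t * num a B β l := by
  have h := congrFun ((cramer (bm a β)).map_smul t (fun i => B (β i))) l
  simp only [Pi.smul_apply, cramer_apply, smul_eq_mul] at h
  exact h

/-- the slack polynomial -/
noncomputable def slackL {ι : Type} (a : ι → Fin n → ℝ) (β : Fin n → ι) (j : ι) :
    (ι → ℝ) →ₗ[ℝ] ℝ where
  toFun B := B j * dt a β - ∑ l, a j l * num a B β l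
  map_add' B B' := by
    simp only [num_add, Pi.add_apply, mul_add, Finset.sum_add_distrib]
    ring
  map_smul' t B := by
    simp only [num_smul, Pi.smul_apply, smul_eq_mul, RingHom.id_apply, mul_sub, Finset.mul_sum]
    congr 1
    · ring
    · refine Finset.sum_congr rfl fun l _ => ?_
      ring

/-- the comparison polynomial -/
noncomputable def valL {ι : Type} (a : ι → Fin n → ℝ) (c : Fin n → ℝ) (β γ : Fin n → ι) :
    (ι → ℝ) →ₗ[ℝ] ℝ where
  toFun B := (∑ l, c l * num a B β l) * dt a γ - (∑ l, c l * num a B γ l) * dt a β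
  map_add' B B' := by
    simp only [num_add, mul_add, Finset.sum_add_distrib]
    ring
  map_smul' t B := by
    simp only [num_smul, smul_eq_mul, RingHom.id_apply]
    have e : ∀ δ : Fin n → ι, ∑ l, c l * (t * num a B δ l) = t * ∑ l, c l * num a B δ l := by
      intro δ
      rw [Finset.mul_sum]
      refine Finset.sum_congr rfl fun l _ => ?_
      ring
    rw [e, e]
    ring

lemma slackL_eq {ι : Type} {a : ι → Fin n → ℝ} {β : Fin n → ι} (h : dt a β ≠ 0) (B : ι → ℝ)
    (j : ι) : slackL a β j B = sk a B β j * dt a β := by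
  change B j * dt a β - ∑ l, a j l * num a B β l = (B j - ∑ l, a j l * (num a B β l / dt a β)) *
    dt a β
  rw [sub_mul, Finset.sum_mul]
  congr 1
  refine Finset.sum_congr rfl fun l _ => ?_
  field_simp

lemma valL_eq {ι : Type} {a : ι → Fin n → ℝ} {c : Fin n → ℝ} {β γ : Fin n → ι}
    (h : dt a β ≠ 0) (h' : dt a γ ≠ 0) (B : ι → ℝ) :
    valL a c β γ B = (c ⬝ᵥ bpt a B β - c ⬝ᵥ bpt a B γ) * (dt a β * dt a γ) := by
  change (∑ l, c l * num a B β l) * dt a γ - (∑ l, c l * num a B γ l) * dt a β =
    ((∑ l, c l * (num a B β l / dt a β)) - ∑ l, c l * (num a B γ l / dt a γ)) *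
      (dt a β * dt a γ)
  have e1 : (∑ l, c l * (num a B β l / dt a β)) = (∑ l, c l * num a B β l) / dt a β := by
    rw [Finset.sum_div]
    exact Finset.sum_congr rfl fun l _ => by ring
  have e2 : (∑ l, c l * (num a B γ l / dt a γ)) = (∑ l, c l * num a B γ l) / dt a γ := by
    rw [Finset.sum_div]
    exact Finset.sum_congr rfl fun l _ => by ring
  rw [e1, e2]
  field_simp

lemma rhs_some (x : Idx m n → ℝ) (r r' : Row m n) :
    rhs x (some r) r' = if r = r' then 1 else 0 := by
  cases r' <;> rfl

lemma qval_slack (x : Idx m n → ℝ) (k : Option (Row m n)) (β : Fin n → Row m n) (j : Row m n) :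
    qval x (.slack k β j) = slackL (row x) β j (rhs x k) := rfl

lemma qval_val (x : Idx m n → ℝ) (k : Option (Row m n)) (β γ : Fin n → Row m n) :
    qval x (.val k β γ) = valL (row x) (cst x) β γ (rhs x k) := rfl

lemma qval_det (x : Idx m n → ℝ) (β : Fin n → Row m n) :
    qval x (.det fun i => some (β i)) = dt (row x) β := rfl

lemma slackL_unit {x : Idx m n → ℝ} {β : Fin n → Row m n} (h : dt (row x) β ≠ 0)
    (r j : Row m n) : slackL (row x) β j (rhs x (some r)) =
      ((if r = j then 1 else 0) - ∑ i, lm (row x) β i (row x j) * (if r = β i then 1 else 0)) *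
        dt (row x) β := by
  rw [slackL_eq h]
  congr 1
  unfold sk
  rw [dot_eq h (row x j) (bpt (row x) (rhs x (some r)) β)]
  congr 1
  refine Finset.sum_congr rfl fun i _ => ?_
  rw [dot_bpt h]
  rfl

/-- Nondegeneracy of the perturbation. -/
lemma exists_unit_ne {x : Idx m n → ℝ} {β₀ β : Fin n → Row m n} (h₀ : dt (row x) β₀ ≠ 0)
    (h : dt (row x) β ≠ 0) (j : Row m n) (hj : ∀ i, β i ≠ j) :
    ∃ r, (∀ i, β₀ i ≠ r) ∧ slackL (row x) β j (rhs x (some r)) ≠ 0 := by
  classical
  by_contra hcon
  push Not at hcon
  have hcon' : ∀ r, (∀ i, β₀ i ≠ r) →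
      ((if r = j then (1 : ℝ) else 0) -
        ∑ i, lm (row x) β i (row x j) * (if r = β i then 1 else 0)) = 0 := by
    intro r hr
    have h1 := hcon r hr
    rw [slackL_unit h] at h1
    exact (mul_eq_zero.1 h1).resolve_right h
  by_cases hj0 : ∀ i, β₀ i ≠ j
  · have h1 := hcon' j hj0
    rw [if_pos rfl, Finset.sum_eq_zero, sub_zero] at h1
    · norm_num at h1
    · intro i _
      rw [if_neg (fun h => hj i h.symm), mul_zero]
  · push Not at hj0
    obtain ⟨i₀, rfl⟩ := hj0
    -- the coordinates outside the initial basis vanish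
    have hinj := injective_of_dt h
    have hzero : ∀ i, (∀ k, β₀ k ≠ β i) → lm (row x) β i (row x (β₀ i₀)) = 0 := by
      intro i hi
      have h1 := hcon' (β i) hi
      rw [if_neg (hj i), zero_sub, neg_eq_zero, Finset.sum_eq_single i] at h1
      · simpa using h1
      · intro k _ hk
        rw [if_neg (fun h => hk (hinj h).symm), mul_zero]
      · intro hi'
        exact absurd (Finset.mem_univ i) hi'
    -- evaluate on the direction of the initial basis
    have h2 := dot_eq h (row x (β₀ i₀)) (dir (row x) β₀ i₀)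
    rw [dot_dir_self h₀, if_pos rfl, Finset.sum_eq_zero] at h2
    · norm_num at h2
    · intro i _
      by_cases hi : ∀ k, β₀ k ≠ β i
      · rw [hzero i hi, zero_mul]
      · push Not at hi
        obtain ⟨k, hk⟩ := hi
        rw [← hk, dot_dir_self h₀, if_neg, mul_zero]
        rintro rfl
        exact hj i hk.symm

/-- The perturbed right-hand side realizes all lexicographic signs. -/
theorem exists_pert (x : Idx m n → ℝ) (β₀ : Fin n → Row m n) :
    ∃ B : Row m n → ℝ,
      (∀ β j, SignType.sign (slackL (row x) β j B) =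
        lexs ((keys β₀).map fun k => pat x (.slack k β j))) ∧
      (∀ β γ, SignType.sign (valL (row x) (cst x) β γ B) =
        lexs ((keys β₀).map fun k => pat x (.val k β γ))) ∧
      (∀ r, rhs x none r ≤ B r) ∧ (∀ i, B (β₀ i) = rhs x none (β₀ i)) := by
  have h1 : ∀ᶠ ε in 𝓝[>] (0 : ℝ), ∀ p : (Fin n → Row m n) × Row m n,
      SignType.sign (hor ε ((keys β₀).map fun k => qval x (.slack k p.1 p.2))) =
        lexs ((keys β₀).map fun k => pat x (.slack k p.1 p.2)) := by
    rw [eventually_all]
    intro p
    have := eventually_sign_hor ((keys β₀).map fun k => qval x (.slack k p.1 p.2))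
    simpa [List.map_map, pat, Function.comp_def] using this
  have h2 : ∀ᶠ ε in 𝓝[>] (0 : ℝ), ∀ p : (Fin n → Row m n) × (Fin n → Row m n),
      SignType.sign (hor ε ((keys β₀).map fun k => qval x (.val k p.1 p.2))) =
        lexs ((keys β₀).map fun k => pat x (.val k p.1 p.2)) := by
    rw [eventually_all]
    intro p
    have := eventually_sign_hor ((keys β₀).map fun k => qval x (.val k p.1 p.2))
    simpa [List.map_map, pat, Function.comp_def] using this
  have hpos : ∀ᶠ ε in 𝓝[>] (0 : ℝ), 0 < ε := eventually_mem_nhdsWithin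
  obtain ⟨ε, h1, h2, hε⟩ := (h1.and (h2.and hpos)).exists
  refine ⟨pB x β₀ ε, ?_, ?_, ?_, ?_⟩
  · intro β j
    rw [← h1 (β, j)]
    unfold pB
    rw [linear_hor]
    rfl
  · intro β γ
    rw [← h2 (β, γ)]
    unfold pB
    rw [linear_hor]
    rfl
  · intro r
    have : pB x β₀ ε r = rhs x none r + ε * hor ε (((freeRows β₀).map some).map
        fun k => rhs x k r) := rfl
    rw [this]
    have h3 : 0 ≤ hor ε (((freeRows β₀).map some).map fun k => rhs x k r) := by
      apply hor_nonneg hε.le
      intro b hb
      simp only [List.map_map, List.mem_map, Function.comp] at hb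
      obtain ⟨r', -, rfl⟩ := hb
      rw [rhs_some]
      split_ifs <;> norm_num
    have := mul_nonneg hε.le h3
    linarith
  · intro i
    have : pB x β₀ ε (β₀ i) = rhs x none (β₀ i) + ε * hor ε (((freeRows β₀).map some).map
        fun k => rhs x k (β₀ i)) := rfl
    rw [this, hor_zero, mul_zero, add_zero]
    intro b hb
    simp only [List.map_map, List.mem_map, Function.comp] at hb
    obtain ⟨r', hr', rfl⟩ := hb
    have hr'' : ∀ i, β₀ i ≠ r' := by
      simpa [freeRows] using hr'
    rw [rhs_some, if_neg]
    intro h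
    exact hr'' i h.symm

end Pool.Agent.H24R2
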