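import Pool.Agent.H24R2.Defs

set_option autoImplicit false

/-!
# Basic solutions, pivots and edges of polyhedra
-/

namespace Pool.Agent.H24R2

open Matrix Function

section Real

variable {ι : Type} {n : ℕ}

/-- the matrix of the rows of a basis -/
def bm (a : ι → Fin n → ℝ) (β : Fin n → ι) : Matrix (Fin n) (Fin n) ℝ := Matrix.of fun i => a (β i)

/-- the determinant of a basis -/
noncomputable def dt (a : ι → Fin n → ℝ) (β : Fin n → ι) : ℝ := (bm a β).det

/-- Cramer numerators -/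
noncomputable def num (a : ι → Fin n → ℝ) (B : ι → ℝ) (β : Fin n → ι) (l : Fin n) : ℝ :=
  ((bm a β).updateCol l (fun i => B (β i))).det

/-- the basic solution -/
noncomputable def bpt (a : ι → Fin n → ℝ) (B : ι → ℝ) (β : Fin n → ι) : Fin n → ℝ :=
  fun l => num a B β l / dt a β

/-- coordinates of a vector with respect to a basis -/
noncomputable def lm (a : ι → Fin n → ℝ) (β : Fin n → ι) (i : Fin n) (v : Fin n → ℝ) : ℝ :=
  ((bm a β).updateRow i v).det / dt a β

/-- slack of a constraint at the basic solution -/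
noncomputable def sk (a : ι → Fin n → ℝ) (B : ι → ℝ) (β : Fin n → ι) (j : ι) : ℝ :=
  B j - a j ⬝ᵥ bpt a B β

/-- the direction of the edge leaving the constraint `β i` -/
noncomputable def dir (a : ι → Fin n → ℝ) (β : Fin n → ι) (i : Fin n) : Fin n → ℝ :=
  -((dt a β)⁻¹ • (bm a β).cramer (Pi.single i 1))

variable {a : ι → Fin n → ℝ} {B : ι → ℝ} {β : Fin n → ι}

lemma bm_mulVec (z : Fin n → ℝ) (i : Fin n) : (bm a β *ᵥ z) i = a (β i) ⬝ᵥ z := rfl

lemma bpt_eq : bpt a B β = (dt a β)⁻¹ • (bm a β).cramer (fun i => B (β i)) := by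
  ext l
  simp only [bpt, num, Pi.smul_apply, cramer_apply, smul_eq_mul]
  ring

lemma dot_bpt (h : dt a β ≠ 0) (i : Fin n) : a (β i) ⬝ᵥ bpt a B β = B (β i) := by
  have h1 := congrFun (mulVec_cramer (bm a β) (fun i => B (β i))) i
  rw [bm_mulVec] at h1
  rw [bpt_eq, dotProduct_smul, h1]
  simp only [Pi.smul_apply, smul_eq_mul]
  rw [← mul_assoc]
  change (dt a β)⁻¹ * dt a β * _ = _
  rw [inv_mul_cancel₀ h, one_mul]

lemma sum_lm (h : dt a β ≠ 0) (v : Fin n → ℝ) (l : Fin n) :
    ∑ i, lm a β i v * a (β i) l = v l := by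
  have h1 := congrFun (mulVec_cramer (bm a β)ᵀ v) l
  rw [det_transpose] at h1
  simp only [mulVec, dotProduct, transpose_apply, cramer_transpose_apply, Pi.smul_apply,
    smul_eq_mul] at h1
  have h2 : ∑ i, lm a β i v * a (β i) l =
      (∑ i, bm a β i l * ((bm a β).updateRow i v).det) / dt a β := by
    rw [Finset.sum_div]
    refine Finset.sum_congr rfl fun i _ => ?_
    simp only [lm, bm, of_apply]
    ring
  rw [h2, h1]
  change dt a β * v l / dt a β = v l
  field_simp

lemma dot_eq (h : dt a β ≠ 0) (v z : Fin n → ℝ) :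
    v ⬝ᵥ z = ∑ i, lm a β i v * (a (β i) ⬝ᵥ z) := by
  have h1 : ∀ l, v l = ∑ i, lm a β i v * a (β i) l := fun l => (sum_lm h v l).symm
  calc v ⬝ᵥ z = ∑ l, v l * z l := rfl
    _ = ∑ l, (∑ i, lm a β i v * a (β i) l) * z l := by
        refine Finset.sum_congr rfl fun l _ => ?_
        rw [← h1 l]
    _ = ∑ l, ∑ i, lm a β i v * a (β i) l * z l := by
        refine Finset.sum_congr rfl fun l _ => ?_
        rw [Finset.sum_mul]
    _ = ∑ i, ∑ l, lm a β i v * a (β i) l * z l := Finset.sum_comm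
    _ = ∑ i, lm a β i v * (a (β i) ⬝ᵥ z) := by
        refine Finset.sum_congr rfl fun i _ => ?_
        rw [dotProduct, Finset.mul_sum]
        refine Finset.sum_congr rfl fun l _ => ?_
        ring

lemma lm_self (h : dt a β ≠ 0) (i : Fin n) : lm a β i (a (β i)) = 1 := by
  unfold lm
  have : (bm a β).updateRow i (a (β i)) = bm a β := updateRow_eq_self _ _
  rw [this]
  exact div_self h

lemma lm_ne (i l : Fin n) (hl : l ≠ i) : lm a β i (a (β l)) = 0 := by
  unfold lm
  have : ((bm a β).updateRow i (a (β l))).det = 0 := by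
    apply det_zero_of_row_eq hl
    rw [updateRow_self, updateRow_ne hl]
    rfl
  rw [this, zero_div]

lemma eq_of_dot (h : dt a β ≠ 0) {z w : Fin n → ℝ}
    (hzw : ∀ i, a (β i) ⬝ᵥ z = a (β i) ⬝ᵥ w) : z = w := by
  have h1 : bm a β *ᵥ (z - w) = 0 := by
    ext i
    rw [bm_mulVec, dotProduct_sub, hzw i, sub_self]
    rfl
  have h2 := eq_zero_of_mulVec_eq_zero h h1
  exact sub_eq_zero.1 h2

lemma dot_dir_self (h : dt a β ≠ 0) (k i : Fin n) :
    a (β k) ⬝ᵥ dir a β i = if k = i then -1 else 0 := by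
  have h1 := congrFun (mulVec_cramer (bm a β) (Pi.single i (1 : ℝ))) k
  rw [bm_mulVec] at h1
  unfold dir
  rw [dotProduct_neg, dotProduct_smul, h1]
  simp only [Pi.smul_apply, smul_eq_mul, Pi.single_apply]
  split_ifs with hk
  · change -((dt a β)⁻¹ * (dt a β * 1)) = -1
    rw [mul_one, inv_mul_cancel₀ h]
  · simp

lemma dot_dir (h : dt a β ≠ 0) (v : Fin n → ℝ) (i : Fin n) :
    v ⬝ᵥ dir a β i = - lm a β i v := by
  rw [dot_eq h v (dir a β i)]
  simp only [dot_dir_self h]
  simp [Finset.sum_ite_eq']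

lemma bm_update (i : Fin n) (j : ι) : bm a (update β i j) = (bm a β).updateRow i (a j) := by
  ext k l
  by_cases hk : k = i
  · subst hk
    simp [bm]
  · simp [bm, updateRow_ne hk, update_of_ne hk]

lemma dt_update (h : dt a β ≠ 0) (i : Fin n) (j : ι) :
    dt a (update β i j) = lm a β i (a j) * dt a β := by
  unfold dt lm
  rw [bm_update]
  change _ = _ / dt a β * dt a β
  rw [div_mul_cancel₀ _ h]

lemma bpt_update (h : dt a β ≠ 0) (i : Fin n) (j : ι) (hl : lm a β i (a j) ≠ 0) :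
    bpt a B (update β i j) =
      bpt a B β + (-(sk a B β j) / lm a β i (a j)) • dir a β i := by
  have h' : dt a (update β i j) ≠ 0 := by
    rw [dt_update h]
    exact mul_ne_zero hl h
  apply eq_of_dot h'
  intro k
  rw [dot_bpt h']
  rw [dotProduct_add, dotProduct_smul, smul_eq_mul]
  by_cases hk : k = i
  · subst hk
    rw [update_self, dot_dir h]
    unfold sk
    field_simp
    ring
  · rw [update_of_ne hk, dot_bpt h, dot_dir_self h, if_neg hk]
    ring

lemma sk_update (h : dt a β ≠ 0) (i : Fin n) (j k : ι) (hl : lm a β i (a j) ≠ 0) :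
    sk a B (update β i j) k =
      sk a B β k - sk a B β j * (lm a β i (a k) / lm a β i (a j)) := by
  have e : sk a B (update β i j) k = B k - a k ⬝ᵥ bpt a B (update β i j) := rfl
  have e2 : sk a B β k = B k - a k ⬝ᵥ bpt a B β := rfl
  rw [e, bpt_update h i j hl, dotProduct_add, dotProduct_smul, smul_eq_mul, dot_dir h, e2]
  field_simp
  ring

lemma obj_update (h : dt a β ≠ 0) (c : Fin n → ℝ) (i : Fin n) (j : ι)
    (hl : lm a β i (a j) ≠ 0) :
    c ⬝ᵥ bpt a B (update β i j) =
      c ⬝ᵥ bpt a B β + sk a B β j * (lm a β i c / lm a β i (a j)) := by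
  rw [bpt_update h i j hl, dotProduct_add, dotProduct_smul, smul_eq_mul, dot_dir h]
  field_simp

lemma sk_self (h : dt a β ≠ 0) (i : Fin n) : sk a B β (β i) = 0 := by
  unfold sk
  rw [dot_bpt h, sub_self]

lemma dual_eq (h : dt a β ≠ 0) (c z : Fin n → ℝ) :
    c ⬝ᵥ bpt a B β - c ⬝ᵥ z = ∑ i, lm a β i c * (B (β i) - a (β i) ⬝ᵥ z) := by
  rw [dot_eq h c z, dot_eq h c (bpt a B β), ← Finset.sum_sub_distrib]
  refine Finset.sum_congr rfl fun i _ => ?_
  rw [dot_bpt h]
  ring

lemma injective_of_dt (h : dt a β ≠ 0) : Injective β := by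
  intro i j hij
  by_contra hne
  apply h
  unfold dt
  apply det_zero_of_row_eq hne
  ext l
  simp [bm, hij]

/-! ### Polyhedra -/

/-- the polyhedron -/
def poly (a : ι → Fin n → ℝ) (B : ι → ℝ) : Set (Fin n → ℝ) := {z | ∀ j, a j ⬝ᵥ z ≤ B j}

lemma tight_of_openSegment {v z z₁ z₂ : Fin n → ℝ} {b : ℝ} (h1 : v ⬝ᵥ z₁ ≤ b) (h2 : v ⬝ᵥ z₂ ≤ b)
    (hz : z ∈ openSegment ℝ z₁ z₂) (h : v ⬝ᵥ z = b) : v ⬝ᵥ z₁ = b := by
  obtain ⟨s, t, hs, ht, hst, rfl⟩ := hz
  rw [dotProduct_add, dotProduct_smul, dotProduct_smul, smul_eq_mul, smul_eq_mul] at h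
  have e : s * b + t * b = b := by rw [← add_mul, hst, one_mul]
  by_contra hne
  have h3 : v ⬝ᵥ z₁ < b := lt_of_le_of_ne h1 hne
  have h4 : s * (v ⬝ᵥ z₁) < s * b := mul_lt_mul_of_pos_left h3 hs
  have h5 : t * (v ⬝ᵥ z₂) ≤ t * b := mul_le_mul_of_nonneg_left h2 ht.le
  linarith

lemma mem_poly_iff (hj : ∀ j, 0 ≤ sk a B β j) : bpt a B β ∈ poly a B := by
  intro j
  have := hj j
  unfold sk at this
  linarith

/-- Feasible basic solutions are vertices. -/
lemma bpt_mem_extremePoints (h : dt a β ≠ 0) (hp : bpt a B β ∈ poly a B) :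
    bpt a B β ∈ (poly a B).extremePoints ℝ := by
  refine ⟨hp, ?_⟩
  intro z₁ h1 z₂ h2 hz
  apply eq_of_dot h
  intro i
  rw [dot_bpt h]
  exact tight_of_openSegment (h1 _) (h2 _) hz (dot_bpt h i)

/-- the points of `P` on the line of an edge -/
lemma on_line (h : dt a β ≠ 0) (i : Fin n) {z : Fin n → ℝ}
    (hz : ∀ k, k ≠ i → a (β k) ⬝ᵥ z = B (β k)) :
    z = bpt a B β + (B (β i) - a (β i) ⬝ᵥ z) • dir a β i := by
  apply eq_of_dot h
  intro k
  rw [dotProduct_add, dotProduct_smul, smul_eq_mul, dot_bpt h, dot_dir_self h]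
  by_cases hk : k = i
  · subst hk
    rw [if_pos rfl]
    ring
  · rw [if_neg hk, hz k hk]
    ring

/-- A pivot along which the basic solution changes is a step along an improving edge. -/
lemma step_of_pivot (h : dt a β ≠ 0) (c : Fin n → ℝ) (i : Fin n) (j : ι)
    (hp : bpt a B β ∈ poly a B) (hp' : bpt a B (update β i j) ∈ poly a B)
    (hmu : lm a β i c < 0) (hlam : lm a β i (a j) < 0)
    (hne : bpt a B β ≠ bpt a B (update β i j)) :
    Step (poly a B) c (bpt a B β) (bpt a B (update β i j)) := by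
  have h' : dt a (update β i j) ≠ 0 := by
    rw [dt_update h]
    exact mul_ne_zero hlam.ne h
  set t : ℝ := -(sk a B β j) / lm a β i (a j) with ht
  have hup := bpt_update (B := B) h i j hlam.ne
  rw [← ht] at hup
  have hs0 : 0 ≤ sk a B β j := by
    have := hp j
    unfold sk
    linarith
  have ht0 : 0 ≤ t := by
    rw [ht, neg_div, ← div_neg]
    exact div_nonneg hs0 (by linarith)
  have htpos : 0 < t := by
    rcases ht0.lt_or_eq with h1 | h1
    · exact h1
    · exfalso
      apply hne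
      rw [hup, ← h1, zero_smul, add_zero]
  refine ⟨bpt_mem_extremePoints h' hp', ⟨?_, ?_⟩, ?_⟩
  · -- the segment is contained in the polyhedron
    rintro z ⟨r, s, hr, hs, hrs, rfl⟩
    intro k
    rw [dotProduct_add, dotProduct_smul, dotProduct_smul, smul_eq_mul, smul_eq_mul]
    have h1 := mul_le_mul_of_nonneg_left (hp k) hr
    have h2 := mul_le_mul_of_nonneg_left (hp' k) hs
    calc _ ≤ r * B k + s * B k := add_le_add h1 h2
      _ = B k := by rw [← add_mul, hrs, one_mul]
  · intro z₁ h1 z₂ h2 z hz hzo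
    -- `z` satisfies the constraints of the line with equality
    have hzline : ∀ k, k ≠ i → a (β k) ⬝ᵥ z = B (β k) := by
      intro k hk
      obtain ⟨r, s, hr, hs, hrs, rfl⟩ := hz
      rw [hup, dotProduct_add, dotProduct_smul, dotProduct_smul, dotProduct_add,
        dotProduct_smul, dot_bpt h, dot_dir_self h, if_neg hk]
      simp only [smul_eq_mul, mul_zero, add_zero]
      rw [← add_mul, hrs, one_mul]
    have hz1line : ∀ k, k ≠ i → a (β k) ⬝ᵥ z₁ = B (β k) := fun k hk =>
      tight_of_openSegment (h1 _) (h2 _) hzo (hzline k hk)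
    have e1 := on_line h i hz1line
    set τ : ℝ := B (β i) - a (β i) ⬝ᵥ z₁ with hτ
    have hτ0 : 0 ≤ τ := by
      have := h1 (β i)
      linarith
    have hτt : τ ≤ t := by
      have h3 := h1 j
      rw [e1, dotProduct_add, dotProduct_smul, smul_eq_mul, dot_dir h] at h3
      have h4 : τ * (- lm a β i (a j)) ≤ sk a B β j := by
        unfold sk
        linarith
      rw [ht, neg_div, ← div_neg, le_div_iff₀ (by linarith)]
      exact h4
    rw [hup]
    refine ⟨1 - τ / t, τ / t, ?_, ?_, by ring, ?_⟩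
    · rw [sub_nonneg, div_le_one htpos]
      exact hτt
    · exact div_nonneg hτ0 ht0
    · rw [e1, smul_add, ← add_assoc, ← add_smul, smul_smul, div_mul_cancel₀ _ htpos.ne']
      congr 1
      have : (1 - τ / t + τ / t : ℝ) = 1 := by ring
      rw [this, one_smul]
  · change c ⬝ᵥ bpt a B β < c ⬝ᵥ bpt a B (update β i j)
    rw [hup, dotProduct_add, dotProduct_smul, smul_eq_mul, dot_dir h]
    have : 0 < t * (- lm a β i c) := mul_pos htpos (by linarith)
    linarith

/-- Optimality. -/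
lemma terminal_of_opt (h : dt a β ≠ 0) (c : Fin n → ℝ) (hmu : ∀ i, 0 ≤ lm a β i c) :
    Terminal (poly a B) c (bpt a B β) := by
  left
  intro z hz
  have h1 := dual_eq (B := B) h c z
  have h2 : 0 ≤ ∑ i, lm a β i c * (B (β i) - a (β i) ⬝ᵥ z) := by
    apply Finset.sum_nonneg
    intro i _
    have := hz (β i)
    exact mul_nonneg (hmu i) (by linarith)
  change c ⬝ᵥ z ≤ c ⬝ᵥ bpt a B β
  linarith

/-- Unbounded improving edges. -/
lemma terminal_of_ray (h : dt a β ≠ 0) (c : Fin n → ℝ) (i : Fin n)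
    (hp : bpt a B β ∈ poly a B) (hmu : lm a β i c < 0) (hlam : ∀ j, 0 ≤ lm a β i (a j)) :
    Terminal (poly a B) c (bpt a B β) := by
  right
  refine ⟨dir a β i, ⟨?_, ?_⟩, ?_⟩
  · rintro z ⟨t, ht, rfl⟩ j
    rw [dotProduct_add, dotProduct_smul, smul_eq_mul, dot_dir h]
    have h1 := hp j
    have h2 := mul_nonneg ht (hlam j)
    linarith
  · intro z₁ h1 z₂ h2 z hz hzo
    have hzline : ∀ k, k ≠ i → a (β k) ⬝ᵥ z = B (β k) := by
      intro k hk
      obtain ⟨t, ht, rfl⟩ := hz
      rw [dotProduct_add, dotProduct_smul, dot_bpt h, dot_dir_self h, if_neg hk]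
      simp
    have hz1line : ∀ k, k ≠ i → a (β k) ⬝ᵥ z₁ = B (β k) := fun k hk =>
      tight_of_openSegment (h1 _) (h2 _) hzo (hzline k hk)
    have e1 := on_line h i hz1line
    refine ⟨_, ?_, e1⟩
    have := h1 (β i)
    linarith
  · change 0 < c ⬝ᵥ dir a β i
    rw [dot_dir h]
    linarith

/-- A vertex is the basic solution of every tight basis. -/
lemma eq_bpt_of_tight (h : dt a β ≠ 0) {v : Fin n → ℝ} (hv : ∀ i, a (β i) ⬝ᵥ v = B (β i)) :
    v = bpt a B β := by
  apply eq_of_dot h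
  intro i
  rw [hv i, dot_bpt h]

/-- The tight constraints at a vertex span: for every direction `u ≠ 0` some tight constraint is
not orthogonal to `u`. -/
lemma exists_tight_of_extreme [Fintype ι] {v : Fin n → ℝ} (hv : v ∈ (poly a B).extremePoints ℝ)
    {u : Fin n → ℝ} (hu : u ≠ 0) : ∃ j, a j ⬝ᵥ v = B j ∧ a j ⬝ᵥ u ≠ 0 := by
  classical
  by_contra hcon
  push Not at hcon
  -- a small `δ` such that `v ± δ u` is in the polyhedron
  have hδ : ∃ δ : ℝ, 0 < δ ∧ ∀ j, δ * |a j ⬝ᵥ u| ≤ B j - a j ⬝ᵥ v := by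
    have key : ∀ s : Finset ι, ∃ δ : ℝ, 0 < δ ∧ ∀ j ∈ s, δ * |a j ⬝ᵥ u| ≤ B j - a j ⬝ᵥ v := by
      intro s
      induction s using Finset.induction_on with
      | empty => exact ⟨1, one_pos, by simp⟩
      | insert j s _ ih =>
        obtain ⟨δ, hδ, hs⟩ := ih
        have hvj := hv.1 j
        by_cases hj : a j ⬝ᵥ v = B j
        · refine ⟨δ, hδ, ?_⟩
          intro k hk
          rcases Finset.mem_insert.1 hk with rfl | hk
          · rw [hcon k hj, abs_zero, mul_zero, hj, sub_self]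
          · exact hs k hk
        · have hlt : 0 < B j - a j ⬝ᵥ v := by
            have := lt_of_le_of_ne hvj hj
            linarith
          refine ⟨min δ ((B j - a j ⬝ᵥ v) / (|a j ⬝ᵥ u| + 1)), ?_, ?_⟩
          · exact lt_min hδ (div_pos hlt (by positivity))
          · intro k hk
            rcases Finset.mem_insert.1 hk with rfl | hk
            · have h1 : min δ ((B k - a k ⬝ᵥ v) / (|a k ⬝ᵥ u| + 1)) * |a k ⬝ᵥ u| ≤
                  (B k - a k ⬝ᵥ v) / (|a k ⬝ᵥ u| + 1) * |a k ⬝ᵥ u| :=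
                mul_le_mul_of_nonneg_right (min_le_right _ _) (abs_nonneg _)
              refine h1.trans ?_
              rw [div_mul_eq_mul_div, div_le_iff₀ (by positivity)]
              have h2 := abs_nonneg (a k ⬝ᵥ u)
              nlinarith
            · exact (mul_le_mul_of_nonneg_right (min_le_left _ _) (abs_nonneg _)).trans (hs k hk)
    obtain ⟨δ, h1, h2⟩ := key Finset.univ
    exact ⟨δ, h1, fun j => h2 j (Finset.mem_univ j)⟩
  obtain ⟨δ, hδ0, hδ1⟩ := hδ
  have hmem : ∀ s : ℝ, |s| = δ → v + s • u ∈ poly a B := by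
    intro s hs j
    rw [dotProduct_add, dotProduct_smul, smul_eq_mul]
    have h1 : s * (a j ⬝ᵥ u) ≤ |s| * |a j ⬝ᵥ u| := by
      rw [← abs_mul]
      exact le_abs_self _
    rw [hs] at h1
    have h2 := hδ1 j
    linarith
  have h1 := hmem δ (abs_of_pos hδ0)
  have h2 := hmem (-δ) (by rw [abs_neg, abs_of_pos hδ0])
  have h3 := hv.2 h1 h2 (by
    refine ⟨1 / 2, 1 / 2, by norm_num, by norm_num, by norm_num, ?_⟩
    ext l
    simp only [Pi.add_apply, Pi.smul_apply, smul_eq_mul]
    ring)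
  apply hu
  have h4 : δ • u = 0 := by simpa using h3
  exact (smul_eq_zero.1 h4).resolve_left hδ0.ne'

lemma dir_ne_zero (h : dt a β ≠ 0) (i : Fin n) : dir a β i ≠ 0 := by
  intro h0
  have h1 := dot_dir_self h i i
  rw [h0, if_pos rfl, dotProduct_zero] at h1
  norm_num at h1

end Real

end Pool.Agent.H24R2
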